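import Pool.Agent.TR23.Stm

/-!
# Project TR23: the assembly (helper83)

From the jobs RIG, IND, FINR, GEN and the existence theorem `S_EX` to the negative answer for the graph
`K_{4,4}` minus three disjoint edges.
-/

set_option autoImplicit false
set_option linter.all false

open Filter Topology

namespace Pool.Agent.TR23.Asm

/-- the graph `K_{4,4}` minus three disjoint edges -/
def Gr : SimpleGraph (Fin 8) where
  Adj i j := (i, j) ∈ edg ∨ (j, i) ∈ edg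
  symm := ⟨fun i j h => h.symm⟩
  loopless := ⟨fun i h => by revert i; decide⟩

lemma sq_comm (p : Fin 8 → Fin 2 → ℝ) (i j : Fin 8) : sq p i j = sq p j i := by
  unfold sq
  exact Finset.sum_congr rfl fun k _ => by ring

lemma lens_eq {p q : Fin 8 → Fin 2 → ℝ} (h : ∀ x ∈ edg, sq q x.1 x.2 = sq p x.1 x.2) : lens q = lens p := by
  unfold lens
  rw [h (0, 4) (by decide), h (1, 4) (by decide), h (2, 4) (by decide), h (3, 4) (by decide), h (0, 5) (by decide),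
    h (0, 6) (by decide), h (0, 7) (by decide), h (1, 6) (by decide), h (1, 7) (by decide), h (2, 5) (by decide),
    h (2, 7) (by decide), h (3, 5) (by decide), h (3, 6) (by decide)]

lemma sq_nonneg' (p : Fin 8 → Fin 2 → ℝ) (i j : Fin 8) : 0 ≤ sq p i j :=
  Finset.sum_nonneg fun k _ => sq_nonneg _

lemma pos_of (p : Fin 8 → Fin 2 → ℝ) (h : AlgebraicIndependent ℚ (lens p).vec) : (lens p).Pos := by
  intro k
  refine lt_of_le_of_ne ?_ (h.ne_zero k).symm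
  fin_cases k <;> exact sq_nonneg' _ _ _

/-- the relation of the edges of a `4`-cycle on a line -/
lemma line_rel {s1 s2 s3 s4 : ℝ} (h : s1 + s2 + s3 + s4 = 0) :
    (4 * (s1 ^ 2 * s2 ^ 2 + s3 ^ 2 * s4 ^ 2) - (s3 ^ 2 + s4 ^ 2 - s1 ^ 2 - s2 ^ 2) ^ 2) ^ 2 -
      64 * (s1 ^ 2 * s2 ^ 2 * s3 ^ 2 * s4 ^ 2) = 0 := by
  obtain rfl : s4 = -(s1 + s2 + s3) := by linarith
  ring

open MvPolynomial in
/-- the relation does not hold for independent lengths -/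
lemma no_rel (d : Len) (h : AlgebraicIndependent ℚ d.vec)
    (hr : (4 * (d.B2 * d.e12 + d.e13 * d.B3) - (d.e13 + d.B3 - d.B2 - d.e12) ^ 2) ^ 2 -
      64 * (d.B2 * d.e12 * d.e13 * d.B3) = 0) : False := by
  obtain ⟨P, hP⟩ : ∃ P : MvPolynomial (Fin 13) ℚ, P = (4 * (X 5 * X 7 + X 8 * X 6) -
      (X 8 + X 6 - X 5 - X 7) ^ 2) ^ 2 - 64 * (X 5 * X 7 * X 8 * X 6) := ⟨_, rfl⟩
  have h1 : aeval d.vec P = 0 := by
    rw [hP]
    simp only [map_sub, map_mul, map_pow, map_add, aeval_X, map_ofNat]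
    exact hr
  have h2 : P = 0 := h.eq_zero_of_aeval_eq_zero P h1
  have h3 : eval (fun k : Fin 13 => if k = 5 then (1 : ℚ) else 0) P = 0 := by rw [h2]; simp
  rw [hP] at h3
  simp only [map_sub, map_mul, map_pow, map_add, eval_X, map_ofNat] at h3
  norm_num [show (7 : Fin 13) ≠ 5 by decide, show (8 : Fin 13) ≠ 5 by decide, show (6 : Fin 13) ≠ 5 by decide] at h3

/-- a Euclidean and a Lorentzian triangle with the same squared lengths are degenerate -/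
lemma degen {a0 a1 b0 b1 X1 Y1 X2 Y2 : ℝ} (h1 : a0 ^ 2 + a1 ^ 2 = X1 * Y1) (h2 : b0 ^ 2 + b1 ^ 2 = X2 * Y2)
    (h3 : (a0 - b0) ^ 2 + (a1 - b1) ^ 2 = (X1 - X2) * (Y1 - Y2)) : a0 * b1 = a1 * b0 := by
  have h4 : (a0 * b1 - a1 * b0) ^ 2 + ((X1 * Y2 - X2 * Y1) / 2) ^ 2 = 0 := by
    have h5 : a0 * b0 + a1 * b1 = (X1 * Y2 + X2 * Y1) / 2 := by linarith
    have h6 : (a0 * b1 - a1 * b0) ^ 2 = (a0 ^ 2 + a1 ^ 2) * (b0 ^ 2 + b1 ^ 2) - (a0 * b0 + a1 * b1) ^ 2 := by ring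
    rw [h6, h1, h2, h5]
    ring
  nlinarith [sq_nonneg (a0 * b1 - a1 * b0), sq_nonneg ((X1 * Y2 - X2 * Y1) / 2)]

/-- the relation for four points on a line in the plane -/
lemma plane_rel {e0 e1 f0 f1 g0 g1 : ℝ} (h1 : e0 * f1 = e1 * f0) (h2 : e0 * g1 = e1 * g0) (hE : e0 ^ 2 + e1 ^ 2 ≠ 0) :
    (4 * ((e0 ^ 2 + e1 ^ 2) * ((f0 - e0) ^ 2 + (f1 - e1) ^ 2) + ((g0 - f0) ^ 2 + (g1 - f1) ^ 2) * (g0 ^ 2 + g1 ^ 2)) -
      ((g0 - f0) ^ 2 + (g1 - f1) ^ 2 + (g0 ^ 2 + g1 ^ 2) - (e0 ^ 2 + e1 ^ 2) - ((f0 - e0) ^ 2 + (f1 - e1) ^ 2)) ^ 2) ^ 2 -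
      64 * ((e0 ^ 2 + e1 ^ 2) * ((f0 - e0) ^ 2 + (f1 - e1) ^ 2) * ((g0 - f0) ^ 2 + (g1 - f1) ^ 2) * (g0 ^ 2 + g1 ^ 2)) = 0 := by
  obtain ⟨E, hEd⟩ : ∃ E, E = e0 ^ 2 + e1 ^ 2 := ⟨_, rfl⟩
  obtain ⟨A, hA⟩ : ∃ A, A = (f0 - e0) ^ 2 + (f1 - e1) ^ 2 := ⟨_, rfl⟩
  obtain ⟨B, hB⟩ : ∃ B, B = (g0 - f0) ^ 2 + (g1 - f1) ^ 2 := ⟨_, rfl⟩
  obtain ⟨C, hC⟩ : ∃ C, C = g0 ^ 2 + g1 ^ 2 := ⟨_, rfl⟩
  rw [← hEd] at hE
  rw [← hEd, ← hA, ← hB, ← hC]
  have t1 : (e0 * e0 + e1 * e1) ^ 2 = E * E := by rw [hEd]; ring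
  have t2 : ((f0 - e0) * e0 + (f1 - e1) * e1) ^ 2 = E * A := by
    rw [hEd, hA]
    linear_combination (-(e0 * f1 - e1 * f0)) * h1
  have t3 : ((g0 - f0) * e0 + (g1 - f1) * e1) ^ 2 = E * B := by
    rw [hEd, hB]
    linear_combination (-((e0 * g1 - e1 * g0) - (e0 * f1 - e1 * f0))) * (h2 - h1)
  have t4 : (-(g0 * e0 + g1 * e1)) ^ 2 = E * C := by
    rw [hEd, hC]
    linear_combination (-(e0 * g1 - e1 * g0)) * h2
  have hrel := line_rel (s1 := e0 * e0 + e1 * e1) (s2 := (f0 - e0) * e0 + (f1 - e1) * e1)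
    (s3 := (g0 - f0) * e0 + (g1 - f1) * e1) (s4 := -(g0 * e0 + g1 * e1)) (by ring)
  rw [t1, t2, t3, t4] at hrel
  have h4 : E ^ 4 * ((4 * (E * A + B * C) - (B + C - E - A) ^ 2) ^ 2 - 64 * (E * A * B * C)) = 0 := by
    rw [← hrel]
    ring
  exact (mul_eq_zero.1 h4).resolve_left (pow_ne_zero 4 hE)

/-- the complex point with given null coordinates -/
noncomputable def pt (X Y : Fin 8 → ℝ) (i : Fin 8) : Fin 2 → ℂ :=
  ![((X i + Y i : ℝ) : ℂ) / 2, ((X i - Y i : ℝ) : ℂ) / (2 * Complex.I)]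

lemma pt_sq (X Y : Fin 8 → ℝ) (i j : Fin 8) :
    ∑ k, (pt X Y i k - pt X Y j k) ^ 2 = (((X i - X j) * (Y i - Y j) : ℝ) : ℂ) := by
  rw [Fin.sum_univ_two]
  simp only [pt, Matrix.cons_val_zero, Matrix.cons_val_one]
  have hI : (2 * Complex.I) ≠ 0 := mul_ne_zero two_ne_zero Complex.I_ne_zero
  have e : (((X i - Y i : ℝ) : ℂ) / (2 * Complex.I) - ((X j - Y j : ℝ) : ℂ) / (2 * Complex.I)) ^ 2 =
      -((((X i - Y i : ℝ) : ℂ) - ((X j - Y j : ℝ) : ℂ)) ^ 2) / 4 := by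
    rw [← sub_div, div_pow, mul_pow, Complex.I_sq]
    ring
  rw [e]
  push_cast
  ring

theorem main (hR : S_RIG) (hI : S_IND) (hF : S_FINR) (hG : S_GEN) (hE : S_EX) :
    ¬ (∀ (n : ℕ) (G : SimpleGraph (Fin n)),
    (∀ p : Fin n → Fin 2 → ℝ,
      AlgebraicIndependent ℚ (fun x : Fin n × Fin 2 => p x.1 x.2) →
      ∀ u : Fin n → Fin 2 → ℝ,
        (∀ i j, G.Adj i j → ∑ k, (p i k - p j k) * (u i k - u j k) = 0) →
        ∀ i j, ∑ k, (p i k - p j k) * (u i k - u j k) = 0) →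
    ∃ p : Fin n → Fin 2 → ℝ,
      AlgebraicIndependent ℚ (fun x : Fin n × Fin 2 => p x.1 x.2) ∧
      {D : Fin n → Fin n → ℝ | ∃ q : Fin n → Fin 2 → ℝ,
          (∀ i j, G.Adj i j → ∑ k, (q i k - q j k) ^ 2 = ∑ k, (p i k - p j k) ^ 2) ∧
          D = fun i j => ∑ k, (q i k - q j k) ^ 2}.ncard =
      {D : Fin n → Fin n → ℂ | ∃ q : Fin n → Fin 2 → ℂ,
          (∀ i j, G.Adj i j →
            ∑ k, (q i k - q j k) ^ 2 = ∑ k, ((p i k : ℂ) - (p j k : ℂ)) ^ 2) ∧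
          D = fun i j => ∑ k, (q i k - q j k) ^ 2}.ncard) := by
  intro h
  obtain ⟨p, hp, hcard⟩ := h 8 Gr (by
    intro p hp u hu
    exact hR.1 p u (hR.2 p hp) ((hI p hp).ne_zero 0) (fun x hx => hu x.1 x.2 (Or.inl hx)))
  have hAI := hI p hp
  obtain ⟨u1, v1, u2, v2, u3, v3, x1, y1, x2, y2, x3, y3, hB1, hB2, hB3, hA1, hA2, hA3, h12, h13, h21, h23, h31,
    h32⟩ := hE (lens p) (pos_of p hAI) (hG _ hAI)
  obtain ⟨X, hX⟩ : ∃ X : Fin 8 → ℝ, X = ![0, u1, u2, u3, 1, x1, x2, x3] := ⟨_, rfl⟩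
  obtain ⟨Y, hY⟩ : ∃ Y : Fin 8 → ℝ, Y = ![0, v1, v2, v3, (lens p).B0, y1, y2, y3] := ⟨_, rfl⟩
  have X0 : X 0 = 0 := by rw [hX]; rfl
  have X1 : X 1 = u1 := by rw [hX]; rfl
  have X2 : X 2 = u2 := by rw [hX]; rfl
  have X3 : X 3 = u3 := by rw [hX]; rfl
  have X4 : X 4 = 1 := by rw [hX]; rfl
  have X5 : X 5 = x1 := by rw [hX]; rfl
  have X6 : X 6 = x2 := by rw [hX]; rfl
  have X7 : X 7 = x3 := by rw [hX]; rfl
  have Y0 : Y 0 = 0 := by rw [hY]; rfl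
  have Y1 : Y 1 = v1 := by rw [hY]; rfl
  have Y2 : Y 2 = v2 := by rw [hY]; rfl
  have Y3 : Y 3 = v3 := by rw [hY]; rfl
  have Y4 : Y 4 = (lens p).B0 := by rw [hY]; rfl
  have Y5 : Y 5 = y1 := by rw [hY]; rfl
  have Y6 : Y 6 = y2 := by rw [hY]; rfl
  have Y7 : Y 7 = y3 := by rw [hY]; rfl
  clear hX hY
  have hedge : ∀ x ∈ edg, (X x.1 - X x.2) * (Y x.1 - Y x.2) = sq p x.1 x.2 := by
    intro x hx
    simp only [edg, List.mem_cons, List.not_mem_nil, or_false] at hx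
    rcases hx with rfl | rfl | rfl | rfl | rfl | rfl | rfl | rfl | rfl | rfl | rfl | rfl | rfl
    · show (X 0 - X 4) * (Y 0 - Y 4) = (lens p).B0
      rw [X0, X4, Y0, Y4]; ring
    · show (X 1 - X 4) * (Y 1 - Y 4) = (lens p).A1
      rw [X1, X4, Y1, Y4, hA1]
    · show (X 2 - X 4) * (Y 2 - Y 4) = (lens p).A2
      rw [X2, X4, Y2, Y4, hA2]
    · show (X 3 - X 4) * (Y 3 - Y 4) = (lens p).A3
      rw [X3, X4, Y3, Y4, hA3]
    · show (X 0 - X 5) * (Y 0 - Y 5) = (lens p).B1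
      rw [X0, X5, Y0, Y5, ← hB1]; ring
    · show (X 0 - X 6) * (Y 0 - Y 6) = (lens p).B2
      rw [X0, X6, Y0, Y6, ← hB2]; ring
    · show (X 0 - X 7) * (Y 0 - Y 7) = (lens p).B3
      rw [X0, X7, Y0, Y7, ← hB3]; ring
    · show (X 1 - X 6) * (Y 1 - Y 6) = (lens p).e12
      rw [X1, X6, Y1, Y6, h12]
    · show (X 1 - X 7) * (Y 1 - Y 7) = (lens p).e13
      rw [X1, X7, Y1, Y7, h13]
    · show (X 2 - X 5) * (Y 2 - Y 5) = (lens p).e21
      rw [X2, X5, Y2, Y5, h21]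
    · show (X 2 - X 7) * (Y 2 - Y 7) = (lens p).e23
      rw [X2, X7, Y2, Y7, h23]
    · show (X 3 - X 5) * (Y 3 - Y 5) = (lens p).e31
      rw [X3, X5, Y3, Y5, h31]
    · show (X 3 - X 6) * (Y 3 - Y 6) = (lens p).e32
      rw [X3, X6, Y3, Y6, h32]
  -- the two sets
  obtain ⟨SR, hSR⟩ : ∃ SR : Set (Fin 8 → Fin 8 → ℝ), SR = {D : Fin 8 → Fin 8 → ℝ | ∃ q : Fin 8 → Fin 2 → ℝ,
      (∀ i j, Gr.Adj i j → ∑ k, (q i k - q j k) ^ 2 = ∑ k, (p i k - p j k) ^ 2) ∧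
      D = fun i j => ∑ k, (q i k - q j k) ^ 2} := ⟨_, rfl⟩
  obtain ⟨SC, hSC⟩ : ∃ SC : Set (Fin 8 → Fin 8 → ℂ), SC = {D : Fin 8 → Fin 8 → ℂ | ∃ q : Fin 8 → Fin 2 → ℂ,
      (∀ i j, Gr.Adj i j → ∑ k, (q i k - q j k) ^ 2 = ∑ k, ((p i k : ℂ) - (p j k : ℂ)) ^ 2) ∧
      D = fun i j => ∑ k, (q i k - q j k) ^ 2} := ⟨_, rfl⟩
  rw [← hSR, ← hSC] at hcard
  have hfin : SR.Finite := by
    refine (hF (lens p) hAI).subset ?_
    rw [hSR]
    rintro D ⟨q, hq, rfl⟩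
    exact ⟨q, lens_eq (fun x hx => hq x.1 x.2 (Or.inl hx)), rfl⟩
  have hne : SR.Nonempty := by
    rw [hSR]
    exact ⟨_, p, fun _ _ _ => rfl, rfl⟩
  have hpos : 0 < SR.ncard := (Set.ncard_pos hfin).2 hne
  have hfinC : SC.Finite := by
    by_contra hinf
    rw [hcard, Set.Infinite.ncard hinf] at hpos
    exact lt_irrefl _ hpos
  obtain ⟨φ, hφ⟩ : ∃ φ : (Fin 8 → Fin 8 → ℝ) → Fin 8 → Fin 8 → ℂ, φ = fun D i j => (D i j : ℂ) := ⟨_, rfl⟩
  have hinj : Function.Injective φ := by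
    intro D D' hD
    funext i j
    have := congrFun (congrFun hD i) j
    rw [hφ] at this
    exact Complex.ofReal_injective this
  have hsub : φ '' SR ⊆ SC := by
    rintro _ ⟨D, hD, rfl⟩
    rw [hSR] at hD
    obtain ⟨q, hq, rfl⟩ := hD
    rw [hSC]
    refine ⟨fun i k => (q i k : ℂ), fun i j hij => ?_, ?_⟩
    · have := congrArg (fun x : ℝ => (x : ℂ)) (hq i j hij)
      push_cast at this
      exact this
    · rw [hφ]
      funext i j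
      push_cast
      rfl
  have hmem : (fun i j => (((X i - X j) * (Y i - Y j) : ℝ) : ℂ)) ∈ SC := by
    rw [hSC]
    refine ⟨pt X Y, fun i j hij => ?_, ?_⟩
    · rw [pt_sq]
      have e : (X i - X j) * (Y i - Y j) = sq p i j := by
        rcases hij with hij | hij
        · exact hedge (i, j) hij
        · have := hedge (j, i) hij
          simp only at this
          rw [sq_comm, ← this]
          ring
      rw [e]
      unfold sq
      push_cast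
      rfl
    · funext i j
      rw [pt_sq]
  have hnot : (fun i j => (((X i - X j) * (Y i - Y j) : ℝ) : ℂ)) ∉ φ '' SR := by
    rintro ⟨D, hD, hDe⟩
    rw [hSR] at hD
    obtain ⟨q, hq, rfl⟩ := hD
    have key : ∀ i j, sq q i j = (X i - X j) * (Y i - Y j) := by
      intro i j
      have := congrFun (congrFun hDe i) j
      rw [hφ] at this
      exact Complex.ofReal_injective this
    have col : ∀ i j l : Fin 8, (q i 0 - q l 0) * (q j 1 - q l 1) = (q i 1 - q l 1) * (q j 0 - q l 0) := by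
      intro i j l
      have h1 := key i l
      have h2 := key j l
      have h3 := key i j
      unfold sq at h1 h2 h3
      rw [Fin.sum_univ_two] at h1 h2 h3
      refine degen h1 h2 ?_
      have e0 : q i 0 - q l 0 - (q j 0 - q l 0) = q i 0 - q j 0 := by ring
      have e1 : q i 1 - q l 1 - (q j 1 - q l 1) = q i 1 - q j 1 := by ring
      have e2 : X i - X l - (X j - X l) = X i - X j := by ring
      have e3 : Y i - Y l - (Y j - Y l) = Y i - Y j := by ring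
      rw [e0, e1, e2, e3]
      exact h3
    have f2 : (lens p).B2 = (q 6 0 - q 0 0) ^ 2 + (q 6 1 - q 0 1) ^ 2 := by
      have := hq 0 6 (Or.inl (by decide))
      show sq p 0 6 = _
      unfold sq
      rw [← this, Fin.sum_univ_two]
      ring
    have f12 : (lens p).e12 = (q 1 0 - q 0 0 - (q 6 0 - q 0 0)) ^ 2 + (q 1 1 - q 0 1 - (q 6 1 - q 0 1)) ^ 2 := by
      have := hq 1 6 (Or.inl (by decide))
      show sq p 1 6 = _
      unfold sq
      rw [← this, Fin.sum_univ_two]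
      ring
    have f13 : (lens p).e13 = (q 7 0 - q 0 0 - (q 1 0 - q 0 0)) ^ 2 + (q 7 1 - q 0 1 - (q 1 1 - q 0 1)) ^ 2 := by
      have := hq 1 7 (Or.inl (by decide))
      show sq p 1 7 = _
      unfold sq
      rw [← this, Fin.sum_univ_two]
      ring
    have f3 : (lens p).B3 = (q 7 0 - q 0 0) ^ 2 + (q 7 1 - q 0 1) ^ 2 := by
      have := hq 0 7 (Or.inl (by decide))
      show sq p 0 7 = _
      unfold sq
      rw [← this, Fin.sum_univ_two]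
      ring
    refine no_rel (lens p) hAI ?_
    have hB2ne : (q 6 0 - q 0 0) ^ 2 + (q 6 1 - q 0 1) ^ 2 ≠ 0 := by
      rw [← f2]
      exact hAI.ne_zero 5
    have := plane_rel (col 6 1 0) (col 6 7 0) hB2ne
    rw [f2, f12, f13, f3]
    exact this
  have h1 : (φ '' SR).ncard = SR.ncard := Set.ncard_image_of_injective _ hinj
  have h2 : (φ '' SR).ncard < SC.ncard := by
    refine Set.ncard_lt_ncard ⟨hsub, fun hcon => hnot (hcon hmem)⟩ hfinC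
  omega

end Pool.Agent.TR23.Asm
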