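import Pool.Agent.TR23.Stm

/-! # Job CASE2 -/

set_option autoImplicit false
set_option linter.all false

open Filter Topology

namespace Pool.Agent.TR23.C2

lemma gne {d : Len} (h : Gen d) {i j : Fin 13} (hij : i ≠ j) : d.vec i ≠ d.vec j := by
  obtain ⟨K, _, h1, h2⟩ := h i
  intro he
  exact h2 (he ▸ h1 j hij.symm)

/-- one half of the job -/
lemma case2a (d : Len) (hP : d.Pos) (hG : Gen d) (p q : ℝ) (hne : p ≠ q)
    (h : QF (d.qa3 1) p q = 0) : G2 d 1 1 p q := by
  have pB0 : 0 < d.B0 := hP 0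
  have pA1 : 0 < d.A1 := hP 1
  have pA2 : 0 < d.A2 := hP 2
  have pA3 : 0 < d.A3 := hP 3
  have pB2 : 0 < d.B2 := hP 5
  have pB3 : 0 < d.B3 := hP 6
  have nB1 : d.B1 ≠ d.B0 := gne hG (i := 4) (j := 0) (by decide)
  have nB3 : d.B3 ≠ d.B0 := gne hG (i := 6) (j := 0) (by decide)
  have nA13 : d.A1 ≠ d.e13 := gne hG (i := 1) (j := 8) (by decide)
  have nB1' : d.B1 - d.B0 ≠ 0 := sub_ne_zero.2 nB1
  -- the equation of `a3`
  have h1 : (d.B1 - d.B0) * p = (d.B1 - d.e31 + d.A3 - d.B0) * q := by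
    have h2 : (p - q) * ((d.B1 - d.B0) * p - (d.B1 - d.e31 + d.A3 - d.B0) * q) = 0 := by
      rw [← h]; simp only [QF, Len.qa3, qa]; ring
    rcases mul_eq_zero.1 h2 with h2 | h2
    · exact absurd (sub_eq_zero.1 h2) hne
    · linarith
  have hq : q ≠ 0 := by
    rintro rfl
    rw [mul_zero] at h1
    rcases mul_eq_zero.1 h1 with h2 | h2
    · exact nB1' h2
    · exact hne h2
  obtain ⟨u, rfl⟩ : ∃ u, p = u * q := ⟨p / q, by field_simp⟩
  have hu1 : u ≠ 1 := by rintro rfl; exact hne (one_mul q)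
  have hu1' : u - 1 ≠ 0 := sub_ne_zero.2 hu1
  have h2 : (d.B1 - d.B0) * (u - 1) = d.A3 - d.e31 := by
    have h3 : ((d.B1 - d.B0) * (u - 1) - (d.A3 - d.e31)) * q = 0 := by linear_combination h1
    rcases mul_eq_zero.1 h3 with h4 | h4
    · linarith
    · exact absurd h4 hq
  have hu : u = 1 + (d.A3 - d.e31) / (d.B1 - d.B0) := by
    field_simp
    linear_combination h2
  have huK : ∀ K : Subfield ℝ, d.A3 ∈ K → d.e31 ∈ K → d.B1 ∈ K → d.B0 ∈ K → u ∈ K := by
    intro K k1 k2 k3 k4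
    rw [hu]
    exact K.add_mem K.one_mem (K.div_mem (K.sub_mem k1 k2) (K.sub_mem k3 k4))
  have hu0 : u ≠ 0 := by
    intro h3
    obtain ⟨K, _, hin, hout⟩ := hG 11
    apply hout
    have e : d.vec 11 = d.B1 - d.B0 + d.A3 := by
      show d.e31 = _
      rw [h3] at h2
      linarith
    rw [e]
    exact K.add_mem (K.sub_mem (hin 4 (by decide)) (hin 0 (by decide))) (hin 3 (by decide))
  have huV : d.B0 * (u - 1) + d.A3 ≠ 0 := by
    intro h3
    obtain ⟨K, _, hin, hout⟩ := hG 11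
    apply hout
    have e : d.vec 11 = d.A3 * d.B1 / d.B0 := by
      show d.e31 = _
      rw [eq_div_iff pB0.ne']
      linear_combination d.B0 * h2 - (d.B1 - d.B0) * h3
    rw [e]
    exact K.div_mem (K.mul_mem (hin 3 (by decide)) (hin 4 (by decide))) (hin 0 (by decide))
  intro x3 z3 x2 z2 hN3 hN2 hf3 hf2 r w hN hp2 hp3
  -- `b2` is finite
  have hx2 : x2 ≠ 0 := by
    rintro rfl
    have hz : z2 ≠ 0 := by
      rcases hN2 with h' | h'
      · exact absurd rfl h'
      · exact h'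
    simp only [QF, Len.fb2, fb] at hf2
    have h3 : d.B2 * (u * (u - 1)) * (q * z2) ^ 2 = 0 := by linear_combination hf2
    have h4 : d.B2 * (u * (u - 1)) * (q * z2) ^ 2 ≠ 0 := by positivity
    exact h4 h3
  have hz2 : z2 ≠ 0 := by
    rintro rfl
    simp only [QF, Len.fb2, fb] at hf2
    have h3 : (d.B0 * (u - 1) + d.A3) * (q * x2) ^ 2 = 0 := by linear_combination hf2
    have h4 : (d.B0 * (u - 1) + d.A3) * (q * x2) ^ 2 ≠ 0 := by positivity
    exact h4 h3
  obtain ⟨s, rfl⟩ : ∃ s, x2 = s * z2 := ⟨x2 / z2, by field_simp⟩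
  have hs0 : s ≠ 0 := by rintro rfl; exact hx2 (zero_mul _)
  have hs : (d.B0 * (u - 1) + d.A3) * s ^ 2 + (-(u * (d.B0 * (u - 1) + d.A3) +
      (d.B2 - d.e32) * (u - 1))) * s + d.B2 * u * (u - 1) = 0 := by
    simp only [QF, Len.fb2, fb] at hf2
    have h3 : ((d.B0 * (u - 1) + d.A3) * s ^ 2 + (-(u * (d.B0 * (u - 1) + d.A3) +
      (d.B2 - d.e32) * (u - 1))) * s + d.B2 * u * (u - 1)) * (q * z2) ^ 2 = 0 := by
      linear_combination hf2
    rcases mul_eq_zero.1 h3 with h4 | h4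
    · exact h4
    · exact absurd h4 (by positivity)
  -- the root `(1 : 1)` is impossible
  have hrw : r ≠ w := by
    rintro rfl
    have hr0 : r ≠ 0 := by
      rcases hN with h' | h' <;> exact h'
    simp only [QF, Len.pp2, pp] at hp2
    have h3 : d.A1 * s * (1 - s) * (z2 * r) ^ 2 = 0 := by linear_combination hp2
    have h4 : s = 1 := by
      by_contra hs1
      have h5 : 1 - s ≠ 0 := sub_ne_zero.2 (Ne.symm hs1)
      have h6 : d.A1 * s * (1 - s) * (z2 * r) ^ 2 ≠ 0 := by positivity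
      exact h6 h3
    rw [h4] at hs
    have h5 : (u - 1) * ((d.B2 - d.B0) * (u - 1) + (d.e32 - d.A3)) = 0 := by
      linear_combination hs
    rcases mul_eq_zero.1 h5 with h6 | h6
    · exact hu1' h6
    obtain ⟨K, _, hin, hout⟩ := hG 12
    apply hout
    have e : d.vec 12 = d.A3 - (d.B2 - d.B0) * (u - 1) := by
      show d.e32 = _
      linarith
    rw [e]
    exact K.sub_mem (hin 3 (by decide)) (K.mul_mem (K.sub_mem (hin 5 (by decide)) (hin 0 (by decide)))
      (K.sub_mem (huK K (hin 3 (by decide)) (hin 11 (by decide)) (hin 4 (by decide))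
        (hin 0 (by decide))) K.one_mem))
  -- a relation which determines `e12`
  have hfin : ∀ f : Subfield ℝ → Prop, True := fun _ => trivial
  obtain ⟨K, hQ, hin, hout⟩ := hG 7
  have kB0 : d.B0 ∈ K := hin 0 (by decide)
  have kA1 : d.A1 ∈ K := hin 1 (by decide)
  have kA3 : d.A3 ∈ K := hin 3 (by decide)
  have kB1 : d.B1 ∈ K := hin 4 (by decide)
  have kB2 : d.B2 ∈ K := hin 5 (by decide)
  have kB3 : d.B3 ∈ K := hin 6 (by decide)
  have ke13 : d.e13 ∈ K := hin 8 (by decide)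
  have ke31 : d.e31 ∈ K := hin 11 (by decide)
  have ke32 : d.e32 ∈ K := hin 12 (by decide)
  have ku : u ∈ K := huK K kA3 ke31 kB1 kB0
  have ku1 : u - 1 ∈ K := K.sub_mem ku K.one_mem
  have kV : d.B0 * (u - 1) + d.A3 ∈ K := K.add_mem (K.mul_mem kB0 ku1) kA3
  have ks : s ∈ K := hQ _ _ _ s kV
    (K.neg_mem (K.add_mem (K.mul_mem ku kV) (K.mul_mem (K.sub_mem kB2 ke32) ku1)))
    (K.mul_mem (K.mul_mem kB2 ku) ku1) (Or.inl huV) hs
  have kg1 : d.B0 - d.A1 ∈ K := K.sub_mem kB0 kA1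
  -- `g2 ∈ K` is impossible
  have hg2 : d.B2 - d.e12 ∉ K := by
    intro h3
    apply hout
    have e : d.vec 7 = d.B2 - (d.B2 - d.e12) := by
      show d.e12 = _
      ring
    rw [e]
    exact K.sub_mem kB2 h3
  have hx3 : x3 = 0 ∨ x3 = z3 := by
    simp only [QF, Len.fb3, fb] at hf3
    have h3 : d.A2 * (x3 * (x3 - z3)) = 0 := by linear_combination hf3
    rcases mul_eq_zero.1 h3 with h4 | h4
    · exact absurd h4 pA2.ne'
    rcases mul_eq_zero.1 h4 with h5 | h5
    · exact Or.inl h5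
    · exact Or.inr (sub_eq_zero.1 h5)
  rcases hx3 with rfl | rfl
  · -- `b3 = (0 : 1)`
    have hz3 : z3 ≠ 0 := by
      rcases hN3 with h' | h'
      · exact absurd rfl h'
      · exact h'
    simp only [QF, Len.pp3, pp] at hp3
    have h3 : d.B3 * z3 ^ 2 * (r * (r - w)) = 0 := by linear_combination -hp3
    have hr : r = 0 := by
      rcases mul_eq_zero.1 h3 with h4 | h4
      · exact absurd h4 (by positivity)
      rcases mul_eq_zero.1 h4 with h5 | h5
      · exact h5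
      · exact absurd (sub_eq_zero.1 h5) hrw
    have hw : w ≠ 0 := by
      rcases hN with h' | h'
      · exact absurd hr h'
      · exact h'
    rw [hr] at hp2
    simp only [QF, Len.pp2, pp] at hp2
    have h4 : ((d.B0 - d.A1) * s - (d.B2 - d.e12)) * (s * (z2 * w) ^ 2) = 0 := by
      linear_combination hp2
    rcases mul_eq_zero.1 h4 with h5 | h5
    · apply hg2
      have e : d.B2 - d.e12 = (d.B0 - d.A1) * s := by linarith
      rw [e]
      exact K.mul_mem kg1 ks
    · exact absurd h5 (by positivity)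
  · -- `b3 = (1 : 1)`
    have hx30 : x3 ≠ 0 := by
      rcases hN3 with h' | h' <;> exact h'
    simp only [QF, Len.pp3, pp] at hp3
    have h3 : (x3 ^ 2) * ((r - w) * ((d.B0 - d.B3) * r -
        ((d.B0 - d.A1) - (d.B3 - d.e13)) * w)) = 0 := by linear_combination hp3
    have h4 : (d.B0 - d.B3) * r = ((d.B0 - d.A1) - (d.B3 - d.e13)) * w := by
      rcases mul_eq_zero.1 h3 with h4 | h4
      · exact absurd h4 (by positivity)
      rcases mul_eq_zero.1 h4 with h5 | h5
      · exact absurd (sub_eq_zero.1 h5) hrw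
      · linarith
    have nB03 : d.B0 - d.B3 ≠ 0 := sub_ne_zero.2 (Ne.symm nB3)
    have hw : w ≠ 0 := by
      rintro rfl
      rw [mul_zero] at h4
      rcases mul_eq_zero.1 h4 with h5 | h5
      · exact nB03 h5
      · exact hrw h5
    obtain ⟨v, rfl⟩ : ∃ v, r = v * w := ⟨r / w, by field_simp⟩
    have hv : v = ((d.B0 - d.A1) - (d.B3 - d.e13)) / (d.B0 - d.B3) := by
      rw [eq_div_iff nB03]
      have h5 : (v * (d.B0 - d.B3) - ((d.B0 - d.A1) - (d.B3 - d.e13))) * w = 0 := by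
        linear_combination h4
      rcases mul_eq_zero.1 h5 with h6 | h6
      · linarith
      · exact absurd h6 hw
    have kv : v ∈ K := by
      rw [hv]
      exact K.div_mem (K.sub_mem kg1 (K.sub_mem kB3 ke13)) (K.sub_mem kB0 kB3)
    have hv1 : v - 1 ≠ 0 := by
      intro h5
      apply hrw
      rw [sub_eq_zero.1 h5, one_mul]
    simp only [QF, Len.pp2, pp] at hp2
    have h5 : (d.B2 - d.e12) * (s * (v - 1)) + ((d.B0 * s - d.B2) * v ^ 2 +
        (-(d.B0 - d.A1) * s + d.B2 - d.B0 * s ^ 2) * v + (d.B0 - d.A1) * s ^ 2) = 0 := by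
      have h6 : ((d.B2 - d.e12) * (s * (v - 1)) + ((d.B0 * s - d.B2) * v ^ 2 +
        (-(d.B0 - d.A1) * s + d.B2 - d.B0 * s ^ 2) * v + (d.B0 - d.A1) * s ^ 2)) *
          (z2 * w) ^ 2 = 0 := by linear_combination hp2
      rcases mul_eq_zero.1 h6 with h7 | h7
      · exact h7
      · exact absurd h7 (by positivity)
    apply hg2
    have hsv : s * (v - 1) ≠ 0 := mul_ne_zero hs0 hv1
    have e : d.B2 - d.e12 = -((d.B0 * s - d.B2) * v ^ 2 +
        (-(d.B0 - d.A1) * s + d.B2 - d.B0 * s ^ 2) * v + (d.B0 - d.A1) * s ^ 2) /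
          (s * (v - 1)) := by
      rw [eq_div_iff hsv]
      linear_combination h5
    rw [e]
    refine K.div_mem (K.neg_mem (K.add_mem (K.add_mem (K.mul_mem ?_ (K.pow_mem kv 2))
      (K.mul_mem ?_ kv)) (K.mul_mem kg1 (K.pow_mem ks 2)))) (K.mul_mem ks (K.sub_mem kv K.one_mem))
    · exact K.sub_mem (K.mul_mem kB0 ks) kB2
    · exact K.sub_mem (K.add_mem (K.mul_mem (K.neg_mem kg1) ks) kB2)
        (K.mul_mem kB0 (K.pow_mem ks 2))

/-! ### the exchange of the indices `2` and `3` -/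

/-- the permutation of the lengths -/
def sig : Fin 13 → Fin 13 := ![0, 1, 3, 2, 4, 6, 5, 8, 7, 11, 12, 9, 10]

lemma swap_vec (d : Len) (k : Fin 13) : d.swap.vec k = d.vec (sig k) := by
  fin_cases k <;> simp [Len.vec, Len.swap, sig]

lemma sig_inj : ∀ i j : Fin 13, sig i = sig j → i = j := by decide

lemma gen_swap {d : Len} (h : Gen d) : Gen d.swap := by
  intro k
  obtain ⟨K, hQ, h1, h2⟩ := h (sig k)
  refine ⟨K, hQ, fun j hj => ?_, ?_⟩
  · rw [swap_vec]
    exact h1 _ fun he => hj (sig_inj _ _ he)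
  · rw [swap_vec]
    exact h2

lemma pos_swap {d : Len} (h : d.Pos) : d.swap.Pos := by
  intro k
  rw [swap_vec]
  exact h _

/-- **Job CASE2.** -/
theorem t_CASE2 : S_CASE2 := by
  intro d hP hG p q hN hne
  refine ⟨fun h => case2a d hP hG p q hne h, fun h => ?_⟩
  have h1 := case2a d.swap (pos_swap hP) (gen_swap hG) p q hne h
  intro x3 z3 x2 z2 hN3 hN2 hf3 hf2 u w hu hp2 hp3
  exact h1 x2 z2 x3 z3 hN2 hN3 hf2 hf3 u w hu hp3 hp2

end Pool.Agent.TR23.C2
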