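import Pool.Agent.TR23.Stm
/-! Job CASE1 of project TR23 (MP_01c1f4_co). -/
set_option autoImplicit false

open Filter Topology

namespace Pool.Agent.TR23
namespace C1

theorem qa_form (B0 B1 A e t p q : ℝ) : QF (qa B0 B1 A e t) p q =
    (p - q) * ((B1 - B0 * t) * p - t * (B1 - e + A - B0 * t) * q) - A * t * (1 - t) * q ^ 2 := by
  unfold QF qa; ring

theorem fb_form (B0 A B e p q x z : ℝ) : QF (fb B0 A B e p q) x z =
    q * (B0 * (p - q) + A * q) * x ^ 2 - (p * (B0 * (p - q) + A * q) + (B - e) * q * (p - q)) * x * z +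
      B * p * (p - q) * z ^ 2 := by
  unfold QF fb; ring

theorem pp_form (B0 g1 B g x z u w : ℝ) : QF (pp B0 g1 B g x z) u w =
    x * (B0 * u - g1 * w) * (z * u - x * w) - z * (u - w) * (B * z * u - g * x * w) := by
  unfold QF pp; ring

theorem q_ne {B0 B1 A e t p q : ℝ} (hbt : B0 * t ≠ B1) (h : QF (qa B0 B1 A e t) p q = 0) (hn : NZ p q) : q ≠ 0 := by
  rintro rfl
  rw [qa_form] at h
  have hp : p ≠ 0 := by
    rcases hn with h1 | h1
    · exact h1
    · exact absurd rfl h1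
  have h1 : (B1 - B0 * t) * p ^ 2 = 0 := by linear_combination h
  rcases mul_eq_zero.1 h1 with h2 | h2
  · exact hbt (by linarith)
  · exact hp (pow_eq_zero_iff (two_ne_zero) |>.1 h2)

/-- `u ∈ K` -/
theorem uK {K : Subfield ℝ} (hK : QC K) {B0 B1 A e t p q : ℝ} (h0 : B0 ∈ K) (h1 : B1 ∈ K) (hA : A ∈ K) (he : e ∈ K)
    (ht : t ∈ K) (hbt : B0 * t ≠ B1) (h : QF (qa B0 B1 A e t) p q = 0) (hq : q ≠ 0) : p / q ∈ K := by
  have hS : B1 - e + A - B0 * t ∈ K := K.sub_mem (K.add_mem (K.sub_mem h1 he) hA) (K.mul_mem h0 ht)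
  have hb : B1 - B0 * t ∈ K := K.sub_mem h1 (K.mul_mem h0 ht)
  refine hK (B1 - B0 * t) (-(t * (B1 - e + A - B0 * t) + (B1 - B0 * t)))
    (t * (B1 - e + A - B0 * t) - A * t * (1 - t)) (p / q) hb (K.neg_mem (K.add_mem (K.mul_mem ht hS) hb))
    (K.sub_mem (K.mul_mem ht hS) (K.mul_mem (K.mul_mem hA ht) (K.sub_mem K.one_mem ht))) (Or.inl ?_) ?_
  · intro h2; exact hbt (by linarith)
  · rw [qa_form] at h
    field_simp
    linear_combination h

/-- `t ∈ K` -/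
theorem tK {K : Subfield ℝ} (hK : QC K) {B0 B1 A e t p q : ℝ} (h0 : B0 ∈ K) (h1 : B1 ∈ K) (hA : A ∈ K) (he : e ∈ K)
    (hu : p / q ∈ K) (hq : q ≠ 0) (hpq : p ≠ q) (hB1 : B1 ≠ 0) (hAB : A ≠ B0)
    (h : QF (qa B0 B1 A e t) p q = 0) : t ∈ K := by
  have hu1 : p / q - 1 ∈ K := K.sub_mem hu K.one_mem
  refine hK ((p / q - 1) * B0 + A) (-((p / q - 1) * (B0 * (p / q) + (B1 - e + A))) - A)
    ((p / q - 1) * B1 * (p / q)) t (K.add_mem (K.mul_mem hu1 h0) hA)
    (K.sub_mem (K.neg_mem (K.mul_mem hu1 (K.add_mem (K.mul_mem h0 hu) (K.add_mem (K.sub_mem h1 he) hA)))) hA)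
    (K.mul_mem (K.mul_mem hu1 h1) hu) ?_ ?_
  · by_cases hp : p = 0
    · left
      rw [hp, zero_div]
      intro h2; exact hAB (by linarith)
    · right; right
      have h2 : p / q - 1 ≠ 0 := by
        intro h3
        apply hpq
        field_simp at h3
        linarith
      exact mul_ne_zero (mul_ne_zero h2 hB1) (div_ne_zero hp hq)
  · rw [qa_form] at h
    field_simp
    linear_combination h

/-- `x / z ∈ K` -/
theorem xK {K : Subfield ℝ} (hK : QC K) {B0 A B e p q x z : ℝ} (h0 : B0 ∈ K) (hA : A ∈ K) (hB : B ∈ K) (he : e ∈ K)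
    (hu : p / q ∈ K) (hq : q ≠ 0) (hpq : p ≠ q) (hBn : B ≠ 0) (hAB : A ≠ B0) (hz : z ≠ 0)
    (h : QF (fb B0 A B e p q) x z = 0) : x / z ∈ K := by
  have hu1 : p / q - 1 ∈ K := K.sub_mem hu K.one_mem
  have hV : B0 * (p / q - 1) + A ∈ K := K.add_mem (K.mul_mem h0 hu1) hA
  have h2 : p / q - 1 ≠ 0 := by
    intro h3
    apply hpq
    field_simp at h3
    linarith
  refine hK (B0 * (p / q - 1) + A) (-((p / q) * (B0 * (p / q - 1) + A) + (B - e) * (p / q - 1)))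
    (B * (p / q) * (p / q - 1)) (x / z) hV
    (K.neg_mem (K.add_mem (K.mul_mem hu hV) (K.mul_mem (K.sub_mem hB he) hu1)))
    (K.mul_mem (K.mul_mem hB hu) hu1) ?_ ?_
  · by_cases hp : p = 0
    · left
      rw [hp, zero_div]
      intro h3; exact hAB (by linarith)
    · right; right
      exact mul_ne_zero (mul_ne_zero hBn (div_ne_zero hp hq)) h2
  · rw [fb_form] at h
    field_simp
    linear_combination h

/-- the permutation of the lengths -/
def sg : Fin 13 → Fin 13 := ![0, 1, 3, 2, 4, 6, 5, 8, 7, 11, 12, 9, 10]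

theorem sg_eq (d : Len) : ∀ j, d.swap.vec j = d.vec (sg j) := by
  intro j
  fin_cases j <;> simp [sg, Len.vec, Len.swap]

theorem sg_ne : ∀ j k, j ≠ k → sg j ≠ sg k := by decide

theorem swap_gen {d : Len} (h : Gen d) : Gen d.swap := by
  intro k
  obtain ⟨K, hK, hm, hn⟩ := h (sg k)
  refine ⟨K, hK, fun j hj => ?_, ?_⟩
  · rw [sg_eq]; exact hm _ (sg_ne j k hj)
  · rw [sg_eq]; exact hn

theorem swap_pos {d : Len} (h : d.Pos) : d.swap.Pos := by
  intro k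
  rw [sg_eq]
  exact h _

/-- the field without `e12` -/
theorem g7 {d : Len} (h : Gen d) : ∃ K : Subfield ℝ, QC K ∧ d.e12 ∉ K ∧ d.B0 ∈ K ∧ d.A1 ∈ K ∧ d.A2 ∈ K ∧ d.A3 ∈ K ∧
    d.B1 ∈ K ∧ d.B2 ∈ K ∧ d.B3 ∈ K ∧ d.e13 ∈ K ∧ d.e21 ∈ K ∧ d.e23 ∈ K ∧ d.e31 ∈ K ∧ d.e32 ∈ K := by
  obtain ⟨K, hK, hm, hn⟩ := h 7
  exact ⟨K, hK, hn, hm 0 (by decide), hm 1 (by decide), hm 2 (by decide), hm 3 (by decide), hm 4 (by decide),
    hm 5 (by decide), hm 6 (by decide), hm 8 (by decide), hm 9 (by decide), hm 10 (by decide), hm 11 (by decide),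
    hm 12 (by decide)⟩

/-- the field without `e31` -/
theorem g11 {d : Len} (h : Gen d) : ∃ K : Subfield ℝ, QC K ∧ d.e31 ∉ K ∧ d.B0 ∈ K ∧ d.A1 ∈ K ∧ d.A2 ∈ K ∧ d.A3 ∈ K ∧
    d.B1 ∈ K ∧ d.B2 ∈ K ∧ d.B3 ∈ K ∧ d.e12 ∈ K ∧ d.e13 ∈ K ∧ d.e21 ∈ K ∧ d.e23 ∈ K ∧ d.e32 ∈ K := by
  obtain ⟨K, hK, hm, hn⟩ := h 11
  exact ⟨K, hK, hn, hm 0 (by decide), hm 1 (by decide), hm 2 (by decide), hm 3 (by decide), hm 4 (by decide),
    hm 5 (by decide), hm 6 (by decide), hm 7 (by decide), hm 8 (by decide), hm 9 (by decide), hm 10 (by decide),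
    hm 12 (by decide)⟩

/-- the field without `e32` -/
theorem g12 {d : Len} (h : Gen d) : ∃ K : Subfield ℝ, QC K ∧ d.e32 ∉ K ∧ d.B0 ∈ K ∧ d.A1 ∈ K ∧ d.A2 ∈ K ∧ d.A3 ∈ K ∧
    d.B1 ∈ K ∧ d.B2 ∈ K ∧ d.B3 ∈ K ∧ d.e12 ∈ K ∧ d.e13 ∈ K ∧ d.e21 ∈ K ∧ d.e23 ∈ K ∧ d.e31 ∈ K := by
  obtain ⟨K, hK, hm, hn⟩ := h 12
  exact ⟨K, hK, hn, hm 0 (by decide), hm 1 (by decide), hm 2 (by decide), hm 3 (by decide), hm 4 (by decide),
    hm 5 (by decide), hm 6 (by decide), hm 7 (by decide), hm 8 (by decide), hm 9 (by decide), hm 10 (by decide),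
    hm 11 (by decide)⟩

theorem gne {d : Len} (h : Gen d) {j k : Fin 13} (hjk : j ≠ k) : d.vec j ≠ d.vec k := by
  obtain ⟨K, _, hm, hn⟩ := h k
  intro he
  exact hn (he ▸ hm j hjk)

/-- from `qa` at `p = 0` -/
theorem qa_zero {B0 B1 A e t p q : ℝ} (ht : t ≠ 0) (hq : q ≠ 0) (hp : p = 0) (h : QF (qa B0 B1 A e t) p q = 0) :
    B1 - e = (B0 - A) * t := by
  rw [qa_form, hp] at h
  have h1 : t * q ^ 2 * (B1 - e - (B0 - A) * t) = 0 := by linear_combination h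
  rcases mul_eq_zero.1 h1 with h2 | h2
  · exact absurd h2 (mul_ne_zero ht (pow_ne_zero 2 hq))
  · linarith

/-- from `qa` at `V = 0` -/
theorem qa_inf {B0 B1 A e t p q : ℝ} (hq : q ≠ 0) (hp : B0 * (p - q) + A * q = 0)
    (h : QF (qa B0 B1 A e t) p q = 0) (hA : A ≠ 0) : t * (B1 - e) * B0 = B1 * (B0 - A) := by
  rw [qa_form] at h
  have h2 : B0 * (p - q) = - A * q := by linarith
  have h3 : B0 * p = (B0 - A) * q := by linarith
  have h1 : A * q ^ 2 * (t * (B1 - e) * B0 - B1 * (B0 - A)) = 0 := by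
    have h4 : B0 ^ 2 * ((p - q) * ((B1 - B0 * t) * p - t * (B1 - e + A - B0 * t) * q) - A * t * (1 - t) * q ^ 2) =
      (B0 * (p - q)) * ((B1 - B0 * t) * (B0 * p) - B0 * t * (B1 - e + A - B0 * t) * q) -
        B0 ^ 2 * (A * t * (1 - t) * q ^ 2) := by ring
    rw [h, h2, h3] at h4
    linear_combination -h4
  rcases mul_eq_zero.1 h1 with h2 | h2
  · exact absurd h2 (mul_ne_zero hA (pow_ne_zero 2 hq))
  · linarith

theorem inf3 (d : Len) (hP : d.Pos) (hG : Gen d) {t p2 q2 p3 q3 x3 z3 x2 z2 u w : ℝ} (ht : t ≠ 0)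
    (hbt : d.B0 * t ≠ d.B1) (hq2 : q2 ≠ 0) (hq3 : q3 ≠ 0) (h2 : QF (d.qa2 t) p2 q2 = 0)
    (h3 : QF (d.qa3 t) p3 q3 = 0) (hpq2 : p2 ≠ q2) (hpq3 : p3 ≠ q3) (hx3 : NZ x3 z3) (hx2 : NZ x2 z2)
    (hf3 : QF (d.fb3 p2 q2) x3 z3 = 0) (hf2 : QF (d.fb2 p3 q3) x2 z2 = 0) (huw : NZ u w)
    (hp2 : QF (d.pp2 x2 z2) u w = 0) (hp3 : QF (d.pp3 x3 z3) u w = 0) (hinf : x3 = 0 ∨ z3 = 0) : False := by
  have pB0 : 0 < d.B0 := hP 0
  have pA1 : 0 < d.A1 := hP 1
  have pA2 : 0 < d.A2 := hP 2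
  have pA3 : 0 < d.A3 := hP 3
  have pB1 : 0 < d.B1 := hP 4
  have pB2 : 0 < d.B2 := hP 5
  have pB3 : 0 < d.B3 := hP 6
  have nA1 : d.A1 ≠ d.B0 := gne hG (j := 1) (k := 0) (by decide)
  have nA2 : d.A2 ≠ d.B0 := gne hG (j := 2) (k := 0) (by decide)
  have nA3 : d.A3 ≠ d.B0 := gne hG (j := 3) (k := 0) (by decide)
  have n21 : d.B1 ≠ d.e21 := gne hG (j := 4) (k := 9) (by decide)
  unfold Len.qa2 at h2
  unfold Len.qa3 at h3
  unfold Len.fb3 at hf3
  unfold Len.fb2 at hf2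
  unfold Len.pp2 at hp2
  unfold Len.pp3 at hp3
  have hpq2' : p2 - q2 ≠ 0 := sub_ne_zero.2 hpq2
  have hpq3' : p3 - q3 ≠ 0 := sub_ne_zero.2 hpq3
  rw [fb_form] at hf3
  rw [pp_form] at hp3
  -- t
  have htK : ∀ K : Subfield ℝ, d.B0 ∈ K → d.B1 ∈ K → d.A2 ∈ K → d.e21 ∈ K → t ∈ K := by
    intro K k0 k1 k2 k3
    rcases hinf with h | h
    · -- p2 = 0
      have hz3 : z3 ≠ 0 := by
        rcases hx3 with h' | h'
        · exact absurd h h'
        · exact h'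
      have hp : p2 = 0 := by
        rw [h] at hf3
        have h4 : (d.B3 * (p2 - q2) * z3 ^ 2) * p2 = 0 := by linear_combination hf3
        rcases mul_eq_zero.1 h4 with h5 | h5
        · exact absurd h5 (mul_ne_zero (mul_ne_zero pB3.ne' hpq2') (pow_ne_zero 2 hz3))
        · exact h5
      have h4 := qa_zero ht hq2 hp h2
      have h5 : d.B0 - d.A2 ≠ 0 := sub_ne_zero.2 (Ne.symm nA2)
      have h6 : t = (d.B1 - d.e21) / (d.B0 - d.A2) := by
        field_simp; linarith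
      rw [h6]
      exact K.div_mem (K.sub_mem k1 k3) (K.sub_mem k0 k2)
    · have hx3' : x3 ≠ 0 := by
        rcases hx3 with h' | h'
        · exact h'
        · exact absurd h h'
      have hV : d.B0 * (p2 - q2) + d.A2 * q2 = 0 := by
        rw [h] at hf3
        have h4 : (q2 * x3 ^ 2) * (d.B0 * (p2 - q2) + d.A2 * q2) = 0 := by linear_combination hf3
        rcases mul_eq_zero.1 h4 with h5 | h5
        · exact absurd h5 (mul_ne_zero hq2 (pow_ne_zero 2 hx3'))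
        · exact h5
      have h4 := qa_inf hq2 hV h2 pA2.ne'
      have h5 : d.B1 - d.e21 ≠ 0 := sub_ne_zero.2 n21
      have h6 : t = d.B1 * (d.B0 - d.A2) / ((d.B1 - d.e21) * d.B0) := by
        have := pB0.ne'
        field_simp; linarith
      rw [h6]
      exact K.div_mem (K.mul_mem k1 (K.sub_mem k0 k2)) (K.mul_mem (K.sub_mem k1 k3) k0)
  -- x2 ≠ 0
  have hx2' : x2 ≠ 0 := by
    intro h
    have hz2 : z2 ≠ 0 := by
      rcases hx2 with h' | h'
      · exact absurd h h'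
      · exact h'
    have hp : p3 = 0 := by
      rw [fb_form, h] at hf2
      have h4 : (d.B2 * (p3 - q3) * z2 ^ 2) * p3 = 0 := by linear_combination hf2
      rcases mul_eq_zero.1 h4 with h5 | h5
      · exact absurd h5 (mul_ne_zero (mul_ne_zero pB2.ne' hpq3') (pow_ne_zero 2 hz2))
      · exact h5
    have h4 := qa_zero ht hq3 hp h3
    obtain ⟨K, hK, hn, k0, kA1, kA2, kA3, kB1, kB2, kB3, k12, k13, k21, k23, k32⟩ := g11 hG
    have h6 : d.e31 = d.B1 - (d.B0 - d.A3) * t := by linarith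
    apply hn
    rw [h6]
    exact K.sub_mem kB1 (K.mul_mem (K.sub_mem k0 kA3) (htK K k0 kB1 kA2 k21))
  have hz2' : z2 ≠ 0 := by
    intro h
    have hV : d.B0 * (p3 - q3) + d.A3 * q3 = 0 := by
      rw [fb_form, h] at hf2
      have h4 : (q3 * x2 ^ 2) * (d.B0 * (p3 - q3) + d.A3 * q3) = 0 := by linear_combination hf2
      rcases mul_eq_zero.1 h4 with h5 | h5
      · exact absurd h5 (mul_ne_zero hq3 (pow_ne_zero 2 hx2'))
      · exact h5
    have h4 := qa_inf hq3 hV h3 pA3.ne'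
    obtain ⟨K, hK, hn, k0, kA1, kA2, kA3, kB1, kB2, kB3, k12, k13, k21, k23, k32⟩ := g11 hG
    have h6 : d.e31 = d.B1 - d.B1 * (d.B0 - d.A3) / (t * d.B0) := by
      have := pB0.ne'
      field_simp; linarith
    apply hn
    rw [h6]
    exact K.sub_mem kB1 (K.div_mem (K.mul_mem kB1 (K.sub_mem k0 kA3)) (K.mul_mem (htK K k0 kB1 kA2 k21) k0))
  -- elimination of e12
  have E12 : ∀ a b : ℝ, (∀ K : Subfield ℝ, d.B0 ∈ K → d.A1 ∈ K → d.B2 ∈ K → x2 / z2 ∈ K → a ∈ K ∧ b ∈ K) →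
      b ≠ 0 → b * d.e12 = a → False := by
    intro a b hab hb0 he
    obtain ⟨K, hK, hn, k0, kA1, kA2, kA3, kB1, kB2, kB3, k13, k21, k23, k31, k32⟩ := g7 hG
    have kt := htK K k0 kB1 kA2 k21
    have ku := uK hK k0 kB1 kA3 k31 kt hbt h3 hq3
    have kx := xK hK k0 kA3 kB2 k32 ku hq3 hpq3 pB2.ne' nA3 hz2' hf2
    obtain ⟨ka, kb⟩ := hab K k0 kA1 kB2 kx
    have h6 : d.e12 = a / b := by
      field_simp; linarith
    apply hn
    rw [h6]
    exact K.div_mem ka kb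
  -- elimination of e32
  have E32 : ∀ a b : ℝ, (∀ K : Subfield ℝ, d.B0 ∈ K → d.A3 ∈ K → d.B2 ∈ K → p3 / q3 ∈ K → a ∈ K ∧ b ∈ K) →
      b ≠ 0 → b * d.e32 = a → False := by
    intro a b hab hb0 he
    obtain ⟨K, hK, hn, k0, kA1, kA2, kA3, kB1, kB2, kB3, k12, k13, k21, k23, k31⟩ := g12 hG
    have kt := htK K k0 kB1 kA2 k21
    have ku := uK hK k0 kB1 kA3 k31 kt hbt h3 hq3
    obtain ⟨ka, kb⟩ := hab K k0 kA3 kB2 ku
    have h6 : d.e32 = a / b := by
      field_simp; linarith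
    apply hn
    rw [h6]
    exact K.div_mem ka kb
  rw [pp_form] at hp2
  rw [fb_form] at hf2
  rcases hinf with h | h
  · -- x3 = 0
    have hz3 : z3 ≠ 0 := by
      rcases hx3 with h' | h'
      · exact absurd h h'
      · exact h'
    rw [h] at hp3
    have h4 : (d.B3 * z3 ^ 2) * (u * (u - w)) = 0 := by linear_combination -hp3
    rcases mul_eq_zero.1 h4 with h5 | h5
    · exact absurd h5 (mul_ne_zero pB3.ne' (pow_ne_zero 2 hz3))
    rcases mul_eq_zero.1 h5 with hu | hu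
    · -- u = 0
      have hw : w ≠ 0 := by
        rcases huw with h' | h'
        · exact absurd hu h'
        · exact h'
      rw [hu] at hp2
      have h6 : (x2 * w ^ 2) * ((d.B0 - d.A1) * x2 - (d.B2 - d.e12) * z2) = 0 := by linear_combination hp2
      rcases mul_eq_zero.1 h6 with h7 | h7
      · exact absurd h7 (mul_ne_zero hx2' (pow_ne_zero 2 hw))
      · apply E12 (d.B2 - (d.B0 - d.A1) * (x2 / z2)) 1 _ one_ne_zero
        · field_simp
          linarith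
        · intro K k0 kA1 kB2 kx
          exact ⟨K.sub_mem kB2 (K.mul_mem (K.sub_mem k0 kA1) kx), K.one_mem⟩
    · -- u = w
      have hu' : u = w := sub_eq_zero.1 hu
      have hw : w ≠ 0 := by
        rcases huw with h' | h'
        · rw [hu'] at h'; exact h'
        · exact h'
      rw [hu'] at hp2
      have h6 : (d.A1 * x2 * w ^ 2) * (z2 - x2) = 0 := by linear_combination hp2
      rcases mul_eq_zero.1 h6 with h7 | h7
      · exact absurd h7 (mul_ne_zero (mul_ne_zero pA1.ne' hx2') (pow_ne_zero 2 hw))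
      · have h8 : z2 = x2 := sub_eq_zero.1 h7
        rw [h8] at hf2
        have h9 : (x2 ^ 2 * (p3 - q3)) * ((d.B2 - d.B0) * (p3 - q3) + (d.e32 - d.A3) * q3) = 0 := by
          linear_combination hf2
        rcases mul_eq_zero.1 h9 with h10 | h10
        · exact absurd h10 (mul_ne_zero (pow_ne_zero 2 hx2') hpq3')
        · apply E32 (d.A3 - (d.B2 - d.B0) * (p3 / q3 - 1)) 1 _ one_ne_zero
          · field_simp
            linarith
          · intro K k0 kA3 kB2 kx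
            exact ⟨K.sub_mem kA3 (K.mul_mem (K.sub_mem kB2 k0) (K.sub_mem kx K.one_mem)), K.one_mem⟩
  · -- z3 = 0
    have hx3' : x3 ≠ 0 := by
      rcases hx3 with h' | h'
      · exact h'
      · exact absurd h h'
    rw [h] at hp3
    have h4 : (x3 ^ 2) * (w * (d.B0 * u - (d.B0 - d.A1) * w)) = 0 := by linear_combination -hp3
    rcases mul_eq_zero.1 h4 with h5 | h5
    · exact absurd h5 (pow_ne_zero 2 hx3')
    rcases mul_eq_zero.1 h5 with hu | hu
    · -- w = 0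
      have hu0 : u ≠ 0 := by
        rcases huw with h' | h'
        · exact h'
        · exact absurd hu h'
      rw [hu] at hp2
      have h6 : (z2 * u ^ 2) * (d.B0 * x2 - d.B2 * z2) = 0 := by linear_combination hp2
      rcases mul_eq_zero.1 h6 with h7 | h7
      · exact absurd h7 (mul_ne_zero hz2' (pow_ne_zero 2 hu0))
      · -- B0 x2 = B2 z2
        have h8 : d.B0 * x2 = d.B2 * z2 := by linarith
        have h9 : (d.B2 * z2 ^ 2 * q3) * (d.A3 * d.B2 * q3 - d.A3 * d.B0 * p3 + d.e32 * d.B0 * (p3 - q3)) = 0 := by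
          have h10 : d.B0 ^ 2 * (q3 * (d.B0 * (p3 - q3) + d.A3 * q3) * x2 ^ 2 -
              (p3 * (d.B0 * (p3 - q3) + d.A3 * q3) + (d.B2 - d.e32) * q3 * (p3 - q3)) * x2 * z2 +
              d.B2 * p3 * (p3 - q3) * z2 ^ 2) = q3 * (d.B0 * (p3 - q3) + d.A3 * q3) * (d.B0 * x2) ^ 2 -
              (p3 * (d.B0 * (p3 - q3) + d.A3 * q3) + (d.B2 - d.e32) * q3 * (p3 - q3)) * (d.B0 * x2) * (d.B0 * z2) +
              d.B2 * p3 * (p3 - q3) * (d.B0 * z2) ^ 2 := by ring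
          rw [hf2, h8] at h10
          linear_combination -h10
        rcases mul_eq_zero.1 h9 with h10 | h10
        · exact absurd h10 (mul_ne_zero (mul_ne_zero pB2.ne' (pow_ne_zero 2 hz2')) hq3)
        · apply E32 (d.A3 * (d.B0 * (p3 / q3) - d.B2)) (d.B0 * (p3 / q3 - 1)) _ _
          · field_simp
            linarith
          · intro K k0 kA3 kB2 kx
            exact ⟨K.mul_mem kA3 (K.sub_mem (K.mul_mem k0 kx) kB2), K.mul_mem k0 (K.sub_mem kx K.one_mem)⟩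
          · refine mul_ne_zero pB0.ne' ?_
            intro h11
            apply hpq3
            field_simp at h11
            linarith
    · -- B0 u = g1 w
      have hw : w ≠ 0 := by
        intro h0
        rw [h0] at hu
        rcases huw with h' | h'
        · apply h'
          have : d.B0 * u = 0 := by linarith
          rcases mul_eq_zero.1 this with h6 | h6
          · exact absurd h6 pB0.ne'
          · exact h6
        · exact h' h0
      have hu' : d.B0 * u = (d.B0 - d.A1) * w := by linarith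
      have h6 : (z2 * d.A1 * w ^ 2) * (d.B2 * z2 * (d.B0 - d.A1) - (d.B2 - d.e12) * x2 * d.B0) = 0 := by
        have h7 : d.B0 ^ 2 * (x2 * (d.B0 * u - (d.B0 - d.A1) * w) * (z2 * u - x2 * w) -
            z2 * (u - w) * (d.B2 * z2 * u - (d.B2 - d.e12) * x2 * w)) =
            d.B0 * x2 * (d.B0 * u - (d.B0 - d.A1) * w) * (z2 * (d.B0 * u) - x2 * d.B0 * w) -
            z2 * (d.B0 * u - d.B0 * w) * (d.B2 * z2 * (d.B0 * u) - (d.B2 - d.e12) * x2 * d.B0 * w) := by ring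
        rw [hp2, hu'] at h7
        linear_combination -h7
      rcases mul_eq_zero.1 h6 with h7 | h7
      · exact absurd h7 (mul_ne_zero (mul_ne_zero hz2' pA1.ne') (pow_ne_zero 2 hw))
      · apply E12 (d.B2 * (x2 / z2) * d.B0 - d.B2 * (d.B0 - d.A1)) ((x2 / z2) * d.B0) _ _
        · field_simp
          linarith
        · intro K k0 kA1 kB2 kx
          exact ⟨K.sub_mem (K.mul_mem (K.mul_mem kB2 kx) k0) (K.mul_mem kB2 (K.sub_mem k0 kA1)), K.mul_mem kx k0⟩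
        · exact mul_ne_zero (div_ne_zero hx2' hz2') pB0.ne'

/-- a finite `a1` -/
theorem a1_fin {B0 A1 B e x z u w : ℝ} (hx : x ≠ 0) (hz : z ≠ 0) (huw : u ≠ w) (hw : w ≠ 0)
    (h : QF (pp B0 (B0 - A1) B (B - e) x z) u w = 0) :
    (u / w - x / z) * (B0 + A1 / (u / w - 1) - B / (x / z)) = e := by
  have h1 : u / w - 1 ≠ 0 := by
    intro h2
    apply huw
    field_simp at h2
    linarith
  have h3 : u - w ≠ 0 := sub_ne_zero.2 huw
  rw [pp_form] at h
  have h4 : u / w - 1 = (u - w) / w := by field_simp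
  rw [h4]
  field_simp
  linear_combination h

theorem a_b1 {B0 B1 A e t p q : ℝ} (ht : t ≠ 0) (hq : q ≠ 0) (hpq : p ≠ q) (h : QF (qa B0 B1 A e t) p q = 0) :
    (p / q - t) * (B0 + A / (p / q - 1) - B1 / t) = e := by
  have h3 : p - q ≠ 0 := sub_ne_zero.2 hpq
  rw [qa_form] at h
  have h4 : p / q - 1 = (p - q) / q := by field_simp
  rw [h4]
  field_simp
  linear_combination -h

theorem a_bk {B0 A B e p q x z : ℝ} (hq : q ≠ 0) (hpq : p ≠ q) (hx : x ≠ 0) (hz : z ≠ 0)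
    (h : QF (fb B0 A B e p q) x z = 0) :
    (p / q - x / z) * (B0 + A / (p / q - 1) - B / (x / z)) = e := by
  have h3 : p - q ≠ 0 := sub_ne_zero.2 hpq
  rw [fb_form] at h
  have h4 : p / q - 1 = (p - q) / q := by field_simp
  rw [h4]
  field_simp
  linear_combination -h

theorem a_b0 {B0 A p q : ℝ} (hq : q ≠ 0) (hpq : p ≠ q) : (p / q - 1) * (B0 + A / (p / q - 1) - B0) = A := by
  have h3 : p - q ≠ 0 := sub_ne_zero.2 hpq
  have h4 : p / q - 1 = (p - q) / q := by field_simp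
  rw [h4]
  field_simp
  ring

end C1

open C1 in
theorem case1 : S_CASE1 := by
  intro d hP hG hS t p2 q2 p3 q3 ht hbt hn2 hn3 h2 h3 hpq2 hpq3 x3 z3 x2 z2 hx3 hx2 hf3 hf2 u w huw hp2 hp3
  have pB0 : 0 < d.B0 := hP 0
  have pA1 : 0 < d.A1 := hP 1
  have pA2 : 0 < d.A2 := hP 2
  have pA3 : 0 < d.A3 := hP 3
  have pB1 : 0 < d.B1 := hP 4
  have pB2 : 0 < d.B2 := hP 5
  have pB3 : 0 < d.B3 := hP 6
  have nA1 : d.A1 ≠ d.B0 := gne hG (j := 1) (k := 0) (by decide)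
  have nA2 : d.A2 ≠ d.B0 := gne hG (j := 2) (k := 0) (by decide)
  have nA3 : d.A3 ≠ d.B0 := gne hG (j := 3) (k := 0) (by decide)
  have nB3 : d.B3 ≠ d.B0 := gne hG (j := 6) (k := 0) (by decide)
  have n23 : d.e23 ≠ d.A2 := gne hG (j := 10) (k := 2) (by decide)
  have hq2 : q2 ≠ 0 := q_ne hbt h2 hn2
  have hq3 : q3 ≠ 0 := q_ne hbt h3 hn3
  by_cases hi3 : x3 = 0 ∨ z3 = 0
  · exact inf3 d hP hG ht hbt hq2 hq3 h2 h3 hpq2 hpq3 hx3 hx2 hf3 hf2 huw hp2 hp3 hi3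
  by_cases hi2 : x2 = 0 ∨ z2 = 0
  · exact inf3 d.swap (swap_pos hP) (swap_gen hG) ht hbt hq3 hq2 h3 h2 hpq3 hpq2 hx2 hx3 hf2 hf3 huw hp3 hp2 hi2
  push Not at hi3 hi2
  obtain ⟨hx3', hz3'⟩ := hi3
  obtain ⟨hx2', hz2'⟩ := hi2
  unfold Len.qa2 at h2
  unfold Len.qa3 at h3
  unfold Len.fb3 at hf3
  unfold Len.fb2 at hf2
  unfold Len.pp2 at hp2
  unfold Len.pp3 at hp3
  have hpq2' : p2 - q2 ≠ 0 := sub_ne_zero.2 hpq2
  have hpq3' : p3 - q3 ≠ 0 := sub_ne_zero.2 hpq3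
  -- elimination of e32
  have E32 : ∀ a b : ℝ, (∀ K : Subfield ℝ, d.B0 ∈ K → d.A2 ∈ K → d.B3 ∈ K → d.e23 ∈ K → p2 / q2 ∈ K) →
      (∀ K : Subfield ℝ, d.B0 ∈ K → d.A3 ∈ K → d.B2 ∈ K → p3 / q3 ∈ K → a ∈ K ∧ b ∈ K) →
      b ≠ 0 → b * d.e32 = a → False := by
    intro a b hu2 hab hb0 he
    obtain ⟨K, hK, hn, k0, kA1, kA2, kA3, kB1, kB2, kB3, k12, k13, k21, k23, k31⟩ := g12 hG
    have ku2 := hu2 K k0 kA2 kB3 k23
    have kt := tK hK k0 kB1 kA2 k21 ku2 hq2 hpq2 pB1.ne' nA2 h2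
    have ku := uK hK k0 kB1 kA3 k31 kt hbt h3 hq3
    obtain ⟨ka, kb⟩ := hab K k0 kA3 kB2 ku
    have h6 : d.e32 = a / b := by
      field_simp; linarith
    apply hn
    rw [h6]
    exact K.div_mem ka kb
  by_cases hw : w = 0
  · -- a1 = (1 : 0)
    have hu0 : u ≠ 0 := by
      rcases huw with h' | h'
      · exact h'
      · exact absurd hw h'
    rw [pp_form, hw] at hp2 hp3
    have e2 : d.B0 * x2 = d.B2 * z2 := by
      have h6 : (z2 * u ^ 2) * (d.B0 * x2 - d.B2 * z2) = 0 := by linear_combination hp2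
      rcases mul_eq_zero.1 h6 with h7 | h7
      · exact absurd h7 (mul_ne_zero hz2' (pow_ne_zero 2 hu0))
      · linarith
    have e3 : d.B0 * x3 = d.B3 * z3 := by
      have h6 : (z3 * u ^ 2) * (d.B0 * x3 - d.B3 * z3) = 0 := by linear_combination hp3
      rcases mul_eq_zero.1 h6 with h7 | h7
      · exact absurd h7 (mul_ne_zero hz3' (pow_ne_zero 2 hu0))
      · linarith
    have key : ∀ A B e p q x z : ℝ, B ≠ 0 → z ≠ 0 → q ≠ 0 → d.B0 * x = B * z → QF (fb d.B0 A B e p q) x z = 0 →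
        A * B * q - A * d.B0 * p + e * d.B0 * (p - q) = 0 := by
      intro A B e p q x z hB hz hq h8 hf
      rw [fb_form] at hf
      have h9 : (B * z ^ 2 * q) * (A * B * q - A * d.B0 * p + e * d.B0 * (p - q)) = 0 := by
        have h10 : d.B0 ^ 2 * (q * (d.B0 * (p - q) + A * q) * x ^ 2 -
            (p * (d.B0 * (p - q) + A * q) + (B - e) * q * (p - q)) * x * z +
            B * p * (p - q) * z ^ 2) = q * (d.B0 * (p - q) + A * q) * (d.B0 * x) ^ 2 -
            (p * (d.B0 * (p - q) + A * q) + (B - e) * q * (p - q)) * (d.B0 * x) * (d.B0 * z) +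
            B * p * (p - q) * (d.B0 * z) ^ 2 := by ring
        rw [hf, h8] at h10
        linear_combination -h10
      rcases mul_eq_zero.1 h9 with h10 | h10
      · exact absurd h10 (mul_ne_zero (mul_ne_zero hB (pow_ne_zero 2 hz)) hq)
      · exact h10
    have f2 := key _ _ _ _ _ _ _ pB2.ne' hz2' hq3 e2 hf2
    have f3 := key _ _ _ _ _ _ _ pB3.ne' hz3' hq2 e3 hf3
    apply E32 (d.A3 * (d.B0 * (p3 / q3) - d.B2)) (d.B0 * (p3 / q3 - 1)) _ _ _ _
    · intro K k0 kA2 kB3 k23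
      have h5 : (d.e23 - d.A2) * d.B0 ≠ 0 := mul_ne_zero (sub_ne_zero.2 n23) pB0.ne'
      have h6 : p2 / q2 = (d.e23 * d.B0 - d.A2 * d.B3) / ((d.e23 - d.A2) * d.B0) := by
        rw [div_eq_div_iff hq2 h5]
        linear_combination f3
      rw [h6]
      exact K.div_mem (K.sub_mem (K.mul_mem k23 k0) (K.mul_mem kA2 kB3)) (K.mul_mem (K.sub_mem k23 kA2) k0)
    · intro K k0 kA3 kB2 kx
      exact ⟨K.mul_mem kA3 (K.sub_mem (K.mul_mem k0 kx) kB2), K.mul_mem k0 (K.sub_mem kx K.one_mem)⟩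
    · refine mul_ne_zero pB0.ne' ?_
      intro h11
      apply hpq3
      field_simp at h11
      linarith
    · field_simp
      linarith
  by_cases hu : u = w
  · rw [pp_form, hu] at hp2 hp3
    have e2 : z2 = x2 := by
      have h6 : (d.A1 * x2 * w ^ 2) * (z2 - x2) = 0 := by linear_combination hp2
      rcases mul_eq_zero.1 h6 with h7 | h7
      · exact absurd h7 (mul_ne_zero (mul_ne_zero pA1.ne' hx2') (pow_ne_zero 2 hw))
      · exact sub_eq_zero.1 h7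
    have e3 : z3 = x3 := by
      have h6 : (d.A1 * x3 * w ^ 2) * (z3 - x3) = 0 := by linear_combination hp3
      rcases mul_eq_zero.1 h6 with h7 | h7
      · exact absurd h7 (mul_ne_zero (mul_ne_zero pA1.ne' hx3') (pow_ne_zero 2 hw))
      · exact sub_eq_zero.1 h7
    have key : ∀ A B e p q x z : ℝ, x ≠ 0 → p - q ≠ 0 → z = x → QF (fb d.B0 A B e p q) x z = 0 →
        (B - d.B0) * (p - q) + (e - A) * q = 0 := by
      intro A B e p q x z hx hpq h8 hf
      rw [fb_form, h8] at hf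
      have h9 : (x ^ 2 * (p - q)) * ((B - d.B0) * (p - q) + (e - A) * q) = 0 := by
        linear_combination hf
      rcases mul_eq_zero.1 h9 with h10 | h10
      · exact absurd h10 (mul_ne_zero (pow_ne_zero 2 hx) hpq)
      · exact h10
    have f2 := key _ _ _ _ _ _ _ hx2' hpq3' e2 hf2
    have f3 := key _ _ _ _ _ _ _ hx3' hpq2' e3 hf3
    apply E32 (d.A3 - (d.B2 - d.B0) * (p3 / q3 - 1)) 1 _ _ one_ne_zero _
    · intro K k0 kA2 kB3 k23
      have h5 : d.B3 - d.B0 ≠ 0 := sub_ne_zero.2 nB3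
      have h6 : p2 / q2 = 1 + (d.A2 - d.e23) / (d.B3 - d.B0) := by
        field_simp
        linarith
      rw [h6]
      exact K.add_mem K.one_mem (K.div_mem (K.sub_mem kA2 k23) (K.sub_mem kB3 k0))
    · intro K k0 kA3 kB2 kx
      exact ⟨K.sub_mem kA3 (K.mul_mem (K.sub_mem kB2 k0) (K.sub_mem kx K.one_mem)), K.one_mem⟩
    · field_simp
      linarith
  -- the finite case: a solution
  apply hS
  refine ⟨u / w, d.B0 + d.A1 / (u / w - 1), p2 / q2, d.B0 + d.A2 / (p2 / q2 - 1), p3 / q3,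
    d.B0 + d.A3 / (p3 / q3 - 1), t, d.B1 / t, x2 / z2, d.B2 / (x2 / z2), x3 / z3, d.B3 / (x3 / z3),
    mul_div_cancel₀ _ ht, mul_div_cancel₀ _ (div_ne_zero hx2' hz2'), mul_div_cancel₀ _ (div_ne_zero hx3' hz3'),
    a_b0 hw hu, a_b0 hq2 hpq2, a_b0 hq3 hpq3, a1_fin hx2' hz2' hu hw hp2, a1_fin hx3' hz3' hu hw hp3,
    a_b1 ht hq2 hpq2 h2, a_bk hq2 hpq2 hx3' hz3' hf3, a_b1 ht hq3 hpq3 h3, a_bk hq3 hpq3 hx2' hz2' hf2⟩

end Pool.Agent.TR23
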