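import Pool.Agent.TR23.L0a

/-!
# Project TR23, Job L0: the parity does not change at `t = 0`
-/

set_option autoImplicit false
set_option linter.all false

open Filter Topology

namespace Pool.Agent.TR23

open C1 (swap_gen swap_pos gne g7 g11 g12)

namespace L0

/-- slope of the branch `J` of `b2` over the branch `O` of `a3` -/
noncomputable def sO2 (d : Len) : ℝ := d.B2 * ((d.B1 - d.e31) / d.B1) / (d.B2 - d.e32)
/-- slope of the branch `J` of `b3` over the branch `O` of `a2` -/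
noncomputable def sO3 (d : Len) : ℝ := d.B3 * ((d.B1 - d.e21) / d.B1) / (d.B3 - d.e23)

lemma sO2_ne {d : Len} (hP : d.Pos) (h : Gen d) : sO2 d ≠ 0 := by
  unfold sO2
  have h1 : d.B2 ≠ 0 := (hP 5).ne'
  have h2 : d.B1 ≠ 0 := (hP 4).ne'
  have h3 : d.B1 - d.e31 ≠ 0 := sub_ne_zero.2 (gne h (j := 4) (k := 11) (by decide))
  have h4 : d.B2 - d.e32 ≠ 0 := sub_ne_zero.2 (gne h (j := 5) (k := 12) (by decide))
  exact div_ne_zero (mul_ne_zero h1 (div_ne_zero h3 h2)) h4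

lemma sO3_ne {d : Len} (hP : d.Pos) (h : Gen d) : sO3 d ≠ 0 := by
  unfold sO3
  have h1 : d.B3 ≠ 0 := (hP 6).ne'
  have h2 : d.B1 ≠ 0 := (hP 4).ne'
  have h3 : d.B1 - d.e21 ≠ 0 := sub_ne_zero.2 (gne h (j := 4) (k := 9) (by decide))
  have h4 : d.B3 - d.e23 ≠ 0 := sub_ne_zero.2 (gne h (j := 6) (k := 10) (by decide))
  exact div_ne_zero (mul_ne_zero h1 (div_ne_zero h3 h2)) h4

/-- the first factor of the constant of `JJ`: `e13` is fresh -/
lemma fac1 {d : Len} (hP : d.Pos) (h : Gen d) {ξ2 ξ3 : ℝ} (h3 : ξ3 ≠ 0)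
    (hK : ∀ K : Subfield ℝ, d.B0 ∈ K → d.A1 ∈ K → d.A2 ∈ K → d.A3 ∈ K → d.B1 ∈ K → d.B2 ∈ K → d.B3 ∈ K →
      d.e21 ∈ K → d.e23 ∈ K → d.e31 ∈ K → d.e32 ∈ K → ξ2 ∈ K ∧ ξ3 ∈ K) :
    d.B2 * (d.B3 - d.e13) * ξ3 - d.B3 * (d.B2 - d.e12) * ξ2 ≠ 0 := by
  intro e
  obtain ⟨K, hQ, hn, b0, a1, a2, a3, b1, b2, b3, m12, m21, m23, m31, m32⟩ := g8 h
  obtain ⟨k2, k3⟩ := hK K b0 a1 a2 a3 b1 b2 b3 m21 m23 m31 m32
  have hB2 : d.B2 ≠ 0 := (hP 5).ne'
  apply hn
  have : d.e13 = d.B3 - d.B3 * (d.B2 - d.e12) * ξ2 / (d.B2 * ξ3) := by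
    field_simp
    linear_combination -e
  rw [this]
  (repeat' (first | assumption | exact one_mem _ | exact zero_mem _ | apply ofNat_mem | apply add_mem | apply sub_mem | apply mul_mem | apply div_mem | apply neg_mem | apply pow_mem | apply inv_mem))

lemma blockOO (lr : S_LR) (top4 : S_TOP4) {d : Len} (hP : d.Pos) (h : Gen d) {x3J x3F x2J x2F : ℝ → ℝ}
    (h3J : Ord x3J 1 (sO3 d)) (h3F : Tendsto x3F (𝓝[≠] (0 : ℝ)) (𝓝 (f3 d)))
    (h2J : Ord x2J 1 (sO2 d)) (h2F : Tendsto x2F (𝓝[≠] (0 : ℝ)) (𝓝 (f2 d))) :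
    Same (Ng d x2J x3J) ∧ Same (Ng d x2F x3J) ∧ Same (Ng d x2J x3F) ∧ Same (Ng d x2F x3F) := by
  refine ⟨?_, same_of_NC top4 d h2F (ord_tendsto h3J) (ncFJ hP h),
    same_of_NC top4 d (ord_tendsto h2J) h3F (ncJF hP h), same_of_NC top4 d h2F h3F (ncFF hP h)⟩
  refine ord_even ((lr d x2J x3J).1 _ _ h2J h3J) ?_ (by decide)
  have hB1 : d.B1 ≠ 0 := (hP 4).ne'
  have hB2 : d.B2 ≠ 0 := (hP 5).ne'
  have hB3 : d.B3 ≠ 0 := (hP 6).ne'
  have h4 : d.B2 - d.e32 ≠ 0 := sub_ne_zero.2 (gne h (j := 5) (k := 12) (by decide))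
  have h5 : d.B3 - d.e23 ≠ 0 := sub_ne_zero.2 (gne h (j := 6) (k := 10) (by decide))
  refine mul_ne_zero (mul_ne_zero (neg_ne_zero.2 (hP 1).ne') ?_) ?_
  · refine fac1 hP h (sO3_ne hP h) fun K b0 a1 a2 a3 b1 b2 b3 m21 m23 m31 m32 => ?_
    unfold sO2 sO3
    constructor <;> (repeat' (first | assumption | exact one_mem _ | exact zero_mem _ | apply ofNat_mem | apply add_mem | apply sub_mem | apply mul_mem | apply div_mem | apply neg_mem | apply pow_mem | apply inv_mem))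
  · intro e
    obtain ⟨K, hQ, hn, b0, a1, a2, a3, b1, b2, b3, m12, m13, m23, m31, m32⟩ := g9 h
    apply hn
    have e' : (d.B1 - d.e21) * (d.B2 - d.e32) - (d.B3 - d.e23) * (d.B1 - d.e31) = 0 := by
      unfold sO2 sO3 at e
      field_simp at e
      apply mul_left_cancel₀ (mul_ne_zero hB2 hB3)
      linear_combination e
    have : d.e21 = d.B1 - (d.B1 - d.e31) * (d.B3 - d.e23) / (d.B2 - d.e32) := by
      field_simp
      linear_combination -e'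
    rw [this]
    (repeat' (first | assumption | exact one_mem _ | exact zero_mem _ | apply ofNat_mem | apply add_mem | apply sub_mem | apply mul_mem | apply div_mem | apply neg_mem | apply pow_mem | apply inv_mem))

lemma blockQO (lr : S_LR) (top4 : S_TOP4) {d : Len} (hP : d.Pos) (h : Gen d) {x3J x3N x2J x2F : ℝ → ℝ}
    (h3J : Ord x3J 1 (d.B3 * (d.A2 / d.B1) / d.A2))
    (h3N : Ord (fun τ => x3N τ - 1) 1 ((d.A2 - d.e23) * (d.A2 / d.B1) / d.A2))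
    (h2J : Ord x2J 1 (sO2 d)) (h2F : Tendsto x2F (𝓝[≠] (0 : ℝ)) (𝓝 (f2 d))) :
    Same (Ng d x2J x3J) ∧ Same (Ng d x2F x3J) ∧ Flip (Ng d x2J x3N) ∧ Same (Ng d x2F x3N) := by
  have hA2 : d.A2 ≠ 0 := (hP 2).ne'
  have hB1 : d.B1 ≠ 0 := (hP 4).ne'
  have hB2 : d.B2 ≠ 0 := (hP 5).ne'
  have hB3 : d.B3 ≠ 0 := (hP 6).ne'
  have h4 : d.B2 - d.e32 ≠ 0 := sub_ne_zero.2 (gne h (j := 5) (k := 12) (by decide))
  refine ⟨?_, same_of_NC top4 d h2F (ord_tendsto h3J) (ncFJ hP h), ?_,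
    same_of_NC top4 d h2F (ord_tendsto1 h3N) (ncFN hP h)⟩
  · refine ord_even ((lr d x2J x3J).1 _ _ h2J h3J) ?_ (by decide)
    refine mul_ne_zero (mul_ne_zero (neg_ne_zero.2 (hP 1).ne') ?_) ?_
    · refine fac1 hP h (div_ne_zero (mul_ne_zero hB3 (div_ne_zero hA2 hB1)) hA2) fun K b0 a1 a2 a3 b1 b2 b3 m21 m23 m31 m32 => ?_
      unfold sO2
      constructor <;> (repeat' (first | assumption | exact one_mem _ | exact zero_mem _ | apply ofNat_mem | apply add_mem | apply sub_mem | apply mul_mem | apply div_mem | apply neg_mem | apply pow_mem | apply inv_mem))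
    · intro e
      obtain ⟨K, hQ, hn, b0, a1, a2, a3, b1, b2, b3, m12, m13, m21, m23, m32⟩ := g11 h
      apply hn
      have e' : (d.B2 - d.e32) - (d.B1 - d.e31) = 0 := by
        unfold sO2 at e
        field_simp at e
        apply mul_left_cancel₀ (mul_ne_zero hB2 hB3)
        linear_combination e
      have : d.e31 = d.B1 - (d.B2 - d.e32) := by
        linear_combination e'
      rw [this]
      (repeat' (first | assumption | exact one_mem _ | exact zero_mem _ | apply ofNat_mem | apply add_mem | apply sub_mem | apply mul_mem | apply div_mem | apply neg_mem | apply pow_mem | apply inv_mem))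
  · refine ord_odd ((lr d x2J x3N).2.2.1 _ _ h2J h3N) ?_ (by decide)
    refine mul_ne_zero (mul_ne_zero (mul_ne_zero (neg_ne_zero.2 (hP 1).ne') hB2) ?_) ?_
    · intro e
      obtain ⟨K, hQ, hn, b0, a1, a2, a3, b1, b2, b3, m12, m21, m23, m31, m32⟩ := g8 h
      apply hn
      have : d.e13 = d.B3 - (d.B0 - d.A1) := by linarith
      rw [this]
      (repeat' (first | assumption | exact one_mem _ | exact zero_mem _ | apply ofNat_mem | apply add_mem | apply sub_mem | apply mul_mem | apply div_mem | apply neg_mem | apply pow_mem | apply inv_mem))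
    · intro e
      obtain ⟨K, hQ, hn, b0, a1, a2, a3, b1, b2, b3, m12, m13, m21, m31, m32⟩ := g10 h
      apply hn
      have hs : sO2 d ∈ K := by
        unfold sO2
        (repeat' (first | assumption | exact one_mem _ | exact zero_mem _ | apply ofNat_mem | apply add_mem | apply sub_mem | apply mul_mem | apply div_mem | apply neg_mem | apply pow_mem | apply inv_mem))
      have : d.e23 = d.A2 + (d.e13 - d.A1) * sO2 d * d.B1 / d.B2 := by
        field_simp at e ⊢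
        linear_combination -e
      rw [this]
      (repeat' (first | assumption | exact one_mem _ | exact zero_mem _ | apply ofNat_mem | apply add_mem | apply sub_mem | apply mul_mem | apply div_mem | apply neg_mem | apply pow_mem | apply inv_mem))

lemma blockQQ (lr : S_LR) {d : Len} (hP : d.Pos) (h : Gen d) {x3J x3N x2J x2N : ℝ → ℝ}
    (h3J : Ord x3J 1 (d.B3 * (d.A2 / d.B1) / d.A2))
    (h3N : Ord (fun τ => x3N τ - 1) 1 ((d.A2 - d.e23) * (d.A2 / d.B1) / d.A2))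
    (h2J : Ord x2J 1 (d.B2 * (d.A3 / d.B1) / d.A3))
    (h2N : Ord (fun τ => x2N τ - 1) 1 ((d.A3 - d.e32) * (d.A3 / d.B1) / d.A3))
    (hk : Ord (fun τ => d.B2 * x3J τ - d.B3 * x2J τ) 2
      ((d.B2 * (d.A3 / d.B1) / d.A3) * (d.B3 * (d.A2 / d.B1) / d.A2) * (d.e31 - d.e32 - d.e21 + d.e23))) :
    Flip (Ng d x2J x3J) ∧ Flip (Ng d x2N x3J) ∧ Flip (Ng d x2J x3N) ∧ Flip (Ng d x2N x3N) := by
  have hA1 : d.A1 ≠ 0 := (hP 1).ne'
  have hA2 : d.A2 ≠ 0 := (hP 2).ne'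
  have hA3 : d.A3 ≠ 0 := (hP 3).ne'
  have hB1 : d.B1 ≠ 0 := (hP 4).ne'
  have hB2 : d.B2 ≠ 0 := (hP 5).ne'
  have hB3 : d.B3 ≠ 0 := (hP 6).ne'
  have s3 : d.B3 * (d.A2 / d.B1) / d.A2 = d.B3 / d.B1 := by field_simp
  have s2 : d.B2 * (d.A3 / d.B1) / d.A3 = d.B2 / d.B1 := by field_simp
  have t3 : (d.A2 - d.e23) * (d.A2 / d.B1) / d.A2 = (d.A2 - d.e23) / d.B1 := by field_simp
  have t2 : (d.A3 - d.e32) * (d.A3 / d.B1) / d.A3 = (d.A3 - d.e32) / d.B1 := by field_simp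
  rw [s3] at h3J hk
  rw [s2] at h2J hk
  rw [t3] at h3N
  rw [t2] at h2N
  have g23 : (d.B2 - d.e12) - (d.B3 - d.e13) ≠ 0 := by
    intro e
    obtain ⟨K, hQ, hn, b0, a1, a2, a3, b1, b2, b3, m13, m21, m23, m31, m32⟩ := g7 h
    apply hn
    have : d.e12 = d.B2 - (d.B3 - d.e13) := by linarith
    rw [this]
    (repeat' (first | assumption | exact one_mem _ | exact zero_mem _ | apply ofNat_mem | apply add_mem | apply sub_mem | apply mul_mem | apply div_mem | apply neg_mem | apply pow_mem | apply inv_mem))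
  have g13 : (d.B0 - d.A1) - (d.B3 - d.e13) ≠ 0 := by
    intro e
    obtain ⟨K, hQ, hn, b0, a1, a2, a3, b1, b2, b3, m12, m21, m23, m31, m32⟩ := g8 h
    apply hn
    have : d.e13 = d.B3 - (d.B0 - d.A1) := by linarith
    rw [this]
    (repeat' (first | assumption | exact one_mem _ | exact zero_mem _ | apply ofNat_mem | apply add_mem | apply sub_mem | apply mul_mem | apply div_mem | apply neg_mem | apply pow_mem | apply inv_mem))
  have g12' : (d.B0 - d.A1) - (d.B2 - d.e12) ≠ 0 := by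
    intro e
    obtain ⟨K, hQ, hn, b0, a1, a2, a3, b1, b2, b3, m13, m21, m23, m31, m32⟩ := g7 h
    apply hn
    have : d.e12 = d.B2 - (d.B0 - d.A1) := by linarith
    rw [this]
    (repeat' (first | assumption | exact one_mem _ | exact zero_mem _ | apply ofNat_mem | apply add_mem | apply sub_mem | apply mul_mem | apply div_mem | apply neg_mem | apply pow_mem | apply inv_mem))
  refine ⟨?_, ?_, ?_, ?_⟩
  · refine ord_odd ((lr d x2J x3J).2.1 _ _ _ h2J h3J hk d.B1 hB1 rfl rfl) ?_ (by decide)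
    refine mul_ne_zero (mul_ne_zero (mul_ne_zero (mul_ne_zero (mul_ne_zero (neg_ne_zero.2 hA1)
      (pow_ne_zero 2 (div_ne_zero hB2 hB1))) (pow_ne_zero 2 (div_ne_zero hB3 hB1))) hB1) g23) ?_
    intro e
    obtain ⟨K, hQ, hn, b0, a1, a2, a3, b1, b2, b3, m13, m21, m23, m31, m32⟩ := g7 h
    apply hn
    have : d.e12 = d.e13 - (d.e31 - d.e32 - d.e21 + d.e23) := by linarith
    rw [this]
    (repeat' (first | assumption | exact one_mem _ | exact zero_mem _ | apply ofNat_mem | apply add_mem | apply sub_mem | apply mul_mem | apply div_mem | apply neg_mem | apply pow_mem | apply inv_mem))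
  · refine ord_odd ((lr d x2N x3J).2.2.2.1 _ _ h2N h3J) ?_ (by decide)
    refine mul_ne_zero (mul_ne_zero (mul_ne_zero (neg_ne_zero.2 hA1) hB3) g12') ?_
    intro e
    obtain ⟨K, hQ, hn, b0, a1, a2, a3, b1, b2, b3, m12, m13, m21, m23, m31⟩ := g12 h
    apply hn
    have : d.e32 = d.A3 + (d.e12 - d.A1) := by
      field_simp at e
      have e2 : d.B3 * (d.e12 - d.A1 + (d.A3 - d.e32)) = 0 := by linear_combination e
      rcases mul_eq_zero.1 e2 with h0 | h0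
      · exact absurd h0 hB3
      · linarith
    rw [this]
    (repeat' (first | assumption | exact one_mem _ | exact zero_mem _ | apply ofNat_mem | apply add_mem | apply sub_mem | apply mul_mem | apply div_mem | apply neg_mem | apply pow_mem | apply inv_mem))
  · refine ord_odd ((lr d x2J x3N).2.2.1 _ _ h2J h3N) ?_ (by decide)
    refine mul_ne_zero (mul_ne_zero (mul_ne_zero (neg_ne_zero.2 hA1) hB2) g13) ?_
    intro e
    obtain ⟨K, hQ, hn, b0, a1, a2, a3, b1, b2, b3, m12, m13, m21, m31, m32⟩ := g10 h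
    apply hn
    have : d.e23 = d.A2 + (d.e13 - d.A1) := by
      field_simp at e
      have e2 : d.B2 * (d.e13 - d.A1 + (d.A2 - d.e23)) = 0 := by linear_combination e
      rcases mul_eq_zero.1 e2 with h0 | h0
      · exact absurd h0 hB2
      · linarith
    rw [this]
    (repeat' (first | assumption | exact one_mem _ | exact zero_mem _ | apply ofNat_mem | apply add_mem | apply sub_mem | apply mul_mem | apply div_mem | apply neg_mem | apply pow_mem | apply inv_mem))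
  · refine ord_odd ((lr d x2N x3N).2.2.2.2 _ _ h2N h3N) ?_ (by decide)
    refine mul_ne_zero (mul_ne_zero (neg_ne_zero.2 hA1) ?_) ?_
    · intro e
      obtain ⟨K, hQ, hn, b0, a1, a2, a3, b1, b2, b3, m13, m21, m23, m31, m32⟩ := g7 h
      apply hn
      have hb : d.B3 - d.B0 ≠ 0 := sub_ne_zero.2 (gne h (j := 6) (k := 0) (by decide))
      have : d.e12 = d.B2 - (-(d.B2 * ((d.B0 - d.A1) - (d.B3 - d.e13)) - d.B3 * (d.B0 - d.A1) +
          d.B0 * (d.B3 - d.e13))) / (d.B3 - d.B0) := by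
        field_simp
        linear_combination -e
      rw [this]
      (repeat' (first | assumption | exact one_mem _ | exact zero_mem _ | apply ofNat_mem | apply add_mem | apply sub_mem | apply mul_mem | apply div_mem | apply neg_mem | apply pow_mem | apply inv_mem))
    · intro e
      obtain ⟨K, hQ, hn, b0, a1, a2, a3, b1, b2, b3, m12, m13, m21, m31, m32⟩ := g10 h
      apply hn
      have ha : d.A1 - d.e12 ≠ 0 := sub_ne_zero.2 (gne h (j := 1) (k := 7) (by decide))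
      have : d.e23 = d.A2 - (d.A1 - d.e13) * (d.A3 - d.e32) / (d.A1 - d.e12) := by
        field_simp at e ⊢
        linear_combination e
      rw [this]
      (repeat' (first | assumption | exact one_mem _ | exact zero_mem _ | apply ofNat_mem | apply add_mem | apply sub_mem | apply mul_mem | apply div_mem | apply neg_mem | apply pow_mem | apply inv_mem))

lemma tendsto_sub_ne {u x : ℝ → ℝ} {a b : ℝ} (hu : Tendsto u (𝓝[≠] (0 : ℝ)) (𝓝 a))
    (hx : Tendsto x (𝓝[≠] (0 : ℝ)) (𝓝 b)) (hab : a - b ≠ 0) : ∀ᶠ τ in 𝓝[≠] (0 : ℝ), u τ - x τ ≠ 0 :=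
  (hu.sub hx).eventually_ne hab

lemma kap {d : Len} {u2 u3 x3 x2 : ℝ → ℝ} {ξ2 ξ3 : ℝ} (hu2 : Tendsto u2 (𝓝[≠] (0 : ℝ)) (𝓝 1))
    (hu3 : Tendsto u3 (𝓝[≠] (0 : ℝ)) (𝓝 1)) (h3 : Ord x3 1 ξ3) (h2 : Ord x2 1 ξ2)
    (a2 : ∀ᶠ t in 𝓝[≠] (0 : ℝ), (u2 t - t) * ((d.B0 + d.A2 / (u2 t - 1)) - d.B1 / t) = d.e21)
    (a3 : ∀ᶠ t in 𝓝[≠] (0 : ℝ), (u3 t - t) * ((d.B0 + d.A3 / (u3 t - 1)) - d.B1 / t) = d.e31)
    (c3 : ∀ᶠ t in 𝓝[≠] (0 : ℝ), x3 t ≠ 0 ∧ (u2 t - x3 t) * ((d.B0 + d.A2 / (u2 t - 1)) - d.B3 / x3 t) = d.e23)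
    (c2 : ∀ᶠ t in 𝓝[≠] (0 : ℝ), x2 t ≠ 0 ∧ (u3 t - x2 t) * ((d.B0 + d.A3 / (u3 t - 1)) - d.B2 / x2 t) = d.e32) :
    Ord (fun τ => d.B2 * x3 τ - d.B3 * x2 τ) 2 (ξ2 * ξ3 * (d.e31 - d.e32 - d.e21 + d.e23)) := by
  have o : (1 : ℝ) - 0 ≠ 0 := by norm_num
  have k2 := tendsto_sub_ne hu2 LRx.t0 o
  have k3 := tendsto_sub_ne hu3 LRx.t0 o
  have l3 := tendsto_sub_ne hu2 (ord_tendsto h3) o
  have l2 := tendsto_sub_ne hu3 (ord_tendsto h2) o
  have t1 := (tendsto_const_nhds (x := d.e31)).div (hu3.sub LRx.t0) o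
  have t2 := (tendsto_const_nhds (x := d.e32)).div (hu3.sub (ord_tendsto h2)) o
  have t3 := (tendsto_const_nhds (x := d.e21)).div (hu2.sub LRx.t0) o
  have t4 := (tendsto_const_nhds (x := d.e23)).div (hu2.sub (ord_tendsto h3)) o
  have T := ((LRx.ord1 h2).mul (LRx.ord1 h3)).mul (((t1.sub t2).sub t3).add t4)
  have e : ξ2 * ξ3 * (d.e31 / (1 - 0) - d.e32 / (1 - 0) - d.e21 / (1 - 0) + d.e23 / (1 - 0)) =
      ξ2 * ξ3 * (d.e31 - d.e32 - d.e21 + d.e23) := by norm_num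
  rw [e] at T
  unfold Ord
  refine T.congr' ?_
  filter_upwards [a2, a3, c3, c2, k2, k3, l3, l2, self_mem_nhdsWithin] with τ a2 a3 c3 c2 k2 k3 l3 l2 hτ
  have hτ : τ ≠ 0 := hτ
  obtain ⟨n3, c3⟩ := c3
  obtain ⟨n2, c2⟩ := c2
  obtain ⟨v2, hv2⟩ : ∃ v2, v2 = d.B0 + d.A2 / (u2 τ - 1) := ⟨_, rfl⟩
  obtain ⟨v3, hv3⟩ : ∃ v3, v3 = d.B0 + d.A3 / (u3 τ - 1) := ⟨_, rfl⟩
  rw [← hv2] at a2 c3
  rw [← hv3] at a3 c2
  have q1 : d.e31 / (u3 τ - τ) = v3 - d.B1 / τ := by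
    rw [← a3]; field_simp
  have q2 : d.e32 / (u3 τ - x2 τ) = v3 - d.B2 / x2 τ := by
    rw [← c2]; field_simp
  have q3 : d.e21 / (u2 τ - τ) = v2 - d.B1 / τ := by
    rw [← a2]; field_simp
  have q4 : d.e23 / (u2 τ - x3 τ) = v2 - d.B3 / x3 τ := by
    rw [← c3]; field_simp
  simp only [Pi.div_apply, Pi.sub_apply] at *
  rw [q1, q2, q3, q4]
  field_simp
  ring

end L0

/-- **Job L0.** -/
theorem l0 (la : S_LA) (lb : S_LB) (lr : S_LR) (top4 : S_TOP4) : S_L0 := by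
  intro d hP h
  have hB0 : 0 < d.B0 := hP 0
  have hA1 : 0 < d.A1 := hP 1
  have hA2 : 0 < d.A2 := hP 2
  have hA3 : 0 < d.A3 := hP 3
  have hB1 : 0 < d.B1 := hP 4
  have hB2 : 0 < d.B2 := hP 5
  have hB3 : 0 < d.B3 := hP 6
  have h21 : 0 < d.e21 := hP 9
  have h23 : 0 < d.e23 := hP 10
  have h31 : 0 < d.e31 := hP 11
  have h32 : 0 < d.e32 := hP 12
  have nB1e21 : d.B1 ≠ d.e21 := gne h (j := 4) (k := 9) (by decide)
  have nB1e31 : d.B1 ≠ d.e31 := gne h (j := 4) (k := 11) (by decide)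
  have nA2e21 : d.A2 ≠ d.e21 := gne h (j := 2) (k := 9) (by decide)
  have nA3e31 : d.A3 ≠ d.e31 := gne h (j := 3) (k := 11) (by decide)
  have nA2e23 : d.A2 ≠ d.e23 := gne h (j := 2) (k := 10) (by decide)
  have nA3e32 : d.A3 ≠ d.e32 := gne h (j := 3) (k := 12) (by decide)
  have nB3e23 : d.B3 ≠ d.e23 := gne h (j := 6) (k := 10) (by decide)
  have nB2e32 : d.B2 ≠ d.e32 := gne h (j := 5) (k := 12) (by decide)
  have nB1B0 : d.B1 ≠ d.B0 := gne h (j := 4) (k := 0) (by decide)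
  have nA2B0 : d.A2 ≠ d.B0 := gne h (j := 2) (k := 0) (by decide)
  have nA3B0 : d.A3 ≠ d.B0 := gne h (j := 3) (k := 0) (by decide)
  obtain ⟨⟨uO2, uQ2, r2, o2, q2, ad2⟩, -⟩ := la d.B0 d.B1 d.A2 d.e21 hB0 hB1 hA2 h21 nB1e21 nA2e21 nB1B0
    (by intro e; apply nA2e21; linarith)
  obtain ⟨⟨uO3, uQ3, r3, o3, q3, ad3⟩, -⟩ := la d.B0 d.B1 d.A3 d.e31 hB0 hB1 hA3 h31 nB1e31 nA3e31 nB1B0
    (by intro e; apply nA3e31; linarith)
  obtain ⟨lbQ3, lbO3⟩ := lb d.B0 d.A2 d.B3 d.e23 hB0 hA2 hB3 h23 nA2e23 nB3e23 nA2B0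
  obtain ⟨lbQ2, lbO2⟩ := lb d.B0 d.A3 d.B2 d.e32 hB0 hA3 hB2 h32 nA3e32 nB2e32 nA3B0
  obtain ⟨xJ3, xN3, R3, J3, N3', adJ3⟩ := lbQ3 uQ2 _ (div_ne_zero hA2.ne' hB1.ne') q2
  obtain ⟨xJ2, xN2, R2, J2, N2', adJ2⟩ := lbQ2 uQ3 _ (div_ne_zero hA3.ne' hB1.ne') q3
  obtain ⟨yJ3, yF3, S3, K3, F3⟩ := lbO3 uO2 _ (div_ne_zero (sub_ne_zero.2 nB1e21) hB1.ne') o2
  obtain ⟨yJ2, yF2, S2, K2, F2⟩ := lbO2 uO3 _ (div_ne_zero (sub_ne_zero.2 nB1e31) hB1.ne') o3
  -- the four pairs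
  have bOO := L0.blockOO lr top4 hP h (x3J := yJ3) (x3F := yF3) (x2J := yJ2) (x2F := yF2) K3 F3 K2 F2
  have bQO := L0.blockQO lr top4 hP h (x3J := xJ3) (x3N := xN3) (x2J := yJ2) (x2F := yF2) J3 N3' K2 F2
  have bOQ := L0.blockQO lr top4 (swap_pos hP) (swap_gen h) (x3J := xJ2) (x3N := xN2) (x2J := yJ3) (x2F := yF3)
    J2 N2' K3 F3
  have bQQ := L0.blockQQ lr hP h (x3J := xJ3) (x3N := xN3) (x2J := xJ2) (x2N := xN2) J3 N3' J2 N2'
    (L0.kap (ord_tendsto1 q2) (ord_tendsto1 q3) J3 J2 (ad2.mono fun _ h => h.1) (ad3.mono fun _ h => h.1) adJ3 adJ2)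
  have hOO : Same fun τ => N2 d (uO2 τ) 1 (uO3 τ) 1 :=
    ((bOO.1.xor bOO.2.1).xor (bOO.2.2.1.xor bOO.2.2.2)).congr (N2_xor d (u2 := uO2) (u3 := uO3) S3 S2)
  have hQO : Flip fun τ => N2 d (uQ2 τ) 1 (uO3 τ) 1 :=
    ((bQO.1.xor bQO.2.1).xorF (bQO.2.2.1.xorS bQO.2.2.2)).congr (N2_xor d (u2 := uQ2) (u3 := uO3) R3 S2)
  have sw : ∀ {a b : ℝ → ℝ}, ∀ᶠ τ in 𝓝[≠] (0 : ℝ), (Ng d b a τ ↔ Ng d.swap a b τ) := fun {a b} =>
    Eventually.of_forall fun τ => (Ng_swap d b a τ).symm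
  have hOQ : Flip fun τ => N2 d (uO2 τ) 1 (uQ3 τ) 1 :=
    (((bOQ.1.congr sw).xorF (bOQ.2.2.1.congr sw)).xorS ((bOQ.2.1.congr sw).xor (bOQ.2.2.2.congr sw))).congr
      (N2_xor d (u2 := uO2) (u3 := uQ3) S3 R2)
  have hQQ : Same fun τ => N2 d (uQ2 τ) 1 (uQ3 τ) 1 :=
    ((bQQ.1.xor bQQ.2.1).xor (bQQ.2.2.1.xor bQQ.2.2.2)).congr (N2_xor d (u2 := uQ2) (u3 := uQ3) R3 R2)
  have hN : Same fun τ => N0 d (0 + τ) := by
    refine ((hOO.xorF hOQ).xor (hQO.xorS hQQ)).congr (N0_xor d (t₀ := 0) (u2 := uO2) (u2' := uQ2) (u3 := uO3)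
      (u3' := uQ3) ?_ ?_)
    · have e : (fun τ => d.qa2 (0 + τ)) = fun t => qa d.B0 d.B1 d.A2 d.e21 t := by
        funext τ
        rw [zero_add]
        rfl
      rw [e]
      exact r2
    · have e : (fun τ => d.qa3 (0 + τ)) = fun t => qa d.B0 d.B1 d.A3 d.e31 t := by
        funext τ
        rw [zero_add]
        rfl
      rw [e]
      exact r3
  simpa only [Same, zero_add] using hN

end Pool.Agent.TR23
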