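import Pool.Agent.TR23.Base

/-!
# Project TR23, job L1 (helper83): the parity changes at `t = 1`
-/

set_option autoImplicit false
set_option linter.all false

open Filter Topology

namespace Pool.Agent.TR23

lemma both_sides {p : ℝ → Prop} (h : ∀ᶠ τ in 𝓝[≠] (0 : ℝ), p τ) :
    ∀ᶠ ε in 𝓝[>] (0 : ℝ), p ε ∧ p (-ε) := by
  have t1 : Tendsto (fun ε : ℝ => ε) (𝓝[>] (0 : ℝ)) (𝓝[≠] 0) :=
    tendsto_id.mono_right (nhdsWithin_mono _ fun x hx => ne_of_gt hx)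
  have t2 : Tendsto (fun ε : ℝ => -ε) (𝓝[>] (0 : ℝ)) (𝓝[≠] 0) := by
    refine tendsto_nhdsWithin_iff.2 ⟨?_, ?_⟩
    · have : Tendsto (fun ε : ℝ => -ε) (𝓝 (0 : ℝ)) (𝓝 (-0)) := continuous_neg.tendsto 0
      rw [neg_zero] at this
      exact this.mono_left nhdsWithin_le_nhds
    · filter_upwards [self_mem_nhdsWithin] with ε hε
      have : (0 : ℝ) < ε := hε
      simp only [Set.mem_compl_iff, Set.mem_singleton_iff, neg_eq_zero]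
      exact this.ne'
  exact (t1.eventually h).and (t2.eventually h)

lemma Ord.tendsto_zero {f : ℝ → ℝ} {a L : ℝ} (h : Ord (fun τ => f τ - a) 1 L) :
    Tendsto f (𝓝[≠] (0 : ℝ)) (𝓝 a) := by
  have h1 : Tendsto (fun τ : ℝ => τ) (𝓝[≠] (0 : ℝ)) (𝓝 0) :=
    tendsto_id.mono_left nhdsWithin_le_nhds
  have h2 := (h.mul h1).add_const a
  rw [mul_zero, zero_add] at h2
  refine h2.congr' ?_
  filter_upwards [self_mem_nhdsWithin] with τ hτ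
  have : τ ≠ 0 := hτ
  rw [pow_one]
  field_simp
  ring

lemma gen_ne {d : Len} (h : Gen d) {i j : Fin 13} (hij : i ≠ j) : d.vec i ≠ d.vec j := by
  intro h1
  obtain ⟨K, -, h2, h3⟩ := h i
  exact h3 (h1 ▸ h2 j hij.symm)

/-- the parity on a pair of branches near the limit positions -/
lemma N2_const (hT : S_TOP2) {d : Len} (hd : d.Pos) (hA2 : d.A2 ≠ d.B0) (hA3 : d.A3 ≠ d.B0) {l2 l3 : ℝ}
    (hG : G2 d l2 1 l3 1) {f g : ℝ → ℝ} (hf : Tendsto f (𝓝[≠] (0 : ℝ)) (𝓝 l2))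
    (hg : Tendsto g (𝓝[≠] (0 : ℝ)) (𝓝 l3)) :
    ∀ᶠ ε in 𝓝[>] (0 : ℝ), (N2 d (f (-ε)) 1 (g (-ε)) 1 ↔ N2 d (f ε) 1 (g ε) 1) := by
  have h1 := hT d hd hA2 hA3 l2 1 l3 1 (Or.inr one_ne_zero) (Or.inr one_ne_zero) hG
  have h2 : Tendsto (fun τ => ((f τ, (1 : ℝ)), (g τ, (1 : ℝ)))) (𝓝[≠] (0 : ℝ))
      (𝓝 ((l2, (1 : ℝ)), (l3, (1 : ℝ)))) :=
    (hf.prodMk_nhds tendsto_const_nhds).prodMk_nhds (hg.prodMk_nhds tendsto_const_nhds)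
  filter_upwards [both_sides (h2.eventually h1)] with ε ⟨h3, h4⟩
  exact h4.trans h3.symm

/-- the truth table of the last step -/
lemma xor_QQ {a b c e a' b' c' e' : Prop} (h1 : a' ↔ a) (h2 : b' ↔ ¬ b) (h3 : c' ↔ ¬ c) (h4 : e' ↔ ¬ e) :
    (Xor' (Xor' a' b') (Xor' c' e') ↔ ¬ Xor' (Xor' a b) (Xor' c e)) := by
  by_cases ha : a <;> by_cases hb : b <;> by_cases hc : c <;> by_cases he : e <;>
    simp [Xor', Xor, h1, h2, h3, h4, ha, hb, hc, he]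

lemma xor_top {a b c e a' b' c' e' : Prop} (h1 : a' ↔ a) (h2 : b' ↔ b) (h3 : c' ↔ c) (h4 : e' ↔ ¬ e) :
    (Xor' (Xor' a' b') (Xor' c' e') ↔ ¬ Xor' (Xor' a b) (Xor' c e)) := by
  by_cases ha : a <;> by_cases hb : b <;> by_cases hc : c <;> by_cases he : e <;>
    simp [Xor', Xor, h1, h2, h3, h4, ha, hb, hc, he]

/-- `c` has the two distinct roots `r`, `r'` -/
def RT (c : ℝ × ℝ × ℝ) (r r' : ℝ) : Prop :=
  c.1 ≠ 0 ∧ r ≠ r' ∧ ∀ x z, QF c x z = c.1 * (x - r * z) * (x - r' * z)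

lemma N3_of {d : Len} {p3 r r' : ℝ} (h : RT (fb d.B0 d.A3 d.B2 d.e32 p3 1) r r') (x3 : ℝ) :
    N3 d p3 1 x3 1 ↔ Xor' (d.R r 1 x3 1 < 0) (d.R r' 1 x3 1 < 0) := by
  unfold N3 Len.fb2
  exact Od_xor (N := fun x2 z2 => d.R x2 z2 x3 1 < 0) h.1 h.2.1 h.2.2 (fun s x z hs => R_neg2 d hs x z x3 1)

lemma N2_of {d : Len} {p2 p3 r r' : ℝ} (h : RT (fb d.B0 d.A2 d.B3 d.e23 p2 1) r r') :
    N2 d p2 1 p3 1 ↔ Xor' (N3 d p3 1 r 1) (N3 d p3 1 r' 1) := by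
  unfold N2 Len.fb3
  exact Od_xor (N := fun x3 z3 => N3 d p3 1 x3 z3) h.1 h.2.1 h.2.2 (fun s x z hs => N3_scale2 d hs p3 1 x z)

lemma N1_of {d : Len} {t r r' : ℝ} (h : RT (qa d.B0 d.B1 d.A3 d.e31 t) r r') (p2 : ℝ) :
    N1 d t p2 1 ↔ Xor' (N2 d p2 1 r 1) (N2 d p2 1 r' 1) := by
  unfold N1 Len.qa3
  exact Od_xor (N := fun p3 q3 => N2 d p2 1 p3 q3) h.1 h.2.1 h.2.2 (fun s x z hs => N2_scale2 d hs p2 1 x z)

lemma N0_of {d : Len} {t r r' : ℝ} (h : RT (qa d.B0 d.B1 d.A2 d.e21 t) r r') :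
    N0 d t ↔ Xor' (N1 d t r 1) (N1 d t r' 1) := by
  unfold N0 Len.qa2
  exact Od_xor (N := fun p2 q2 => N1 d t p2 q2) h.1 h.2.1 h.2.2 (fun s x z hs => N1_scale d hs t x z)

/-- the four constants -/
lemma nz_JJ {d : Len} (hd : d.Pos) (hg : Gen d) (d2 : d.A2 - d.e21 ≠ 0) (d3 : d.A3 - d.e31 ≠ 0) :
    -d.A1 * (d.B2 * (d.B3 - d.e13) * (d.B3 / (d.A2 - d.e21)) -
      d.B3 * (d.B2 - d.e12) * (d.B2 / (d.A3 - d.e31))) *
      (d.B2 * (d.B3 / (d.A2 - d.e21)) - d.B3 * (d.B2 / (d.A3 - d.e31))) ≠ 0 := by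
  have pA1 : d.A1 ≠ 0 := (hd 1).ne'
  have pB2 : d.B2 ≠ 0 := (hd 5).ne'
  have pB3 : d.B3 ≠ 0 := (hd 6).ne'
  refine mul_ne_zero (mul_ne_zero (neg_ne_zero.2 pA1) ?_) ?_
  · intro h
    obtain ⟨K, -, hK, nK⟩ := hg 8
    have k2 : d.A2 ∈ K := hK 2 (by decide)
    have k3 : d.A3 ∈ K := hK 3 (by decide)
    have k5 : d.B2 ∈ K := hK 5 (by decide)
    have k6 : d.B3 ∈ K := hK 6 (by decide)
    have k7 : d.e12 ∈ K := hK 7 (by decide)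
    have k9 : d.e21 ∈ K := hK 9 (by decide)
    have k11 : d.e31 ∈ K := hK 11 (by decide)
    apply nK
    have h0 : d.B2 * d.B3 * ((d.B3 - d.e13) / (d.A2 - d.e21) - (d.B2 - d.e12) / (d.A3 - d.e31)) = 0 := by
      rw [← h]; ring
    have h1 := (mul_eq_zero.1 h0).resolve_left (mul_ne_zero pB2 pB3)
    have h2 : (d.B3 - d.e13) / (d.A2 - d.e21) = (d.B2 - d.e12) / (d.A3 - d.e31) := by linarith
    rw [div_eq_iff d2] at h2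
    have : d.e13 = d.B3 - (d.B2 - d.e12) / (d.A3 - d.e31) * (d.A2 - d.e21) := by linarith
    show d.e13 ∈ K
    rw [this]
    exact K.sub_mem k6 (K.mul_mem (K.div_mem (K.sub_mem k5 k7) (K.sub_mem k3 k11)) (K.sub_mem k2 k9))
  · intro h
    obtain ⟨K'', -, hK'', nK''⟩ := hg 11
    have q2 : d.A2 ∈ K'' := hK'' 2 (by decide)
    have q3 : d.A3 ∈ K'' := hK'' 3 (by decide)
    have q9 : d.e21 ∈ K'' := hK'' 9 (by decide)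
    apply nK''
    have h0 : d.B2 * d.B3 * (1 / (d.A2 - d.e21) - 1 / (d.A3 - d.e31)) = 0 := by
      rw [← h]; ring
    have h1 := (mul_eq_zero.1 h0).resolve_left (mul_ne_zero pB2 pB3)
    have h2 : 1 / (d.A2 - d.e21) = 1 / (d.A3 - d.e31) := by linarith
    rw [div_eq_div_iff d2 d3] at h2
    have : d.e31 = d.A3 - (d.A2 - d.e21) := by linarith
    show d.e31 ∈ K''
    rw [this]
    exact K''.sub_mem q3 (K''.sub_mem q2 q9)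

lemma nz_JN {d : Len} (hd : d.Pos) (hg : Gen d) (d2 : d.A2 - d.e21 ≠ 0) (d3 : d.A3 - d.e31 ≠ 0) :
    -d.A1 * d.B2 * ((d.B0 - d.A1) - (d.B3 - d.e13)) *
      ((d.e13 - d.A1) * (d.B2 / (d.A3 - d.e31)) + d.B2 * ((d.A2 - d.e23) / (d.A2 - d.e21))) ≠ 0 := by
  have pA1 : d.A1 ≠ 0 := (hd 1).ne'
  have pB2 : d.B2 ≠ 0 := (hd 5).ne'
  obtain ⟨K, -, hK, nK⟩ := hg 8
  have k0 : d.B0 ∈ K := hK 0 (by decide)
  have k1 : d.A1 ∈ K := hK 1 (by decide)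
  have k2 : d.A2 ∈ K := hK 2 (by decide)
  have k3 : d.A3 ∈ K := hK 3 (by decide)
  have k6 : d.B3 ∈ K := hK 6 (by decide)
  have k9 : d.e21 ∈ K := hK 9 (by decide)
  have k10 : d.e23 ∈ K := hK 10 (by decide)
  have k11 : d.e31 ∈ K := hK 11 (by decide)
  have nK : d.e13 ∉ K := nK
  refine mul_ne_zero (mul_ne_zero (mul_ne_zero (neg_ne_zero.2 pA1) pB2) ?_) ?_
  · intro h
    apply nK
    have : d.e13 = d.B3 - (d.B0 - d.A1) := by linear_combination h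
    rw [this]
    exact K.sub_mem k6 (K.sub_mem k0 k1)
  · intro h
    apply nK
    have h0 : d.B2 * ((d.e13 - d.A1) / (d.A3 - d.e31) + (d.A2 - d.e23) / (d.A2 - d.e21)) = 0 := by
      rw [← h]; ring
    have h1 := (mul_eq_zero.1 h0).resolve_left pB2
    have h2 : (d.e13 - d.A1) / (d.A3 - d.e31) = -((d.A2 - d.e23) / (d.A2 - d.e21)) := by linarith
    rw [div_eq_iff d3] at h2
    have : d.e13 = d.A1 - (d.A2 - d.e23) / (d.A2 - d.e21) * (d.A3 - d.e31) := by linarith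
    rw [this]
    exact K.sub_mem k1 (K.mul_mem (K.div_mem (K.sub_mem k2 k10) (K.sub_mem k2 k9)) (K.sub_mem k3 k11))

lemma nz_NJ {d : Len} (hd : d.Pos) (hg : Gen d) (d2 : d.A2 - d.e21 ≠ 0) (d3 : d.A3 - d.e31 ≠ 0) :
    -d.A1 * d.B3 * ((d.B0 - d.A1) - (d.B2 - d.e12)) *
      ((d.e12 - d.A1) * (d.B3 / (d.A2 - d.e21)) + d.B3 * ((d.A3 - d.e32) / (d.A3 - d.e31))) ≠ 0 := by
  have pA1 : d.A1 ≠ 0 := (hd 1).ne'
  have pB3 : d.B3 ≠ 0 := (hd 6).ne'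
  obtain ⟨K', -, hK', nK'⟩ := hg 7
  have m0 : d.B0 ∈ K' := hK' 0 (by decide)
  have m1 : d.A1 ∈ K' := hK' 1 (by decide)
  have m2 : d.A2 ∈ K' := hK' 2 (by decide)
  have m3 : d.A3 ∈ K' := hK' 3 (by decide)
  have m5 : d.B2 ∈ K' := hK' 5 (by decide)
  have m9 : d.e21 ∈ K' := hK' 9 (by decide)
  have m11 : d.e31 ∈ K' := hK' 11 (by decide)
  have m12 : d.e32 ∈ K' := hK' 12 (by decide)
  have nK' : d.e12 ∉ K' := nK'
  refine mul_ne_zero (mul_ne_zero (mul_ne_zero (neg_ne_zero.2 pA1) pB3) ?_) ?_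
  · intro h
    apply nK'
    have : d.e12 = d.B2 - (d.B0 - d.A1) := by linear_combination h
    rw [this]
    exact K'.sub_mem m5 (K'.sub_mem m0 m1)
  · intro h
    apply nK'
    have h0 : d.B3 * ((d.e12 - d.A1) / (d.A2 - d.e21) + (d.A3 - d.e32) / (d.A3 - d.e31)) = 0 := by
      rw [← h]; ring
    have h1 := (mul_eq_zero.1 h0).resolve_left pB3
    have h2 : (d.e12 - d.A1) / (d.A2 - d.e21) = -((d.A3 - d.e32) / (d.A3 - d.e31)) := by linarith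
    rw [div_eq_iff d2] at h2
    have : d.e12 = d.A1 - (d.A3 - d.e32) / (d.A3 - d.e31) * (d.A2 - d.e21) := by linarith
    rw [this]
    exact K'.sub_mem m1 (K'.mul_mem (K'.div_mem (K'.sub_mem m3 m12) (K'.sub_mem m3 m11)) (K'.sub_mem m2 m9))

lemma nz_NN {d : Len} (hd : d.Pos) (hg : Gen d) (d2 : d.A2 - d.e21 ≠ 0) (d3 : d.A3 - d.e31 ≠ 0)
    (nB2B0 : d.B2 ≠ d.B0) (e32' : d.A3 - d.e32 ≠ 0) :
    -d.A1 * (d.B2 * ((d.B0 - d.A1) - (d.B3 - d.e13)) - d.B3 * ((d.B0 - d.A1) - (d.B2 - d.e12)) -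
      d.B0 * ((d.B2 - d.e12) - (d.B3 - d.e13))) *
      ((d.A1 - d.e13) * ((d.A3 - d.e32) / (d.A3 - d.e31)) -
        (d.A1 - d.e12) * ((d.A2 - d.e23) / (d.A2 - d.e21))) ≠ 0 := by
  have pA1 : d.A1 ≠ 0 := (hd 1).ne'
  obtain ⟨K, -, hK, nK⟩ := hg 8
  have k0 : d.B0 ∈ K := hK 0 (by decide)
  have k1 : d.A1 ∈ K := hK 1 (by decide)
  have k2 : d.A2 ∈ K := hK 2 (by decide)
  have k3 : d.A3 ∈ K := hK 3 (by decide)
  have k5 : d.B2 ∈ K := hK 5 (by decide)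
  have k6 : d.B3 ∈ K := hK 6 (by decide)
  have k7 : d.e12 ∈ K := hK 7 (by decide)
  have k9 : d.e21 ∈ K := hK 9 (by decide)
  have k10 : d.e23 ∈ K := hK 10 (by decide)
  have k11 : d.e31 ∈ K := hK 11 (by decide)
  have k12 : d.e32 ∈ K := hK 12 (by decide)
  have nK : d.e13 ∉ K := nK
  refine mul_ne_zero (mul_ne_zero (neg_ne_zero.2 pA1) ?_) ?_
  · intro h
    apply nK
    have hB : d.B2 - d.B0 ≠ 0 := sub_ne_zero.2 nB2B0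
    have : d.e13 = -(d.B2 * ((d.B0 - d.A1) - d.B3) - d.B3 * ((d.B0 - d.A1) - (d.B2 - d.e12)) -
        d.B0 * ((d.B2 - d.e12) - d.B3)) / (d.B2 - d.B0) := by
      rw [eq_div_iff hB]
      linear_combination h
    rw [this]
    exact K.div_mem (K.neg_mem (K.sub_mem (K.sub_mem (K.mul_mem k5 (K.sub_mem (K.sub_mem k0 k1) k6))
      (K.mul_mem k6 (K.sub_mem (K.sub_mem k0 k1) (K.sub_mem k5 k7))))
      (K.mul_mem k0 (K.sub_mem (K.sub_mem k5 k7) k6)))) (K.sub_mem k5 k0)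
  · intro h
    apply nK
    have hr : (d.A3 - d.e32) / (d.A3 - d.e31) ≠ 0 := div_ne_zero e32' d3
    have h1 : (d.A1 - d.e13) * ((d.A3 - d.e32) / (d.A3 - d.e31)) =
        (d.A1 - d.e12) * ((d.A2 - d.e23) / (d.A2 - d.e21)) := by linarith
    rw [← eq_div_iff hr] at h1
    have : d.e13 = d.A1 - (d.A1 - d.e12) * ((d.A2 - d.e23) / (d.A2 - d.e21)) /
        ((d.A3 - d.e32) / (d.A3 - d.e31)) := by linarith
    rw [this]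
    exact K.sub_mem k1 (K.div_mem (K.mul_mem (K.sub_mem k1 k7) (K.div_mem (K.sub_mem k2 k10)
      (K.sub_mem k2 k9))) (K.div_mem (K.sub_mem k3 k12) (K.sub_mem k3 k11)))

theorem l1 : S_LA → S_LB → S_LR → S_TOP2 → S_CASE1 → S_CASE2 → S_L1 := by
  intro hLA hLB hLR hT hC1 hC2 d hd hg hs
  -- simple inequalities
  have p : ∀ k, 0 < d.vec k := hd
  have pB0 : 0 < d.B0 := p 0
  have pA1 : 0 < d.A1 := p 1
  have pA2 : 0 < d.A2 := p 2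
  have pA3 : 0 < d.A3 := p 3
  have pB1 : 0 < d.B1 := p 4
  have pB2 : 0 < d.B2 := p 5
  have pB3 : 0 < d.B3 := p 6
  have pe21 : 0 < d.e21 := p 9
  have pe23 : 0 < d.e23 := p 10
  have pe31 : 0 < d.e31 := p 11
  have pe32 : 0 < d.e32 := p 12
  have nB1e21 : d.B1 ≠ d.e21 := gen_ne hg (i := 4) (j := 9) (by decide)
  have nA2e21 : d.A2 ≠ d.e21 := gen_ne hg (i := 2) (j := 9) (by decide)
  have nB1e31 : d.B1 ≠ d.e31 := gen_ne hg (i := 4) (j := 11) (by decide)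
  have nA3e31 : d.A3 ≠ d.e31 := gen_ne hg (i := 3) (j := 11) (by decide)
  have nB1B0 : d.B1 ≠ d.B0 := gen_ne hg (i := 4) (j := 0) (by decide)
  have nA2B0 : d.A2 ≠ d.B0 := gen_ne hg (i := 2) (j := 0) (by decide)
  have nA3B0 : d.A3 ≠ d.B0 := gen_ne hg (i := 3) (j := 0) (by decide)
  have nA2e23 : d.A2 ≠ d.e23 := gen_ne hg (i := 2) (j := 10) (by decide)
  have nB3e23 : d.B3 ≠ d.e23 := gen_ne hg (i := 6) (j := 10) (by decide)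
  have nA3e32 : d.A3 ≠ d.e32 := gen_ne hg (i := 3) (j := 12) (by decide)
  have nB2e32 : d.B2 ≠ d.e32 := gen_ne hg (i := 5) (j := 12) (by decide)
  have nB2B0 : d.B2 ≠ d.B0 := gen_ne hg (i := 5) (j := 0) (by decide)
  have d2 : d.A2 - d.e21 ≠ 0 := sub_ne_zero.2 nA2e21
  have d3 : d.A3 - d.e31 ≠ 0 := sub_ne_zero.2 nA3e31
  have dB : d.B1 - d.B0 ≠ 0 := sub_ne_zero.2 nB1B0
  -- the branches
  obtain ⟨-, O2, Q2, hr2, hO2, hQ2⟩ := hLA d.B0 d.B1 d.A2 d.e21 pB0 pB1 pA2 pe21 nB1e21 nA2e21 nB1B0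
    (fun h => d2 (by linarith))
  obtain ⟨-, O3, Q3, hr3, hO3, hQ3⟩ := hLA d.B0 d.B1 d.A3 d.e31 pB0 pB1 pA3 pe31 nB1e31 nA3e31 nB1B0
    (fun h => d3 (by linarith))
  have hω2 : d.A2 / (d.A2 - d.e21) ≠ 0 := div_ne_zero pA2.ne' d2
  have hω3 : d.A3 / (d.A3 - d.e31) ≠ 0 := div_ne_zero pA3.ne' d3
  obtain ⟨J3, M3, hrb3, hJ3, hM3, -⟩ := (hLB d.B0 d.A2 d.B3 d.e23 pB0 pA2 pB3 pe23 nA2e23 nB3e23 nA2B0).1
    Q2 _ hω2 hQ2
  obtain ⟨J2, M2, hrb2, hJ2, hM2, -⟩ := (hLB d.B0 d.A3 d.B2 d.e32 pB0 pA3 pB2 pe32 nA3e32 nB2e32 nA3B0).1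
    Q3 _ hω3 hQ3
  -- the limit positions
  obtain ⟨l2, hl2⟩ : ∃ l2, l2 = 1 + (d.A2 - d.e21) / (d.B1 - d.B0) := ⟨_, rfl⟩
  obtain ⟨l3, hl3⟩ : ∃ l3, l3 = 1 + (d.A3 - d.e31) / (d.B1 - d.B0) := ⟨_, rfl⟩
  rw [← hl2] at hO2
  rw [← hl3] at hO3
  have nl2 : l2 ≠ 1 := by
    rw [hl2]
    intro h
    exact (div_ne_zero d2 dB) (by linarith)
  have nl3 : l3 ≠ 1 := by
    rw [hl3]
    intro h
    exact (div_ne_zero d3 dB) (by linarith)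
  have z2 : QF (d.qa2 1) l2 1 = 0 := by
    unfold QF Len.qa2 qa
    rw [hl2]
    field_simp
    ring
  have z3 : QF (d.qa3 1) l3 1 = 0 := by
    unfold QF Len.qa3 qa
    rw [hl3]
    field_simp
    ring
  have nz : ∀ x : ℝ, NZ x 1 := fun x => Or.inr one_ne_zero
  have gOO : G2 d l2 1 l3 1 := hC1 d hd hg hs 1 l2 1 l3 1 one_ne_zero (by rw [mul_one]; exact nB1B0.symm)
    (nz _) (nz _) z2 z3 nl2 nl3
  have gQO : G2 d 1 1 l3 1 := (hC2 d hd hg l3 1 (nz _) nl3).1 z3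
  have gOQ : G2 d l2 1 1 1 := (hC2 d hd hg l2 1 (nz _) nl2).2 z2
  have tQ2 : Tendsto Q2 (𝓝[≠] (0 : ℝ)) (𝓝 1) := hQ2.tendsto_zero
  have tQ3 : Tendsto Q3 (𝓝[≠] (0 : ℝ)) (𝓝 1) := hQ3.tendsto_zero
  have cOO := N2_const hT hd nA2B0 nA3B0 gOO hO2 hO3
  have cOQ := N2_const hT hd nA2B0 nA3B0 gOQ hO2 tQ3
  have cQO := N2_const hT hd nA2B0 nA3B0 gQO tQ2 hO3
  -- the resultants
  obtain ⟨r1, -, r2, r3, r4⟩ := hLR d J2 J3
  have rJJ := r1 _ _ hJ2 hJ3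
  obtain ⟨-, -, r2, -, -⟩ := hLR d J2 M3
  have rJN := r2 _ _ hJ2 hM3
  obtain ⟨-, -, -, r3, -⟩ := hLR d M2 J3
  have rNJ := r3 _ _ hM2 hJ3
  obtain ⟨-, -, -, -, r4⟩ := hLR d M2 M3
  have rNN := r4 _ _ hM2 hM3
  -- the constants
  have x2 : d.B2 * (d.A3 / (d.A3 - d.e31)) / d.A3 = d.B2 / (d.A3 - d.e31) := by field_simp
  have x3 : d.B3 * (d.A2 / (d.A2 - d.e21)) / d.A2 = d.B3 / (d.A2 - d.e21) := by field_simp
  have y3 : (d.A2 - d.e23) * (d.A2 / (d.A2 - d.e21)) / d.A2 = (d.A2 - d.e23) / (d.A2 - d.e21) := by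
    field_simp
  have y2 : (d.A3 - d.e32) * (d.A3 / (d.A3 - d.e31)) / d.A3 = (d.A3 - d.e32) / (d.A3 - d.e31) := by
    field_simp
  rw [x2, x3] at rJJ
  rw [x2, y3] at rJN
  rw [x3, y2] at rNJ
  rw [y2, y3] at rNN
  have e32' : d.A3 - d.e32 ≠ 0 := sub_ne_zero.2 nA3e32
  have sJJ := ord_even rJJ (nz_JJ hd hg d2 d3) (by decide)
  have sJN := ord_odd rJN (nz_JN hd hg d2 d3) (by decide)
  have sNJ := ord_odd rNJ (nz_NJ hd hg d2 d3) (by decide)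
  have sNN := ord_odd rNN (nz_NN hd hg d2 d3 nB2B0 e32') (by decide)
  have w2 := both_sides hr2
  have w3 := both_sides hr3
  have v2 := both_sides hrb2
  have v3 := both_sides hrb3
  clear rJJ rJN rNJ rNN hr2 hr3 hrb2 hrb3 hJ2 hJ3 hM2 hM3 hQ2 hQ3 hO2 hO3 r1 r2 r3 r4
  -- assemble
  filter_upwards [w2, w3, v2, v3, sJJ, sJN, sNJ, sNN, cOO, cOQ, cQO] with ε a2 a3 b2 b3 sJJ sJN sNJ sNN cOO cOQ cQO
  have e1 : (1 : ℝ) - ε = 1 + -ε := by ring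
  rw [e1]
  have a2p : RT (qa d.B0 d.B1 d.A2 d.e21 (1 + ε)) (O2 ε) (Q2 ε) := a2.1
  have a2m : RT (qa d.B0 d.B1 d.A2 d.e21 (1 + -ε)) (O2 (-ε)) (Q2 (-ε)) := a2.2
  have a3p : RT (qa d.B0 d.B1 d.A3 d.e31 (1 + ε)) (O3 ε) (Q3 ε) := a3.1
  have a3m : RT (qa d.B0 d.B1 d.A3 d.e31 (1 + -ε)) (O3 (-ε)) (Q3 (-ε)) := a3.2
  have b2p : RT (fb d.B0 d.A3 d.B2 d.e32 (Q3 ε) 1) (J2 ε) (M2 ε) := b2.1
  have b2m : RT (fb d.B0 d.A3 d.B2 d.e32 (Q3 (-ε)) 1) (J2 (-ε)) (M2 (-ε)) := b2.2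
  have b3p : RT (fb d.B0 d.A2 d.B3 d.e23 (Q2 ε) 1) (J3 ε) (M3 ε) := b3.1
  have b3m : RT (fb d.B0 d.A2 d.B3 d.e23 (Q2 (-ε)) 1) (J3 (-ε)) (M3 (-ε)) := b3.2
  have hQQ : (N2 d (Q2 (-ε)) 1 (Q3 (-ε)) 1 ↔ ¬ N2 d (Q2 ε) 1 (Q3 ε) 1) := by
    rw [N2_of b3m, N2_of b3p, N3_of b2m, N3_of b2m, N3_of b2p, N3_of b2p]
    exact xor_QQ sJJ sNJ sJN sNN
  rw [N0_of a2m, N0_of a2p, N1_of a3m, N1_of a3m, N1_of a3p, N1_of a3p]
  exact xor_top cOO cOQ cQO hQQ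

end Pool.Agent.TR23
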