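import Pool.Agent.TR23.RootsAux

/-!
# Project TR23, job LA
-/

set_option autoImplicit false
set_option linter.all false

open Filter Topology

namespace Pool.Agent.TR23

/-- **Job LA.** -/
theorem la : S_LA := by
  intro B0 B1 A e hB0 hB1 hA he hB1e hAe hB10 hne
  have hid := tendsto_id_ne
  refine ⟨?_, ?_⟩
  · have ha : Tendsto (fun t : ℝ => B1 - B0 * t) (𝓝[≠] (0 : ℝ)) (𝓝 B1) := by
      simpa using tendsto_const_nhds.sub (hid.const_mul B0)
    have hm : Tendsto (fun t : ℝ => B1 - e + A - B0 * t) (𝓝[≠] (0 : ℝ)) (𝓝 (B1 - e + A)) := by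
      simpa using (tendsto_const_nhds (x := B1 - e + A)).sub (hid.const_mul B0)
    have hb : Tendsto (fun t : ℝ => -(t * (B1 - e + A - B0 * t) + (B1 - B0 * t))) (𝓝[≠] (0 : ℝ))
        (𝓝 (-B1)) := by
      simpa using ((hid.mul hm).add ha).neg
    have hc : Tendsto (fun t : ℝ => (t * (B1 - e + A - B0 * t) - A * t * (1 - t)) / t) (𝓝[≠] (0 : ℝ))
        (𝓝 (B1 - e)) := by
      have h := hm.sub (((tendsto_const_nhds (x := (1 : ℝ))).sub hid).const_mul A)
      have e1 : B1 - e + A - A * (1 - 0) = B1 - e := by ring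
      rw [e1] at h
      refine h.congr' ?_
      filter_upwards [self_mem_nhdsWithin] with t ht
      have ht : t ≠ 0 := ht
      field_simp
    obtain ⟨r, r', h1, h2, h3⟩ := roots_small hB1.ne' (neg_ne_zero.2 hB1.ne') ha hb hc
    refine ⟨r, r', ?_, ?_, ?_, ?_⟩
    · unfold Roots
      filter_upwards [h1] with τ h
      refine ⟨by simpa [qa] using h.1, h.2.1, fun x z => ?_⟩
      have := h.2.2.2 x z
      simp only [QF, qa]
      linear_combination this
    · have e1 : -(B1 - e) / -B1 = (B1 - e) / B1 := neg_div_neg_eq _ _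
      rw [e1] at h2
      simpa [Ord] using h2
    · have h4 : Tendsto (fun t => (B1 - e + A - B0 * t) / (B1 - B0 * t) - r t / t) (𝓝[≠] (0 : ℝ))
          (𝓝 ((B1 - e + A) / B1 - -(B1 - e) / -B1)) := (hm.div ha hB1.ne').sub h2
      have e1 : (B1 - e + A) / B1 - -(B1 - e) / -B1 = A / B1 := by
        field_simp
        ring
      rw [e1] at h4
      have h5 : Tendsto (fun τ => (r' τ - 1) / τ) (𝓝[≠] (0 : ℝ)) (𝓝 (A / B1)) := by
        refine h4.congr' ?_
        filter_upwards [h1, self_mem_nhdsWithin] with τ h hτ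
        have hτ : τ ≠ 0 := hτ
        have ha := h.1
        have hs : r' τ = -(-(τ * (B1 - e + A - B0 * τ) + (B1 - B0 * τ)) / (B1 - B0 * τ)) - r τ := by
          have := h.2.2.1
          linarith
        rw [hs]
        field_simp
        ring
      simpa [Ord] using h5
    · filter_upwards [h1, self_mem_nhdsWithin, hid.eventually_ne (zero_ne_one)] with t h ht ht1
      have ht : t ≠ 0 := ht
      have h6 := h.2.2.2 (r' t) 1
      have h7 : (B1 - B0 * t) * r' t ^ 2 + -(t * (B1 - e + A - B0 * t) + (B1 - B0 * t)) * r' t +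
          (t * (B1 - e + A - B0 * t) - A * t * (1 - t)) = 0 := by
        linear_combination h6
      have hr : r' t ≠ 1 := by
        intro h0
        rw [h0] at h7
        have : A * t * (1 - t) = 0 := by linear_combination -h7
        exact (mul_ne_zero (mul_ne_zero hA.ne' ht) (sub_ne_zero.2 (Ne.symm ht1))) this
      refine ⟨?_, hr⟩
      have hr' : r' t - 1 ≠ 0 := sub_ne_zero.2 hr
      field_simp
      linear_combination -h7
  · -- near `t = 1`; shifted variable `u = 1 + w`
    have hB10' : B1 - B0 ≠ 0 := sub_ne_zero.2 hB10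
    have hAe' : e - A ≠ 0 := sub_ne_zero.2 (Ne.symm hAe)
    have ha : Tendsto (fun t : ℝ => B1 - B0 * (1 + t)) (𝓝[≠] (0 : ℝ)) (𝓝 (B1 - B0)) := by
      have h := (tendsto_const_nhds (x := B1)).sub (((tendsto_const_nhds (x := (1 : ℝ))).add hid).const_mul B0)
      simpa using h
    have hb : Tendsto (fun t : ℝ => (B1 - B0 * (1 + t)) - (1 + t) * (B1 - e + A - B0 * (1 + t)))
        (𝓝[≠] (0 : ℝ)) (𝓝 (e - A)) := by
      have h1 : Tendsto (fun t : ℝ => 1 + t) (𝓝[≠] (0 : ℝ)) (𝓝 1) := by
        simpa using (tendsto_const_nhds (x := (1 : ℝ))).add hid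
      have h := ha.sub (h1.mul ((tendsto_const_nhds (x := B1 - e + A)).sub (h1.const_mul B0)))
      have e1 : B1 - B0 - 1 * (B1 - e + A - B0 * 1) = e - A := by ring
      rw [e1] at h
      exact h
    have hc : Tendsto (fun t : ℝ => A * (1 + t) * t / t) (𝓝[≠] (0 : ℝ)) (𝓝 A) := by
      have h1 : Tendsto (fun t : ℝ => A * (1 + t)) (𝓝[≠] (0 : ℝ)) (𝓝 A) := by
        simpa using ((tendsto_const_nhds (x := (1 : ℝ))).add hid).const_mul A
      refine h1.congr' ?_
      filter_upwards [self_mem_nhdsWithin] with t ht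
      have ht : t ≠ 0 := ht
      field_simp
    obtain ⟨r, r', h1, h2, h3⟩ := roots_small hB10' hAe' ha hb hc
    refine ⟨fun τ => 1 + r' τ, fun τ => 1 + r τ, ?_, ?_, ?_⟩
    · unfold Roots
      filter_upwards [h1] with τ h
      refine ⟨by simpa [qa] using h.1, ?_, fun x z => ?_⟩
      · intro h'
        exact h.2.1 (by linarith)
      · have := h.2.2.2 (x - z) z
        simp only [QF, qa]
        linear_combination this
    · have h4 := h3.const_add 1
      have e1 : 1 + -(e - A) / (B1 - B0) = 1 + (A - e) / (B1 - B0) := by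
        rw [neg_sub]
      rw [e1] at h4
      exact h4
    · have e1 : -A / (e - A) = A / (A - e) := by
        rw [← neg_sub A e, neg_div_neg_eq]
      rw [e1] at h2
      unfold Ord
      simpa using h2

end Pool.Agent.TR23
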