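import Pool.Agent.TR23.RootsAux

/-!
# Project TR23, job LB
-/

set_option autoImplicit false
set_option linter.all false

open Filter Topology

namespace Pool.Agent.TR23

/-- **Job LB.** -/
theorem lb : S_LB := by
  intro B0 A B e hB0 hA hB he hAe hBe hAB
  refine ⟨?_, ?_⟩
  · intro u ω hω hu
    have hu1 : Tendsto (fun τ => (u τ - 1) / τ) (𝓝[≠] (0 : ℝ)) (𝓝 ω) := by simpa [Ord] using hu
    have hu0 : Tendsto (fun τ => u τ - 1) (𝓝[≠] (0 : ℝ)) (𝓝 0) := tendsto_zero_of_div hu1
    have hu' : Tendsto u (𝓝[≠] (0 : ℝ)) (𝓝 1) := by simpa using hu0.add_const 1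
    have hV : Tendsto (fun τ => B0 * (u τ - 1) + A) (𝓝[≠] (0 : ℝ)) (𝓝 A) := by
      simpa using (hu0.const_mul B0).add_const A
    have hb : Tendsto (fun τ => -(u τ * (B0 * (u τ - 1) + A) + (B - e) * (u τ - 1))) (𝓝[≠] (0 : ℝ))
        (𝓝 (-A)) := by
      simpa using ((hu'.mul hV).add (hu0.const_mul (B - e))).neg
    have hc : Tendsto (fun τ => B * u τ * (u τ - 1) / τ) (𝓝[≠] (0 : ℝ)) (𝓝 (B * ω)) := by
      have h := (hu'.const_mul B).mul hu1
      rw [mul_one] at h
      refine h.congr' ?_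
      filter_upwards with τ
      rw [mul_div_assoc]
    obtain ⟨r, r', h1, h2, h3⟩ := roots_small hA.ne' (neg_ne_zero.2 hA.ne') hV hb hc
    have hu1ne : ∀ᶠ τ in 𝓝[≠] (0 : ℝ), u τ - 1 ≠ 0 := by
      filter_upwards [hu1.eventually_ne hω] with τ h h'
      apply h
      rw [h', zero_div]
    refine ⟨r, r', ?_, ?_, ?_, ?_⟩
    · unfold Roots
      filter_upwards [h1] with τ h
      refine ⟨by simpa [fb] using h.1, h.2.1, fun x z => ?_⟩
      have := h.2.2.2 x z
      simp only [QF, fb]
      linear_combination this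
    · have e1 : -(B * ω) / -A = B * ω / A := neg_div_neg_eq _ _
      rw [e1] at h2
      simpa [Ord] using h2
    · have h4 : Tendsto (fun τ => (u τ - 1) / τ * ((B0 * (u τ - 1) + A) + (B - e)) /
          (B0 * (u τ - 1) + A) - r τ / τ) (𝓝[≠] (0 : ℝ)) (𝓝 (ω * (A + (B - e)) / A - -(B * ω) / -A)) :=
        ((hu1.mul (hV.add_const (B - e))).div hV hA.ne').sub h2
      have e1 : ω * (A + (B - e)) / A - -(B * ω) / -A = (A - e) * ω / A := by
        field_simp
        ring
      rw [e1] at h4
      have h5 : Tendsto (fun τ => (r' τ - 1) / τ) (𝓝[≠] (0 : ℝ)) (𝓝 ((A - e) * ω / A)) := by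
        refine h4.congr' ?_
        filter_upwards [h1, self_mem_nhdsWithin] with τ h hτ
        have hτ : τ ≠ 0 := hτ
        have ha := h.1
        have hs : r' τ = -(-(u τ * (B0 * (u τ - 1) + A) + (B - e) * (u τ - 1)) / (B0 * (u τ - 1) + A)) - r τ := by
          have := h.2.2.1
          linarith
        rw [hs]
        generalize B0 * (u τ - 1) + A = v at ha
        field_simp
        ring
      simpa [Ord] using h5
    · filter_upwards [h1, hu1ne, hu'.eventually_ne one_ne_zero] with τ h h' h''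
      have h6 := h.2.2.2 (r τ) 1
      have h7 : (B0 * (u τ - 1) + A) * r τ ^ 2 + -(u τ * (B0 * (u τ - 1) + A) + (B - e) * (u τ - 1)) * r τ +
          B * u τ * (u τ - 1) = 0 := by
        linear_combination h6
      have hr : r τ ≠ 0 := by
        intro h0
        rw [h0] at h7
        have : B * u τ * (u τ - 1) = 0 := by linear_combination h7
        exact (mul_ne_zero (mul_ne_zero hB.ne' h'') h') this
      refine ⟨hr, ?_⟩
      field_simp
      linear_combination -h7
  · intro u ω hω hu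
    have hu1 : Tendsto (fun τ => u τ / τ) (𝓝[≠] (0 : ℝ)) (𝓝 ω) := by simpa [Ord] using hu
    have hu0 : Tendsto u (𝓝[≠] (0 : ℝ)) (𝓝 0) := tendsto_zero_of_div hu1
    have hu' : Tendsto (fun τ => u τ - 1) (𝓝[≠] (0 : ℝ)) (𝓝 (-1)) := by simpa using hu0.sub_const 1
    have hAB' : A - B0 ≠ 0 := sub_ne_zero.2 hAB
    have hBe' : B - e ≠ 0 := sub_ne_zero.2 hBe
    have hV : Tendsto (fun τ => B0 * (u τ - 1) + A) (𝓝[≠] (0 : ℝ)) (𝓝 (A - B0)) := by
      have h := (hu'.const_mul B0).add_const A
      have e1 : B0 * -1 + A = A - B0 := by ring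
      rw [e1] at h
      exact h
    have hb : Tendsto (fun τ => -(u τ * (B0 * (u τ - 1) + A) + (B - e) * (u τ - 1))) (𝓝[≠] (0 : ℝ))
        (𝓝 (B - e)) := by
      have h := ((hu0.mul hV).add (hu'.const_mul (B - e))).neg
      have e1 : -(0 * (A - B0) + (B - e) * -1) = B - e := by ring
      rw [e1] at h
      exact h
    have hc : Tendsto (fun τ => B * u τ * (u τ - 1) / τ) (𝓝[≠] (0 : ℝ)) (𝓝 (-(B * ω))) := by
      have h := (hu1.const_mul B).mul hu'
      have e1 : B * ω * -1 = -(B * ω) := by ring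
      rw [e1] at h
      refine h.congr' ?_
      filter_upwards with τ
      ring
    obtain ⟨r, r', h1, h2, h3⟩ := roots_small hAB' hBe' hV hb hc
    refine ⟨r, r', ?_, ?_, ?_⟩
    · unfold Roots
      filter_upwards [h1] with τ h
      refine ⟨by simpa [fb] using h.1, h.2.1, fun x z => ?_⟩
      have := h.2.2.2 x z
      simp only [QF, fb]
      linear_combination this
    · rw [neg_neg] at h2
      simpa [Ord] using h2
    · have e1 : -(B - e) / (A - B0) = (B - e) / (B0 - A) := by
        rw [← neg_sub B0 A, neg_div_neg_eq]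
      rw [e1] at h3
      exact h3

end Pool.Agent.TR23
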