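import Pool.Agent.TR23.Base

/-!
# Project TR23, Job LR: expansions of the resultant
-/

set_option autoImplicit false
set_option linter.all false

open Filter Topology

namespace Pool.Agent.TR23

namespace LRx

def G1 (B0 g1 B2 g2 B3 g3 x2 x3 : ℝ) : ℝ :=
  g1 * (B2 * x3 - x2 * B3) - B0 * (g2 * x2 * x3 - x2 * g3 * x3) + (g2 * x2 * B3 - B2 * g3 * x3)
def G2 (B0 g1 B2 g2 B3 g3 x2 x3 : ℝ) : ℝ :=
  x2 * x3 * ((g2 - g3) - g1 * (x2 - x3) + (x2 * g3 - g2 * x3))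
def G3 (B0 g1 B2 g2 B3 g3 x2 x3 : ℝ) : ℝ :=
  (B2 * g3 * x3 - g2 * x2 * B3) - B0 * (x2 ^ 2 * g3 * x3 - g2 * x2 * x3 ^ 2) + g1 * (x2 ^ 2 * B3 - B2 * x3 ^ 2)
def G4 (B0 g1 B2 g2 B3 g3 x2 x3 : ℝ) : ℝ :=
  (B2 * x3 - x2 * B3) - B0 * (x2 ^ 2 * x3 - x2 * x3 ^ 2) + (x2 ^ 2 * B3 - B2 * x3 ^ 2)

lemma R_eq (d : Len) (x2 x3 : ℝ) : d.R x2 1 x3 1 = -d.A1 *
    (G1 d.B0 (d.B0 - d.A1) d.B2 (d.B2 - d.e12) d.B3 (d.B3 - d.e13) x2 x3 *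
      LRx.G2 d.B0 (d.B0 - d.A1) d.B2 (d.B2 - d.e12) d.B3 (d.B3 - d.e13) x2 x3 +
    G3 d.B0 (d.B0 - d.A1) d.B2 (d.B2 - d.e12) d.B3 (d.B3 - d.e13) x2 x3 *
      G4 d.B0 (d.B0 - d.A1) d.B2 (d.B2 - d.e12) d.B3 (d.B3 - d.e13) x2 x3) := by
  unfold Len.R Len.pp2 Len.pp3 pp res G1 LRx.G2 G3 G4
  simp only
  ring

/-- the variable itself tends to zero -/
lemma t0 : Tendsto (fun τ : ℝ => τ) (𝓝[≠] (0 : ℝ)) (𝓝 0) := tendsto_id.mono_left nhdsWithin_le_nhds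

lemma ord1 {f : ℝ → ℝ} {L : ℝ} (h : Ord f 1 L) : Tendsto (fun τ => f τ / τ) (𝓝[≠] (0 : ℝ)) (𝓝 L) := by
  unfold Ord at h
  simpa only [pow_one] using h

lemma to_ord {f F : ℝ → ℝ} {k : ℕ} {L L' : ℝ} (hF : Tendsto F (𝓝[≠] (0 : ℝ)) (𝓝 L'))
    (h : ∀ τ : ℝ, τ ≠ 0 → f τ = τ ^ k * F τ) (hL : L' = L) : Ord f k L := by
  unfold Ord
  subst hL
  refine hF.congr' ?_
  filter_upwards [self_mem_nhdsWithin] with τ hτ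
  have hτ : τ ≠ 0 := hτ
  rw [h τ hτ]
  field_simp

lemma lim3 {X Y : ℝ → ℝ} {a b : ℝ} (hX : Tendsto X (𝓝[≠] (0 : ℝ)) (𝓝 a)) (hY : Tendsto Y (𝓝[≠] (0 : ℝ)) (𝓝 b))
    (Φ : ℝ × ℝ × ℝ → ℝ) (hΦ : Continuous Φ) : Tendsto (fun τ => Φ (X τ, Y τ, τ)) (𝓝[≠] (0 : ℝ)) (𝓝 (Φ (a, b, 0))) :=
  (hΦ.tendsto (a, b, 0)).comp (hX.prodMk_nhds (hY.prodMk_nhds t0))

lemma lim4 {X Y Z : ℝ → ℝ} {a b c : ℝ} (hX : Tendsto X (𝓝[≠] (0 : ℝ)) (𝓝 a)) (hY : Tendsto Y (𝓝[≠] (0 : ℝ)) (𝓝 b))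
    (hZ : Tendsto Z (𝓝[≠] (0 : ℝ)) (𝓝 c))
    (Φ : ℝ × ℝ × ℝ × ℝ → ℝ) (hΦ : Continuous Φ) :
    Tendsto (fun τ => Φ (X τ, Y τ, Z τ, τ)) (𝓝[≠] (0 : ℝ)) (𝓝 (Φ (a, b, c, 0))) :=
  (hΦ.tendsto (a, b, c, 0)).comp (hX.prodMk_nhds (hY.prodMk_nhds (hZ.prodMk_nhds t0)))

end LRx

open LRx

/-- **Job LR.** -/
theorem lr : S_LR := by
  intro d x2 x3
  obtain ⟨B0, hB0⟩ : ∃ B0, B0 = d.B0 := ⟨_, rfl⟩
  obtain ⟨A1, hA1⟩ : ∃ A1, A1 = d.A1 := ⟨_, rfl⟩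
  obtain ⟨B2, hB2⟩ : ∃ B2, B2 = d.B2 := ⟨_, rfl⟩
  obtain ⟨B3, hB3⟩ : ∃ B3, B3 = d.B3 := ⟨_, rfl⟩
  obtain ⟨e12, he12⟩ : ∃ e12, e12 = d.e12 := ⟨_, rfl⟩
  obtain ⟨e13, he13⟩ : ∃ e13, e13 = d.e13 := ⟨_, rfl⟩
  simp only [R_eq, ← hB0, ← hA1, ← hB2, ← hB3, ← he12, ← he13]
  obtain ⟨g1, hg1⟩ : ∃ g1, g1 = B0 - A1 := ⟨_, rfl⟩
  obtain ⟨g2, hg2⟩ : ∃ g2, g2 = B2 - e12 := ⟨_, rfl⟩
  obtain ⟨g3, hg3⟩ : ∃ g3, g3 = B3 - e13 := ⟨_, rfl⟩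
  refine ⟨?_, ?_, ?_, ?_, ?_⟩
  · intro ξ2 ξ3 h2 h3
    rw [← hg1, ← hg2, ← hg3]
    have hl := lim3 (ord1 h2) (ord1 h3) (fun p => -A1 *
      (p.2.2 * (g1 * (B2 * p.2.1 - p.1 * B3) - B0 * p.2.2 * p.1 * p.2.1 * (g2 - g3) + (g2 * p.1 * B3 - B2 * g3 * p.2.1)) *
        (p.1 * p.2.1 * ((g2 - g3) - g1 * p.2.2 * (p.1 - p.2.1) + p.2.2 * (p.1 * g3 - g2 * p.2.1))) +
      ((B2 * g3 * p.2.1 - g2 * p.1 * B3) - B0 * p.2.2 ^ 2 * (p.1 ^ 2 * g3 * p.2.1 - g2 * p.1 * p.2.1 ^ 2) +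
        g1 * p.2.2 * (p.1 ^ 2 * B3 - B2 * p.2.1 ^ 2)) *
      ((B2 * p.2.1 - p.1 * B3) - B0 * p.2.2 ^ 2 * (p.1 ^ 2 * p.2.1 - p.1 * p.2.1 ^ 2) +
        p.2.2 * (p.1 ^ 2 * B3 - B2 * p.2.1 ^ 2)))) (by fun_prop)
    refine to_ord hl (fun τ hτ => ?_) ?_
    · obtain ⟨X2, hX2⟩ : ∃ X2, X2 = x2 τ / τ := ⟨_, rfl⟩
      obtain ⟨X3, hX3⟩ : ∃ X3, X3 = x3 τ / τ := ⟨_, rfl⟩
      have e2 : x2 τ = τ * X2 := by rw [hX2]; field_simp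
      have e3 : x3 τ = τ * X3 := by rw [hX3]; field_simp
      simp only [← hX2, ← hX3]
      simp only [e2, e3]
      unfold G1 LRx.G2 G3 G4
      ring
    · simp only
      ring
  · intro ξ2 ξ3 κ h2 h3 h4 β hβ hξ2 hξ3
    have hl := lim4 (ord1 h2) (ord1 h3) h4 (fun p => -A1 *
      ((g1 * (p.2.2.2 * p.2.2.1) - B0 * p.2.2.2 * p.1 * p.2.1 * (g2 - g3) + (g2 * p.1 * B3 - B2 * g3 * p.2.1)) *
        (p.1 * p.2.1 * ((g2 - g3) - g1 * p.2.2.2 * (p.1 - p.2.1) + p.2.2.2 * (p.1 * g3 - g2 * p.2.1))) +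
      ((B2 * g3 * p.2.1 - g2 * p.1 * B3) - B0 * p.2.2.2 ^ 2 * (p.1 ^ 2 * g3 * p.2.1 - g2 * p.1 * p.2.1 ^ 2) +
        g1 * p.2.2.2 * (p.1 ^ 2 * B3 - B2 * p.2.1 ^ 2)) *
      (p.2.2.1 - B0 * p.2.2.2 * (p.1 ^ 2 * p.2.1 - p.1 * p.2.1 ^ 2) +
        (p.1 ^ 2 * B3 - B2 * p.2.1 ^ 2)))) (by fun_prop)
    rw [← hg1, ← hg2, ← hg3]
    refine to_ord hl (fun τ hτ => ?_) ?_
    · obtain ⟨X2, hX2⟩ : ∃ X2, X2 = x2 τ / τ := ⟨_, rfl⟩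
      obtain ⟨X3, hX3⟩ : ∃ X3, X3 = x3 τ / τ := ⟨_, rfl⟩
      obtain ⟨K, hK⟩ : ∃ K, K = (B2 * x3 τ - B3 * x2 τ) / τ ^ 2 := ⟨_, rfl⟩
      have e2 : x2 τ = τ * X2 := by rw [hX2]; field_simp
      have e3 : x3 τ = τ * X3 := by rw [hX3]; field_simp
      have e4 : B2 * X3 - X2 * B3 = τ * K := by
        rw [hK, hX2, hX3]; field_simp
      simp only [← hX2, ← hX3, ← hK]
      simp only [e2, e3]
      have a1 : G1 B0 g1 B2 g2 B3 g3 (τ * X2) (τ * X3) = τ *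
          (g1 * (τ * K) - B0 * τ * X2 * X3 * (g2 - g3) + (g2 * X2 * B3 - B2 * g3 * X3)) := by
        rw [← e4]; unfold G1; ring
      have a4 : G4 B0 g1 B2 g2 B3 g3 (τ * X2) (τ * X3) = τ ^ 2 *
          (K - B0 * τ * (X2 ^ 2 * X3 - X2 * X3 ^ 2) + (X2 ^ 2 * B3 - B2 * X3 ^ 2)) := by
        have : G4 B0 g1 B2 g2 B3 g3 (τ * X2) (τ * X3) = τ * ((B2 * X3 - X2 * B3)
          - B0 * τ ^ 2 * (X2 ^ 2 * X3 - X2 * X3 ^ 2) + τ * (X2 ^ 2 * B3 - B2 * X3 ^ 2)) := by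
          unfold G4; ring
        rw [this, e4]; ring
      rw [a1, a4]
      unfold LRx.G2 G3
      ring
    · simp only
      have e5 : B2 = β * ξ2 := by rw [hξ2]; field_simp
      have e6 : B3 = β * ξ3 := by rw [hξ3]; field_simp
      have e7 : e12 = β * ξ2 - g2 := by rw [← e5, hg2]; ring
      have e8 : e13 = β * ξ3 - g3 := by rw [← e6, hg3]; ring
      rw [e7, e8, e5, e6]
      ring
  · intro ξ2 ν3 h2 h3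
    have hl := lim3 (ord1 h2) (ord1 h3) (fun p => -A1 *
      (G1 B0 g1 B2 g2 B3 g3 (p.2.2 * p.1) (1 + p.2.2 * p.2.1) *
        (p.1 * (1 + p.2.2 * p.2.1) * ((g2 - g3) - g1 * (p.2.2 * p.1 - (1 + p.2.2 * p.2.1)) +
          (p.2.2 * p.1 * g3 - g2 * (1 + p.2.2 * p.2.1)))) +
      G3 B0 g1 B2 g2 B3 g3 (p.2.2 * p.1) (1 + p.2.2 * p.2.1) *
        (-B2 * (1 + p.2.2 * p.2.1) * p.2.1 + p.1 * (-B3 - B0 * (p.2.2 * p.1) * (1 + p.2.2 * p.2.1) +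
          B0 * (1 + p.2.2 * p.2.1) ^ 2 + p.2.2 * p.1 * B3)))) (by unfold G1 G3; fun_prop)
    rw [← hg1, ← hg3]
    refine to_ord hl (fun τ hτ => ?_) ?_
    · obtain ⟨X2, hX2⟩ : ∃ X2, X2 = x2 τ / τ := ⟨_, rfl⟩
      obtain ⟨X3, hX3⟩ : ∃ X3, X3 = (x3 τ - 1) / τ := ⟨_, rfl⟩
      have e2 : x2 τ = τ * X2 := by rw [hX2]; field_simp
      have e3 : x3 τ = 1 + τ * X3 := by rw [hX3]; field_simp; ring
      simp only [← hX2, ← hX3]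
      simp only [e2, e3, ← hg2]
      unfold G1 LRx.G2 G3 G4
      ring
    · have e8 : e13 = B3 - g3 := by rw [hg3]; ring
      have e9 : A1 = B0 - g1 := by rw [hg1]; ring
      unfold G1 G3
      simp only
      rw [e8, e9]
      ring
  · intro ξ3 ν2 h2 h3
    have hl := lim3 (ord1 h2) (ord1 h3) (fun p => -A1 *
      (G1 B0 g1 B2 g2 B3 g3 (1 + p.2.2 * p.1) (p.2.2 * p.2.1) *
        (p.2.1 * (1 + p.2.2 * p.1) * ((g2 - g3) - g1 * ((1 + p.2.2 * p.1) - p.2.2 * p.2.1) +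
          ((1 + p.2.2 * p.1) * g3 - g2 * (p.2.2 * p.2.1)))) +
      G3 B0 g1 B2 g2 B3 g3 (1 + p.2.2 * p.1) (p.2.2 * p.2.1) *
        (B3 * (1 + p.2.2 * p.1) * p.1 - p.2.1 * (-B2 - B0 * (p.2.2 * p.2.1) * (1 + p.2.2 * p.1) +
          B0 * (1 + p.2.2 * p.1) ^ 2 + p.2.2 * p.2.1 * B2)))) (by unfold G1 G3; fun_prop)
    rw [← hg1, ← hg2]
    refine to_ord hl (fun τ hτ => ?_) ?_
    · obtain ⟨X2, hX2⟩ : ∃ X2, X2 = (x2 τ - 1) / τ := ⟨_, rfl⟩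
      obtain ⟨X3, hX3⟩ : ∃ X3, X3 = x3 τ / τ := ⟨_, rfl⟩
      have e2 : x2 τ = 1 + τ * X2 := by rw [hX2]; field_simp; ring
      have e3 : x3 τ = τ * X3 := by rw [hX3]; field_simp
      simp only [← hX2, ← hX3]
      simp only [e2, e3, ← hg3]
      unfold G1 LRx.G2 G3 G4
      ring
    · have e8 : e12 = B2 - g2 := by rw [hg2]; ring
      have e9 : A1 = B0 - g1 := by rw [hg1]; ring
      unfold G1 G3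
      simp only
      rw [e8, e9]
      ring
  · intro ν2 ν3 h2 h3
    have hl := lim3 (ord1 h2) (ord1 h3) (fun p => -A1 *
      (G1 B0 g1 B2 g2 B3 g3 (1 + p.2.2 * p.1) (1 + p.2.2 * p.2.1) *
        ((1 + p.2.2 * p.1) * (1 + p.2.2 * p.2.1) * (-g1 * (p.1 - p.2.1) + (p.1 * g3 - g2 * p.2.1))) +
      G3 B0 g1 B2 g2 B3 g3 (1 + p.2.2 * p.1) (1 + p.2.2 * p.2.1) *
        (-B2 * (1 + p.2.2 * p.2.1) * p.2.1 + B3 * (1 + p.2.2 * p.1) * p.1 -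
          B0 * (1 + p.2.2 * p.1) * (1 + p.2.2 * p.2.1) * (p.1 - p.2.1)))) (by unfold G1 G3; fun_prop)
    rw [← hg1, ← hg2, ← hg3]
    refine to_ord hl (fun τ hτ => ?_) ?_
    · obtain ⟨X2, hX2⟩ : ∃ X2, X2 = (x2 τ - 1) / τ := ⟨_, rfl⟩
      obtain ⟨X3, hX3⟩ : ∃ X3, X3 = (x3 τ - 1) / τ := ⟨_, rfl⟩
      have e2 : x2 τ = 1 + τ * X2 := by rw [hX2]; field_simp; ring
      have e3 : x3 τ = 1 + τ * X3 := by rw [hX3]; field_simp; ring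
      simp only [← hX2, ← hX3]
      simp only [e2, e3]
      unfold G1 LRx.G2 G3 G4
      ring
    · have e7 : e12 = B2 - g2 := by rw [hg2]; ring
      have e8 : e13 = B3 - g3 := by rw [hg3]; ring
      have e9 : A1 = B0 - g1 := by rw [hg1]; ring
      unfold G1 G3
      simp only
      rw [e7, e8, e9]
      ring

end Pool.Agent.TR23
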