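import Pool.Agent.TR23.Stm

/-!
# Job SYM: the reflection
-/

set_option autoImplicit false

namespace Pool.Agent.TR23

namespace Sym

/-- transport of `Od` by a bijection of the lines -/
theorem Od_congr {c c' : ℝ × ℝ × ℝ} {N N' : ℝ → ℝ → Prop} (f g : ℝ → ℝ → ℝ) (k : ℝ) (hk : k ≠ 0)
    (hNZ : ∀ x z, NZ x z → NZ (f x z) (g x z))
    (hs : ∀ x' z', NZ x' z' → ∃ x z, NZ x z ∧ f x z = x' ∧ g x z = z')
    (hQ : ∀ x z, QF c' (f x z) (g x z) = k * QF c x z)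
    (hN : ∀ x z, NZ x z → (N' (f x z) (g x z) ↔ N x z)) : Od c' N' ↔ Od c N := by
  have key : ∀ (M M' : ℝ → ℝ → Prop), (∀ x z, NZ x z → (M' (f x z) (g x z) ↔ M x z)) →
      ((∃ x z, NZ x z ∧ QF c' x z = 0 ∧ M' x z) ↔ ∃ x z, NZ x z ∧ QF c x z = 0 ∧ M x z) := by
    intro M M' hM
    constructor
    · rintro ⟨x', z', h1, h2, h3⟩
      obtain ⟨x, z, h4, rfl, rfl⟩ := hs x' z' h1
      rw [hQ] at h2
      exact ⟨x, z, h4, (mul_eq_zero.1 h2).resolve_left hk, (hM x z h4).1 h3⟩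
    · rintro ⟨x, z, h1, h2, h3⟩
      exact ⟨f x z, g x z, hNZ x z h1, by rw [hQ, h2, mul_zero], (hM x z h1).2 h3⟩
  unfold Od
  rw [key N N' hN, key (fun x z => ¬ N x z) (fun x z => ¬ N' x z)
    (fun x z h => not_congr (hN x z h))]

/-- the reflection for `a_i` -/
def fA (B0 A p q : ℝ) : ℝ := B0 * (p - q) + A * q
/-- the reflection for `a_i` -/
def gA (B0 p q : ℝ) : ℝ := B0 * (p - q)

theorem nzA {B0 A : ℝ} (hB : B0 ≠ 0) (hA : A ≠ 0) {p q : ℝ} (h : NZ p q) :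
    NZ (fA B0 A p q) (gA B0 p q) := by
  unfold NZ fA gA
  by_contra hcon
  push Not at hcon
  obtain ⟨h1, h2⟩ := hcon
  have h3 : p - q = 0 := (mul_eq_zero.1 h2).resolve_left hB
  rw [h3, mul_zero, zero_add] at h1
  have h4 : q = 0 := (mul_eq_zero.1 h1).resolve_left hA
  rcases h with h | h
  · exact h (by linarith)
  · exact h h4

theorem surjA {B0 A : ℝ} (hB : B0 ≠ 0) (hA : A ≠ 0) {p' q' : ℝ} (h : NZ p' q') :
    ∃ p q, NZ p q ∧ fA B0 A p q = p' ∧ gA B0 p q = q' := by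
  refine ⟨q' / B0 + (p' - q') / A, (p' - q') / A, ?_, ?_, ?_⟩
  · by_contra hcon
    unfold NZ at hcon
    push Not at hcon
    obtain ⟨h1, h2⟩ := hcon
    rw [h2, add_zero, div_eq_zero_iff] at h1
    rw [div_eq_zero_iff] at h2
    have h3 := h1.resolve_right hB
    have h4 := h2.resolve_right hA
    rcases h with h | h
    · exact h (by linarith)
    · exact h h3
  · unfold fA
    field_simp
    ring
  · unfold gA
    field_simp
    ring

/-- the reflection for `b_k` -/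
def fB (B _x z : ℝ) : ℝ := B * z
/-- the reflection for `b_k` -/
def gB (B0 x _z : ℝ) : ℝ := B0 * x

theorem nzB {B0 B : ℝ} (hB : B0 ≠ 0) (hA : B ≠ 0) {x z : ℝ} (h : NZ x z) :
    NZ (fB B x z) (gB B0 x z) := by
  unfold NZ fB gB
  rcases h with h | h
  · exact Or.inr (mul_ne_zero hB h)
  · exact Or.inl (mul_ne_zero hA h)

theorem surjB {B0 B : ℝ} (hB : B0 ≠ 0) (hA : B ≠ 0) {x' z' : ℝ} (h : NZ x' z') :
    ∃ x z, NZ x z ∧ fB B x z = x' ∧ gB B0 x z = z' := by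
  refine ⟨z' / B0, x' / B, ?_, ?_, ?_⟩
  · rcases h with h | h
    · exact Or.inr (div_ne_zero h hA)
    · exact Or.inl (div_ne_zero h hB)
  · unfold fB
    field_simp
  · unfold gB
    field_simp

theorem qa_refl {B0 B1 A e t : ℝ} (hB : B0 ≠ 0) (ht : t ≠ 0) (p q : ℝ) :
    QF (qa B0 B1 A e (B1 / (B0 * t))) (fA B0 A p q) (gA B0 p q) =
      (A * B1 / t ^ 2) * QF (qa B0 B1 A e t) p q := by
  unfold QF qa fA gA
  field_simp
  ring

theorem fb_refl (B0 A B e p q x z : ℝ) :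
    QF (fb B0 A B e (fA B0 A p q) (gA B0 p q)) (fB B x z) (gB B0 x z) =
      (A * B * B0 ^ 2) * QF (fb B0 A B e p q) x z := by
  unfold QF fb fA gA fB gB
  ring

theorem R_refl (d : Len) (x2 z2 x3 z3 : ℝ) :
    d.R (fB d.B2 x2 z2) (gB d.B0 x2 z2) (fB d.B3 x3 z3) (gB d.B0 x3 z3) =
      (d.B2 ^ 2 * d.B3 ^ 2 * d.B0 ^ 4) * d.R x2 z2 x3 z3 := by
  unfold Len.R Len.pp2 Len.pp3 res pp fB gB
  ring

theorem N3_refl {d : Len} (h0 : d.B0 ≠ 0) (hA3 : d.A3 ≠ 0) (hB2 : d.B2 ≠ 0) (hB3 : d.B3 ≠ 0)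
    (p3 q3 x3 z3 : ℝ) :
    N3 d (fA d.B0 d.A3 p3 q3) (gA d.B0 p3 q3) (fB d.B3 x3 z3) (gB d.B0 x3 z3) ↔
      N3 d p3 q3 x3 z3 := by
  unfold N3
  refine Od_congr (fB d.B2) (gB d.B0) (d.A3 * d.B2 * d.B0 ^ 2) (by positivity)
    (fun x z h => nzB h0 hB2 h) (fun x z h => surjB h0 hB2 h)
    (fun x z => fb_refl _ _ _ _ _ _ _ _) (fun x z _ => ?_)
  rw [R_refl]
  have hk : 0 < d.B2 ^ 2 * d.B3 ^ 2 * d.B0 ^ 4 := by positivity
  constructor
  · intro h
    by_contra hcon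
    push Not at hcon
    exact absurd (mul_nonneg hk.le hcon) (not_le.2 h)
  · intro h
    exact mul_neg_of_pos_of_neg hk h

theorem N2_refl {d : Len} (h0 : d.B0 ≠ 0) (hA2 : d.A2 ≠ 0) (hA3 : d.A3 ≠ 0) (hB2 : d.B2 ≠ 0)
    (hB3 : d.B3 ≠ 0) (p2 q2 p3 q3 : ℝ) :
    N2 d (fA d.B0 d.A2 p2 q2) (gA d.B0 p2 q2) (fA d.B0 d.A3 p3 q3) (gA d.B0 p3 q3) ↔
      N2 d p2 q2 p3 q3 := by
  unfold N2
  exact Od_congr (fB d.B3) (gB d.B0) (d.A2 * d.B3 * d.B0 ^ 2) (by positivity)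
    (fun x z h => nzB h0 hB3 h) (fun x z h => surjB h0 hB3 h)
    (fun x z => fb_refl _ _ _ _ _ _ _ _) (fun x z _ => N3_refl h0 hA3 hB2 hB3 _ _ _ _)

theorem N1_refl {d : Len} {t : ℝ} (ht : t ≠ 0) (h0 : d.B0 ≠ 0) (h1 : d.B1 ≠ 0) (hA2 : d.A2 ≠ 0)
    (hA3 : d.A3 ≠ 0) (hB2 : d.B2 ≠ 0) (hB3 : d.B3 ≠ 0) (p2 q2 : ℝ) :
    N1 d (d.B1 / (d.B0 * t)) (fA d.B0 d.A2 p2 q2) (gA d.B0 p2 q2) ↔ N1 d t p2 q2 := by
  unfold N1
  exact Od_congr (fA d.B0 d.A3) (gA d.B0) (d.A3 * d.B1 / t ^ 2) (by positivity)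
    (fun x z h => nzA h0 hA3 h) (fun x z h => surjA h0 hA3 h)
    (fun x z => qa_refl h0 ht _ _) (fun x z _ => N2_refl h0 hA2 hA3 hB2 hB3 _ _ _ _)

/-- scale invariance -/
theorem Od_scale {c c' : ℝ × ℝ × ℝ} {N : ℝ → ℝ → Prop} (k : ℝ) (hk : k ≠ 0)
    (hQ : ∀ x z, QF c' x z = k * QF c x z) : Od c' N ↔ Od c N :=
  Od_congr (fun x _ => x) (fun _ z => z) k hk (fun _ _ h => h)
    (fun x z h => ⟨x, z, h, rfl, rfl⟩) hQ (fun _ _ _ => Iff.rfl)

theorem N1_scale {d : Len} {t r : ℝ} (hr : r ≠ 0) (p q : ℝ) : N1 d t (r * p) (r * q) ↔ N1 d t p q := by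
  have h : ∀ p3 q3, N2 d (r * p) (r * q) p3 q3 ↔ N2 d p q p3 q3 := by
    intro p3 q3
    unfold N2
    refine Od_scale (r ^ 2) (pow_ne_zero 2 hr) fun x z => ?_
    unfold Len.fb3 QF fb
    ring
  unfold N1 Od
  simp only [h]

theorem prop_of_det {p q p' q' : ℝ} (h : NZ p q) (h' : NZ p' q') (e : p * q' = p' * q) :
    ∃ r, r ≠ 0 ∧ p = r * p' ∧ q = r * q' := by
  rcases h' with h' | h'
  · refine ⟨p / p', ?_, by field_simp, ?_⟩
    · rw [div_ne_zero_iff]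
      refine ⟨fun h0 => ?_, h'⟩
      rw [h0, zero_mul] at e
      have := (mul_eq_zero.1 e.symm).resolve_left h'
      rcases h with h | h
      · exact h h0
      · exact h this
    · field_simp
      linarith
  · refine ⟨q / q', ?_, ?_, by field_simp⟩
    · rw [div_ne_zero_iff]
      refine ⟨fun h0 => ?_, h'⟩
      rw [h0, mul_zero] at e
      have := (mul_eq_zero.1 e).resolve_right h'
      rcases h with h | h
      · exact h this
      · exact h h0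
    · field_simp
      linarith

end Sym

open Pool.Agent.TR23.Sym

/-- Job SYM1. -/
theorem sym1 : S_SYM1 := by
  intro d hd t ht
  have h0 : d.B0 ≠ 0 := (hd 0).ne'
  have hA2 : d.A2 ≠ 0 := (hd 2).ne'
  have hA3 : d.A3 ≠ 0 := (hd 3).ne'
  have h1 : d.B1 ≠ 0 := (hd 4).ne'
  have hB2 : d.B2 ≠ 0 := (hd 5).ne'
  have hB3 : d.B3 ≠ 0 := (hd 6).ne'
  unfold N0
  exact Od_congr (fA d.B0 d.A2) (gA d.B0) (d.A2 * d.B1 / t ^ 2) (by positivity)
    (fun x z h => nzA h0 hA2 h) (fun x z h => surjA h0 hA2 h)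
    (fun x z => qa_refl h0 ht _ _) (fun x z _ => N1_refl ht h0 h1 hA2 hA3 hB2 hB3 _ _)

/-- Job SYM2. -/
theorem sym2 : S_SYM2 := by
  intro d hd hg t htB hN
  have h0 : 0 < d.B0 := hd 0
  have hA2 : 0 < d.A2 := hd 2
  have hA3 : d.A3 ≠ 0 := (hd 3).ne'
  have h1 : 0 < d.B1 := hd 4
  have hB2 : d.B2 ≠ 0 := (hd 5).ne'
  have hB3 : d.B3 ≠ 0 := (hd 6).ne'
  have ht : t ≠ 0 := by
    rintro rfl
    rw [zero_pow two_ne_zero, mul_zero] at htB
    exact h1.ne htB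
  have htt : d.B1 / (d.B0 * t) = t := by
    rw [← htB]
    field_simp
  -- B1 ≠ B0
  have hne : d.B1 ≠ d.B0 := by
    obtain ⟨K, -, hK, hn⟩ := hg 4
    intro h
    apply hn
    change d.B1 ∈ K
    rw [h]
    exact hK 0 (by decide)
  have ht1 : t ≠ 1 := by
    rintro rfl
    rw [one_pow, mul_one] at htB
    exact hne htB.symm
  obtain ⟨⟨p, q, hpq, hQ, hN1⟩, p', q', hpq', hQ', hN1'⟩ := hN
  -- the reflected root
  have hQ3 : QF (d.qa2 t) (fA d.B0 d.A2 p q) (gA d.B0 p q) = 0 := by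
    have := qa_refl (B0 := d.B0) (B1 := d.B1) (A := d.A2) (e := d.e21) (t := t) h0.ne' ht p q
    rw [htt] at this
    unfold Len.qa2 at hQ ⊢
    rw [this, hQ, mul_zero]
  have hN3 : N1 d t (fA d.B0 d.A2 p q) (gA d.B0 p q) := by
    have := N1_refl (d := d) ht h0.ne' h1.ne' hA2.ne' hA3 hB2 hB3 p q
    rw [htt] at this
    exact this.2 hN1
  have hnz3 := nzA (B0 := d.B0) (A := d.A2) h0.ne' hA2.ne' hpq
  -- at most two root lines
  have h11 : QF (d.qa2 t) 1 1 ≠ 0 := by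
    have e : QF (d.qa2 t) 1 1 = -(d.A2 * t * (1 - t)) := by
      unfold QF Len.qa2 qa
      ring
    rw [e, neg_ne_zero]
    exact mul_ne_zero (mul_ne_zero hA2.ne' ht) (sub_ne_zero.2 ht1.symm)
  have hdet : p * q' - p' * q ≠ 0 := by
    intro h
    obtain ⟨r, hr, e1, e2⟩ := prop_of_det hpq hpq' (by linarith)
    apply hN1'
    rw [e1, e2, N1_scale hr] at hN1
    exact hN1
  obtain ⟨p3, hp3⟩ : ∃ p3, p3 = fA d.B0 d.A2 p q := ⟨_, rfl⟩
  obtain ⟨q3, hq3⟩ : ∃ q3, q3 = gA d.B0 p q := ⟨_, rfl⟩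
  rw [← hp3, ← hq3] at hQ3 hN3 hnz3
  have hmain : (p3 * q' - p' * q3) * (p * q3 - p3 * q) = 0 := by
    obtain ⟨c, hc⟩ : ∃ c, c = d.qa2 t := ⟨_, rfl⟩
    rw [← hc] at hQ hQ' hQ3 h11
    obtain ⟨M, hM⟩ : ∃ M, M = 2 * c.1 * p * p' + c.2.1 * (p * q' + p' * q) + 2 * c.2.2 * q * q' :=
      ⟨_, rfl⟩
    have e1 : (q' - p') * (p - q) * M = (p * q' - p' * q) ^ 2 * QF c 1 1 -
        (q' - p') ^ 2 * QF c p q - (p - q) ^ 2 * QF c p' q' := by
      rw [hM]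
      unfold QF
      ring
    have e2 : (p3 * q' - p' * q3) * (p * q3 - p3 * q) * M = (p * q' - p' * q) ^ 2 * QF c p3 q3 -
        (p3 * q' - p' * q3) ^ 2 * QF c p q - (p * q3 - p3 * q) ^ 2 * QF c p' q' := by
      rw [hM]
      unfold QF
      ring
    rw [hQ, hQ', mul_zero, mul_zero, sub_zero, sub_zero] at e1
    rw [hQ, hQ', hQ3, mul_zero, mul_zero, mul_zero, sub_zero, sub_zero] at e2
    have hM0 : M ≠ 0 := by
      rintro h
      rw [h, mul_zero] at e1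
      exact mul_ne_zero (pow_ne_zero 2 hdet) h11 e1.symm
    exact (mul_eq_zero.1 e2).resolve_right hM0
  rcases mul_eq_zero.1 hmain with h2 | h2
  · obtain ⟨r, hr, e1, e2⟩ := prop_of_det hnz3 hpq' (by linarith)
    apply hN1'
    rw [e1, e2, N1_scale hr] at hN3
    exact hN3
  · -- a fixed line
    have h3 : d.B0 * (p - q) ^ 2 = d.A2 * q ^ 2 := by
      rw [hp3, hq3] at h2
      unfold fA gA at h2
      linear_combination h2
    have hq : q ≠ 0 := by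
      rintro rfl
      rw [sub_zero, zero_pow two_ne_zero, mul_zero] at h3
      have hp : p = 0 := by
        have := (mul_eq_zero.1 h3).resolve_left h0.ne'
        exact pow_eq_zero_iff two_ne_zero |>.1 this
      rcases hpq with h | h
      · exact h hp
      · exact h rfl
    obtain ⟨K, hK, hm, hn⟩ := hg 9
    have m0 : d.B0 ∈ K := hm 0 (by decide)
    have m2 : d.A2 ∈ K := hm 2 (by decide)
    have m4 : d.B1 ∈ K := hm 4 (by decide)
    obtain ⟨u, hu⟩ : ∃ u, u = p / q := ⟨_, rfl⟩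
    have hpu : p = u * q := by rw [hu]; field_simp
    have h4 : d.B0 * (u - 1) ^ 2 = d.A2 := by
      have : (d.B0 * (u - 1) ^ 2 - d.A2) * q ^ 2 = 0 := by
        rw [hpu] at h3
        linear_combination h3
      have := (mul_eq_zero.1 this).resolve_right (pow_ne_zero 2 hq)
      linarith
    have hu1 : u - 1 ≠ 0 := by
      intro h
      rw [h, zero_pow two_ne_zero, mul_zero] at h4
      exact hA2.ne h4
    have mu : u ∈ K := by
      refine hK d.B0 (-(2 * d.B0)) (d.B0 - d.A2) u m0 ?_ (sub_mem m0 m2) (Or.inl h0.ne') ?_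
      · rw [two_mul]
        exact neg_mem (add_mem m0 m0)
      · linear_combination h4
    have mt : t ∈ K := by
      refine hK d.B0 0 (-d.B1) t m0 (zero_mem K) (neg_mem m4) (Or.inl h0.ne') ?_
      linear_combination htB
    apply hn
    change d.e21 ∈ K
    have h5 : d.e21 = (t * (d.B1 + d.A2 - d.B0 * t) * (u - 1) + d.A2 * t * (1 - t) -
        (d.B1 - d.B0 * t) * (u ^ 2 - u)) / (t * (u - 1)) := by
      rw [eq_div_iff (mul_ne_zero ht hu1)]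
      have h6 : (d.e21 * (t * (u - 1)) - (t * (d.B1 + d.A2 - d.B0 * t) * (u - 1) +
          d.A2 * t * (1 - t) - (d.B1 - d.B0 * t) * (u ^ 2 - u))) * q ^ 2 = 0 := by
        have h7 : QF (d.qa2 t) (u * q) q = 0 := by rw [← hpu]; exact hQ
        unfold QF Len.qa2 qa at h7
        dsimp only at h7
        linear_combination h7
      have := (mul_eq_zero.1 h6).resolve_right (pow_ne_zero 2 hq)
      linarith
    rw [h5]
    have one : (1 : ℝ) ∈ K := one_mem K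
    exact div_mem (sub_mem (add_mem (mul_mem (mul_mem mt (sub_mem (add_mem m4 m2)
      (mul_mem m0 mt))) (sub_mem mu one)) (mul_mem (mul_mem m2 mt) (sub_mem one mt)))
      (mul_mem (sub_mem m4 (mul_mem m0 mt)) (sub_mem (pow_mem mu 2) mu)))
      (mul_mem mt (sub_mem mu one))

end Pool.Agent.TR23
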