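import Mathlib

/-!
# Project TR23 (helper23): MP_01c1f4_co, frozen statement S06894 (Thurston's question, negative answer)

The graph is `K_{4,4}` minus three disjoint edges: `a0 a1 a2 a3 | b0 b1 b2 b3`, all pairs `a_i b_j` except
`a_i b_i` for `i = 1, 2, 3` (13 edges). The 13 squared lengths are the structure `Len`:
`B_j = |a0 b_j|²`, `A_i = |a_i b0|²`, `eij = |a_i b_j|²`.

For every generic real realisation there is a solution of the 13 equations in the real Minkowski plane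
(form `x y` in null coordinates), theorem `S_EX`. It gives a complex, not real, realisation.

Normalisation (null coordinates): `a0 = (0, 0)`, `b0 = (1, B0)`, `b1 = (t, B1 / t)`, `b_k = (x, B_k / x)` with
`x` given by a point `(x : z)` of the projective line, `a_i = (u, v)`, `(u - 1) (v - B0) = A_i`, with `u` given
by a point `(p : q)`.

* `qa`: the quadratic form in `(p, q)` whose roots are the `a_i` (`i = 2, 3`) at the right distances from `b0`, `b1`;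
* `fb`: the form in `(x, z)` whose roots are the `b_k` at the right distances from `a0` and `a_i = (p : q)`;
* `pp`: the form in `(u, w)` whose roots are the `a1` at the right distances from `b0` and `b_k = (x : z)`.

The functions are homogeneous, so everything makes sense on projective lines; we work with nonzero vectors.
All statements named `S_...` are the jobs (one theorem each, in a separate file).
-/

set_option autoImplicit false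
set_option linter.all false

open Filter Topology

namespace Pool.Agent.TR23

/-! ### Lengths and genericity -/

/-- The 13 squared lengths. -/
@[ext] structure Len where
  B0 : ℝ
  A1 : ℝ
  A2 : ℝ
  A3 : ℝ
  B1 : ℝ
  B2 : ℝ
  B3 : ℝ
  e12 : ℝ
  e13 : ℝ
  e21 : ℝ
  e23 : ℝ
  e31 : ℝ
  e32 : ℝ

namespace Len

/-- the vector of the lengths -/
def vec (d : Len) : Fin 13 → ℝ :=
  ![d.B0, d.A1, d.A2, d.A3, d.B1, d.B2, d.B3, d.e12, d.e13, d.e21, d.e23, d.e31, d.e32]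

/-- exchange of the indices `2` and `3` -/
def swap (d : Len) : Len :=
  ⟨d.B0, d.A1, d.A3, d.A2, d.B1, d.B3, d.B2, d.e13, d.e12, d.e31, d.e32, d.e21, d.e23⟩

/-- all lengths are positive -/
def Pos (d : Len) : Prop := ∀ k, 0 < d.vec k

end Len

/-- A subfield of `ℝ` which contains all real roots of nonzero polynomials of degree at most two over it. -/
def QC (K : Subfield ℝ) : Prop := ∀ a b c x : ℝ, a ∈ K → b ∈ K → c ∈ K → (a ≠ 0 ∨ b ≠ 0 ∨ c ≠ 0) →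
  a * x ^ 2 + b * x + c = 0 → x ∈ K

/-- Genericity of the lengths: for each of them there is a quadratically closed field which contains the others,
but not this one. -/
def Gen (d : Len) : Prop := ∀ k : Fin 13, ∃ K : Subfield ℝ, QC K ∧ (∀ j, j ≠ k → d.vec j ∈ K) ∧ d.vec k ∉ K

/-- A solution in the real Minkowski plane. -/
def Sol (d : Len) : Prop := ∃ u1 v1 u2 v2 u3 v3 x1 y1 x2 y2 x3 y3 : ℝ,
  x1 * y1 = d.B1 ∧ x2 * y2 = d.B2 ∧ x3 * y3 = d.B3 ∧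
  (u1 - 1) * (v1 - d.B0) = d.A1 ∧ (u2 - 1) * (v2 - d.B0) = d.A2 ∧ (u3 - 1) * (v3 - d.B0) = d.A3 ∧
  (u1 - x2) * (v1 - y2) = d.e12 ∧ (u1 - x3) * (v1 - y3) = d.e13 ∧
  (u2 - x1) * (v2 - y1) = d.e21 ∧ (u2 - x3) * (v2 - y3) = d.e23 ∧
  (u3 - x1) * (v3 - y1) = d.e31 ∧ (u3 - x2) * (v3 - y2) = d.e32

/-! ### The forms -/

/-- a binary quadratic form (triple of coefficients) -/
def QF (c : ℝ × ℝ × ℝ) (x z : ℝ) : ℝ := c.1 * x ^ 2 + c.2.1 * x * z + c.2.2 * z ^ 2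

/-- a nonzero vector -/
def NZ (x z : ℝ) : Prop := x ≠ 0 ∨ z ≠ 0

/-- `a_i` from `b0 = (1, B0)`, `b1 = (t, B1 / t)` -/
def qa (B0 B1 A e t : ℝ) : ℝ × ℝ × ℝ :=
  (B1 - B0 * t, -(t * (B1 - e + A - B0 * t) + (B1 - B0 * t)), t * (B1 - e + A - B0 * t) - A * t * (1 - t))

/-- `b_k` from `a0 = (0, 0)` and `a_i = (p : q)` -/
def fb (B0 A B e p q : ℝ) : ℝ × ℝ × ℝ :=
  (q * (B0 * (p - q) + A * q), -(p * (B0 * (p - q) + A * q) + (B - e) * q * (p - q)), B * p * (p - q))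

/-- `a1` from `b0` and `b_k = (x : z)`; here `g1 = B0 - A1` and `g = B_k - e1k` -/
def pp (B0 g1 B g x z : ℝ) : ℝ × ℝ × ℝ :=
  (B0 * x * z - B * z ^ 2, g * x * z - g1 * x * z + B * z ^ 2 - B0 * x ^ 2, g1 * x ^ 2 - g * x * z)

/-- the resultant of two binary quadratic forms -/
def res (c k : ℝ × ℝ × ℝ) : ℝ :=
  (c.1 * k.2.2 - c.2.2 * k.1) ^ 2 - (c.1 * k.2.1 - c.2.1 * k.1) * (c.2.1 * k.2.2 - c.2.2 * k.2.1)

namespace Len

/-- `a2` from `b1` -/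
def qa2 (d : Len) (t : ℝ) : ℝ × ℝ × ℝ := qa d.B0 d.B1 d.A2 d.e21 t
/-- `a3` from `b1` -/
def qa3 (d : Len) (t : ℝ) : ℝ × ℝ × ℝ := qa d.B0 d.B1 d.A3 d.e31 t
/-- `b3` from `a2 = (p : q)` -/
def fb3 (d : Len) (p q : ℝ) : ℝ × ℝ × ℝ := fb d.B0 d.A2 d.B3 d.e23 p q
/-- `b2` from `a3 = (p : q)` -/
def fb2 (d : Len) (p q : ℝ) : ℝ × ℝ × ℝ := fb d.B0 d.A3 d.B2 d.e32 p q
/-- `a1` from `b2` -/
def pp2 (d : Len) (x z : ℝ) : ℝ × ℝ × ℝ := pp d.B0 (d.B0 - d.A1) d.B2 (d.B2 - d.e12) x z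
/-- `a1` from `b3` -/
def pp3 (d : Len) (x z : ℝ) : ℝ × ℝ × ℝ := pp d.B0 (d.B0 - d.A1) d.B3 (d.B3 - d.e13) x z
/-- the resultant for `b2 = (x2 : z2)`, `b3 = (x3 : z3)`; if it is negative then both forms have real roots and
these separate each other -/
def R (d : Len) (x2 z2 x3 z3 : ℝ) : ℝ := res (d.pp2 x2 z2) (d.pp3 x3 z3)

end Len

/-- exactly one of the two root lines of the form `c` has the property `N` -/
def Od (c : ℝ × ℝ × ℝ) (N : ℝ → ℝ → Prop) : Prop :=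
  (∃ x z, NZ x z ∧ QF c x z = 0 ∧ N x z) ∧ (∃ x z, NZ x z ∧ QF c x z = 0 ∧ ¬ N x z)

def N3 (d : Len) (p3 q3 x3 z3 : ℝ) : Prop := Od (d.fb2 p3 q3) fun x2 z2 => d.R x2 z2 x3 z3 < 0
def N2 (d : Len) (p2 q2 p3 q3 : ℝ) : Prop := Od (d.fb3 p2 q2) fun x3 z3 => N3 d p3 q3 x3 z3
def N1 (d : Len) (t p2 q2 : ℝ) : Prop := Od (d.qa3 t) fun p3 q3 => N2 d p2 q2 p3 q3
/-- the parity of the number of branches (over `b1 = (t, B1 / t)`) with a negative resultant is odd -/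
def N0 (d : Len) (t : ℝ) : Prop := Od (d.qa2 t) fun p2 q2 => N1 d t p2 q2

/-- the forms for `a1` from `b2 = (x2 : z2)` and `b3 = (x3 : z3)` have no common real root line -/
def NC (d : Len) (x2 z2 x3 z3 : ℝ) : Prop :=
  ∀ u w, NZ u w → QF (d.pp2 x2 z2) u w = 0 → QF (d.pp3 x3 z3) u w ≠ 0

/-- no solution (also not at infinity) over `a2 = (p2 : q2)`, `a3 = (p3 : q3)` -/
def G2 (d : Len) (p2 q2 p3 q3 : ℝ) : Prop := ∀ x3 z3 x2 z2, NZ x3 z3 → NZ x2 z2 →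
  QF (d.fb3 p2 q2) x3 z3 = 0 → QF (d.fb2 p3 q3) x2 z2 = 0 → NC d x2 z2 x3 z3

/-! ### Job TOP (topology) -/

/-- **Job TOP, part 4.** If `R ≠ 0`: continuity. If `R = 0` (so not `< 0`): one of the two forms has negative
discriminant (otherwise there is a common real root: `4 c₂² Res = (2 c₂ n - c₁ m)² - disc m²` with
`m = c₂ k₁ - c₁ k₂`, `n = c₂ k₀ - c₀ k₂`; if `disc c ≥ 0`, `c₂ ≠ 0` then `Res = c₂² k(r₁) k(r₂)` for the real roots;
`c₂ = 0`: `Res = k(1,0) k(-c₀, c₁)`), and this stays so in a neighbourhood, where `Res ≥ 0` by the same formula. -/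
def S_TOP4 : Prop := ∀ d : Len, ∀ x2 z2 x3 z3 : ℝ, NZ x2 z2 → NZ x3 z3 → NC d x2 z2 x3 z3 →
  ∀ᶠ y : (ℝ × ℝ) × (ℝ × ℝ) in 𝓝 ((x2, z2), (x3, z3)),
    (d.R y.1.1 y.1.2 y.2.1 y.2.2 < 0 ↔ d.R x2 z2 x3 z3 < 0)

/-- **Job TOP, the general lemma.** Let the coefficients `c : X → ℝ × ℝ × ℝ` be continuous at `x₀`,
`c x₀ ≠ 0`, `N x` scale invariant, and `N` locally constant at all roots: then `Od (c x) (N x)` is locally
constant at `x₀`. Proof. Compactness of the unit circle: for `x` near `x₀` every unit root `w` of `c x` is near a unit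
root `w₀` of `c x₀`, so `N x w ↔ N x₀ w₀`; so if at `x₀` all roots have the same status (or there are none) then the
same holds nearby and both sides are false. If at `x₀` one root is in `N` and another one is not, then
`disc (c x₀) > 0`; the two root lines are represented by `(-b ± √D, 2a)` or, if this vector vanishes, by
`(2c, -b ∓ √D)`, which are continuous at `x₀`; so the nearby forms have roots near both, and the right side and the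
left side are both true. -/
def S_ODLC : Prop := ∀ (X : Type) [TopologicalSpace X] (x₀ : X) (c : X → ℝ × ℝ × ℝ) (N : X → ℝ → ℝ → Prop),
  ContinuousAt c x₀ → c x₀ ≠ 0 → (∀ x p q r, r ≠ 0 → (N x (r * p) (r * q) ↔ N x p q)) →
  (∀ p q, NZ p q → QF (c x₀) p q = 0 → ∀ᶠ y : X × (ℝ × ℝ) in 𝓝 (x₀, (p, q)),
    (N y.1 y.2.1 y.2.2 ↔ N x₀ p q)) →
  ∀ᶠ x in 𝓝 x₀, (Od (c x) (N x) ↔ Od (c x₀) (N x₀))

/-- **Job TOP2.** From `S_TOP4` and `S_ODLC` (twice). The coefficients of `fb` do not all vanish, as `A ≠ B0`. -/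
def S_TOP2 : Prop := ∀ d : Len, d.Pos → d.A2 ≠ d.B0 → d.A3 ≠ d.B0 → ∀ p2 q2 p3 q3 : ℝ, NZ p2 q2 → NZ p3 q3 →
  G2 d p2 q2 p3 q3 → ∀ᶠ y : (ℝ × ℝ) × (ℝ × ℝ) in 𝓝 ((p2, q2), (p3, q3)),
    (N2 d y.1.1 y.1.2 y.2.1 y.2.2 ↔ N2 d p2 q2 p3 q3)

/-- **Job TOP2, second half.** From `S_TOP2` and `S_ODLC` (twice). -/
def S_TOP0 : Prop := ∀ d : Len, d.Pos → d.A2 ≠ d.B0 → d.A3 ≠ d.B0 → ∀ t : ℝ, d.B0 * t ≠ d.B1 →
  (∀ p2 q2 p3 q3, NZ p2 q2 → NZ p3 q3 → QF (d.qa2 t) p2 q2 = 0 → QF (d.qa3 t) p3 q3 = 0 → G2 d p2 q2 p3 q3) →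
  ∀ᶠ t' in 𝓝 t, (N0 d t' ↔ N0 d t)

/-! ### Job CASE (no solution at infinity) -/

/-- **Job CASE1.** No common real root of the forms for `a1`, for all real `t ≠ 0, B1 / B0` and finite `a2`, `a3`.
As `B0 t ≠ B1`, `q2, q3 ≠ 0`; write `u_i = p_i / q_i ≠ 1`. Let `(u : w)` be a common root.
Useful: `pp (1,1) = A1 x (z - x)`; `pp (1,0) = z (B0 x - B z)`; `fb` at `(0,1)`, `(1,0)`, `(1,1)` is `B p (p - q)`,
`q V`, `(p - q) ((B - B0) (p - q) + (e - A) q)` with `V = B0 (p - q) + A q`; `qa` at `(1, 1)` is `-A t (1 - t)`; `qa`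
at `(u, 1)` is a nonzero quadratic polynomial in `t` with coefficients in `ℚ(B0, B1, A, e, u)`, so `u ∈ K` gives `t ∈ K`;
and it is linear in `e` with coefficient `t (u - 1)`.
(1) `b2`, `b3`, `a1` finite (`x_k, z_k ≠ 0`, `u ≠ w`, `w ≠ 0`): a solution, `Sol d`.
(2) `b3 = (0 : 1)`: then `p2 = 0`, `t ∈ K` for every `K` with `B0, B1, A2, e21 ∈ K`, and the common root is `0` or `1`.
  `0`: `x2 (g1 x2 - g2 z2) = 0`; `x2 = 0` gives `p3 = 0` and `e31 ∈ K` (`k = e31`); else `e12 = B2 - g1 x2 / z2 ∈ K`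
  (`k = e12`, `u3, x2 / z2 ∈ K` by `QC`). `1`: `x2 = 0` (as before) or `x2 = z2`, which gives
  `(B2 - B0) (u3 - 1) = A3 - e32`, so `e32 ∈ K`, `k = e32`.
(3) `b3 = (1 : 0)`: `V2 = 0`, `u2 = 1 - A2 / B0`, `t ∈ K`; the common root is `∞` or `g1 / B0`. `∞`: `z2 = 0` gives
  `u3 = 1 - A3 / B0` and `e31 ∈ K`; or `B0 x2 = B2 z2`, which gives `e32 ∈ K`. `g1 / B0`: gives `e12 ∈ K`.
(4) `b2` at infinity: the same (use `Len.swap`).
(5) `b2`, `b3` finite, `a1 = (1 : 1)`: `x2 = z2`, `x3 = z3`, so `u2 - 1 = (A2 - e23) / (B3 - B0) ∈ K`, `t ∈ K`, `u3 ∈ K`,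
  `e32 ∈ K`, `k = e32`. `a1 = (1 : 0)`: `B0 x2 = B2 z2`, `B0 x3 = B3 z3`, the same with
  `(u2 - B3 / B0) A2 = e23 (u2 - 1)`. -/
def S_CASE1 : Prop := ∀ d : Len, d.Pos → Gen d → ¬ Sol d → ∀ t p2 q2 p3 q3 : ℝ, t ≠ 0 → d.B0 * t ≠ d.B1 →
  NZ p2 q2 → NZ p3 q3 → QF (d.qa2 t) p2 q2 = 0 → QF (d.qa3 t) p3 q3 = 0 → p2 ≠ q2 → p3 ≠ q3 →
  G2 d p2 q2 p3 q3

/-- **Job CASE2.** `t = 1`, `a2 = (1 : 1)`, `a3` finite: `u3 - 1 = (A3 - e31) / (B1 - B0)`, `b3 = (0 : 1)` or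
`(1 : 1)`. Subcases: `b3 = (0 : 1)`: common root `0` or `1`; `0`: `x2 = 0` gives `u3 = 0`, `e31 ∈ K`; else `e12 ∈ K`.
`1`: `x2 = 0` or `x2 = z2`, `e32 ∈ K`. `b3 = (1 : 1)`: `pp3 = (u - w) ((B0 - B3) u - (g1 - g3) w)`; root `1`: as before;
other root: `pp2` there is linear in `e12` with the coefficient `x2 z2 (w - u) w ≠ 0`, unless `x2 = 0` (`u3 = 0`) or
`z2 = 0` (`u3 = 1 - A3 / B0`, `e31 ∈ K`). And the same with `2` and `3` exchanged. -/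
def S_CASE2 : Prop := ∀ d : Len, d.Pos → Gen d → ∀ p q : ℝ, NZ p q → p ≠ q →
  (QF (d.qa3 1) p q = 0 → G2 d 1 1 p q) ∧ (QF (d.qa2 1) p q = 0 → G2 d p q 1 1)

/-! ### Job SYM (the reflection) -/

/-- **Job SYM1.** The reflection `(x, y) ↦ (y / B0, B0 x)`: `t ↦ B1 / (B0 t)`, `(p, q) ↦ (B0 (p - q) + A q, B0 (p - q))`
for `a_i` (invertible: determinant `- A B0`), `(x, z) ↦ (B z, B0 x)` for `b_k`. `qa` is multiplied by `A B1 / t²`, `fb` by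
a nonzero constant (`A B B0²`), and `R` by `B2² B3² B0⁴`. -/
def S_SYM1 : Prop := ∀ d : Len, d.Pos → ∀ t : ℝ, t ≠ 0 → (N0 d (d.B1 / (d.B0 * t)) ↔ N0 d t)

/-- **Job SYM2.** At the fixed points `t = ± √(B1 / B0)`: the reflection exchanges the two root lines of `qa2`
(a fixed line gives `B0 (u - 1)² = A2`, so `u ∈ K`, `t ∈ K`, `e21 ∈ K`) and `N1 d t` has the same value at both. -/
def S_SYM2 : Prop := ∀ d : Len, d.Pos → Gen d → ∀ t : ℝ, d.B0 * t ^ 2 = d.B1 → ¬ N0 d t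

/-! ### Jobs L0, L1 (the special points `t = 0`, `t = 1`) -/

/-- the two roots `r τ ≠ r' τ` of `c τ` near `0` (affine: `z = 1`) -/
def Roots (c : ℝ → ℝ × ℝ × ℝ) (r r' : ℝ → ℝ) : Prop :=
  ∀ᶠ τ in 𝓝[≠] (0 : ℝ), (c τ).1 ≠ 0 ∧ r τ ≠ r' τ ∧
    ∀ x z, QF (c τ) x z = (c τ).1 * (x - r τ * z) * (x - r' τ * z)

/-- `f τ / τ ^ k → L` -/
def Ord (f : ℝ → ℝ) (k : ℕ) (L : ℝ) : Prop := Tendsto (fun τ => f τ / τ ^ k) (𝓝[≠] (0 : ℝ)) (𝓝 L)

/-- **Job LA.** `a_i` near `t = 0` and near `t = 1`. Exact: `u - 1 = A t (1 - t) / ((B1 - B0 t) u - t (B1 - e + A - B0 t))`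
and `(B1 - B0 t) u / t = (B1 - e + A - B0 t) + A (1 - t) / (u - 1)`. -/
def S_LA : Prop := ∀ B0 B1 A e : ℝ, 0 < B0 → 0 < B1 → 0 < A → 0 < e → B1 ≠ e → A ≠ e → B1 ≠ B0 →
  B1 - B0 ≠ B1 - e + A - B0 →
  (∃ uO uQ : ℝ → ℝ, Roots (fun t => qa B0 B1 A e t) uO uQ ∧ Ord uO 1 ((B1 - e) / B1) ∧
    Ord (fun t => uQ t - 1) 1 (A / B1) ∧
    (∀ᶠ t in 𝓝[≠] (0 : ℝ), (uQ t - t) * ((B0 + A / (uQ t - 1)) - B1 / t) = e ∧ uQ t ≠ 1)) ∧
  (∃ uO uQ : ℝ → ℝ, Roots (fun τ => qa B0 B1 A e (1 + τ)) uO uQ ∧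
    Tendsto uO (𝓝[≠] (0 : ℝ)) (𝓝 (1 + (A - e) / (B1 - B0))) ∧ Ord (fun t => uQ t - 1) 1 (A / (A - e)))

/-- **Job LB.** `b_k` for `a_i → (1 : 1)` (branches `J`: `x → 0`, `N`: `x → 1`) and for `a_i → (0 : 1)` (branches `J`, `F`). -/
def S_LB : Prop := ∀ B0 A B e : ℝ, 0 < B0 → 0 < A → 0 < B → 0 < e → A ≠ e → B ≠ e → A ≠ B0 →
  (∀ (u : ℝ → ℝ) (ω : ℝ), ω ≠ 0 → Ord (fun τ => u τ - 1) 1 ω →
    ∃ xJ xN : ℝ → ℝ, Roots (fun τ => fb B0 A B e (u τ) 1) xJ xN ∧ Ord xJ 1 (B * ω / A) ∧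
      Ord (fun τ => xN τ - 1) 1 ((A - e) * ω / A) ∧
      (∀ᶠ τ in 𝓝[≠] (0 : ℝ), xJ τ ≠ 0 ∧ (u τ - xJ τ) * ((B0 + A / (u τ - 1)) - B / xJ τ) = e)) ∧
  (∀ (u : ℝ → ℝ) (ω : ℝ), ω ≠ 0 → Ord u 1 ω →
    ∃ xJ xF : ℝ → ℝ, Roots (fun τ => fb B0 A B e (u τ) 1) xJ xF ∧ Ord xJ 1 (B * ω / (B - e)) ∧
      Tendsto xF (𝓝[≠] (0 : ℝ)) (𝓝 ((B - e) / (B0 - A))))

/-- **Job LR.** Expansions of the resultant; `g1 = B0 - A1`, `g2 = B2 - e12`, `g3 = B3 - e13`. -/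
def S_LR : Prop := ∀ (d : Len) (x2 x3 : ℝ → ℝ),
  (∀ ξ2 ξ3 : ℝ, Ord x2 1 ξ2 → Ord x3 1 ξ3 → Ord (fun τ => d.R (x2 τ) 1 (x3 τ) 1) 2
    (-d.A1 * (d.B2 * (d.B3 - d.e13) * ξ3 - d.B3 * (d.B2 - d.e12) * ξ2) * (d.B2 * ξ3 - d.B3 * ξ2))) ∧
  (∀ ξ2 ξ3 κ : ℝ, Ord x2 1 ξ2 → Ord x3 1 ξ3 → Ord (fun τ => d.B2 * x3 τ - d.B3 * x2 τ) 2 (ξ2 * ξ3 * κ) →
    ∀ β : ℝ, β ≠ 0 → ξ2 = d.B2 / β → ξ3 = d.B3 / β →
    Ord (fun τ => d.R (x2 τ) 1 (x3 τ) 1) 3
      (-d.A1 * ξ2 ^ 2 * ξ3 ^ 2 * β * ((d.B2 - d.e12) - (d.B3 - d.e13)) * (d.e13 - d.e12 - κ))) ∧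
  (∀ ξ2 ν3 : ℝ, Ord x2 1 ξ2 → Ord (fun τ => x3 τ - 1) 1 ν3 → Ord (fun τ => d.R (x2 τ) 1 (x3 τ) 1) 1
    (-d.A1 * d.B2 * ((d.B0 - d.A1) - (d.B3 - d.e13)) *
      ((d.e13 - d.A1) * ξ2 + d.B2 * ν3))) ∧
  (∀ ξ3 ν2 : ℝ, Ord (fun τ => x2 τ - 1) 1 ν2 → Ord x3 1 ξ3 → Ord (fun τ => d.R (x2 τ) 1 (x3 τ) 1) 1
    (-d.A1 * d.B3 * ((d.B0 - d.A1) - (d.B2 - d.e12)) *
      ((d.e12 - d.A1) * ξ3 + d.B3 * ν2))) ∧
  (∀ ν2 ν3 : ℝ, Ord (fun τ => x2 τ - 1) 1 ν2 → Ord (fun τ => x3 τ - 1) 1 ν3 →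
    Ord (fun τ => d.R (x2 τ) 1 (x3 τ) 1) 1
    (-d.A1 * (d.B2 * ((d.B0 - d.A1) - (d.B3 - d.e13)) - d.B3 * ((d.B0 - d.A1) - (d.B2 - d.e12)) -
      d.B0 * ((d.B2 - d.e12) - (d.B3 - d.e13))) * ((d.A1 - d.e13) * ν2 - (d.A1 - d.e12) * ν3)))

/-- **Job L1.** At `t = 1` the parity changes: over `(a2, a3) → ((1:1), (1:1))` (branch `QQ`) three of the four resultants
change sign (`JN`, `NJ`, `NN`, order 1; `JJ` has order 2), over the other three pairs nothing changes (`S_TOP2`, `S_CASE2`,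
and `S_CASE1` at `t = 1`). -/
def S_L1 : Prop := ∀ d : Len, d.Pos → Gen d → ¬ Sol d →
  ∀ᶠ ε in 𝓝[>] (0 : ℝ), (N0 d (1 - ε) ↔ ¬ N0 d (1 + ε))

/-- **Job L0.** At `t = 0` the parity does not change: the resultants of the branches
`QQ`: `JJ` (order 3), `JN`, `NJ`, `NN` (order 1); `QO`: `NJ` (order 1); `OQ`: `JN` (order 1) change the sign (an even number
in all); the others (`OO`, `QO`, `OQ`: `JJ`, order 2; and those with an `F`, by `S_TOP4`) do not. -/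
def S_L0 : Prop := ∀ d : Len, d.Pos → Gen d → ∀ᶠ ε in 𝓝[>] (0 : ℝ), (N0 d (-ε) ↔ N0 d ε)

/-! ### The existence theorem -/

/-- Existence of a solution in the Minkowski plane (assembled by helper23). -/
def S_EX : Prop := ∀ d : Len, d.Pos → Gen d → Sol d

/-! ### Rigidity and algebraic independence

The vertices `0, …, 7` of the graph are `a0, a1, a2, a3, b0, b1, b2, b3`. -/

/-- the 13 edges -/
def edg : List (Fin 8 × Fin 8) :=
  [(0, 4), (1, 4), (2, 4), (3, 4), (0, 5), (0, 6), (0, 7), (1, 6), (1, 7), (2, 5), (2, 7), (3, 5), (3, 6)]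

/-- squared distance -/
def sq (p : Fin 8 → Fin 2 → ℝ) (i j : Fin 8) : ℝ := ∑ k, (p i k - p j k) ^ 2

/-- the lengths of a realisation -/
def lens (p : Fin 8 → Fin 2 → ℝ) : Len :=
  ⟨sq p 0 4, sq p 1 4, sq p 2 4, sq p 3 4, sq p 0 5, sq p 0 6, sq p 0 7, sq p 1 6, sq p 1 7, sq p 2 5, sq p 2 7,
    sq p 3 5, sq p 3 6⟩

/-- generic realisations -/
def GenP (p : Fin 8 → Fin 2 → ℝ) : Prop := AlgebraicIndependent ℚ (fun x : Fin 8 × Fin 2 => p x.1 x.2)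

/-- `(p i - p j) × (p i - p k)` -/
def cr (p : Fin 8 → Fin 2 → ℝ) (i j k : Fin 8) : ℝ :=
  (p i 0 - p j 0) * (p i 1 - p k 1) - (p i 1 - p j 1) * (p i 0 - p k 0)

/-- The rigidity determinant: with `u(a_i) - u(b0) = α_i rot (a_i - b0)`, `u(b_j) - u(a0) = β_j rot (b_j - a0)`,
the edge `a_i b_j` gives `α_i c_ij = β_j c'_ij`, `c_ij = cr a_i b_j b0`, `c'_ij = (a_i - b_j) × (b_j - a0) = - cr b_j a_i a0`;
going once around the hexagon gives `α_i Δ = 0`, and the same for all `β_j`. -/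
def Delta (p : Fin 8 → Fin 2 → ℝ) : ℝ :=
  cr p 1 6 4 * cr p 6 3 0 * cr p 3 5 4 * cr p 5 2 0 * cr p 2 7 4 * cr p 7 1 0 -
    cr p 6 1 0 * cr p 3 6 4 * cr p 5 3 0 * cr p 2 5 4 * cr p 7 2 0 * cr p 1 7 4

/-- **Job RIG.** (1) `Delta p ≠ 0` and `sq p 0 4 ≠ 0` imply infinitesimal rigidity (subtract the infinitesimal
motion given by `u 0` and the rotation, so that `u 0 = u 4 = 0`). (2) `Delta p ≠ 0` for generic `p` (a polynomial over
`ℚ`, nonzero at one rational point). -/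
def S_RIG : Prop := (∀ p u : Fin 8 → Fin 2 → ℝ, Delta p ≠ 0 → sq p 0 4 ≠ 0 →
    (∀ x ∈ edg, ∑ k, (p x.1 k - p x.2 k) * (u x.1 k - u x.2 k) = 0) →
    ∀ i j, ∑ k, (p i k - p j k) * (u i k - u j k) = 0) ∧
  (∀ p : Fin 8 → Fin 2 → ℝ, GenP p → Delta p ≠ 0)

/-- **Job IND.** The lengths of a generic realisation are algebraically independent. Proof: let `P (lens p) = 0`, `P ≠ 0`
over `ℚ`; then `P ∘ lens` is the zero polynomial in the 16 coordinates, so `P` vanishes on the image of `lens`. In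
the slice `a0 = (0, 0)`, `b0 = (z, 0)` (13 coordinates) the derivative of `lens` is injective, so bijective, at a
point with `Delta ≠ 0`, `z ≠ 0` (S_RIG (1): an infinitesimal motion in the slice is `0`), so the image contains
an open set (`HasStrictFDerivAt.map_nhds_eq_of_equiv` or `_of_surj`), and `P = 0` (`MvPolynomial.funext_set` or the
like). -/
def S_IND : Prop := ∀ p : Fin 8 → Fin 2 → ℝ, GenP p → AlgebraicIndependent ℚ (lens p).vec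

/-- **Job FINR.** Finitely many real realisations up to congruence. Proof. Move `q 0` to `(0, 0)` and `q 4` to `(ℓ, 0)`,
`ℓ = √B0` (isometries). The 13 numbers `ℓ` and the coordinates of the other six points generate a field which
contains the 13 algebraically independent lengths, so they are algebraically independent, so `Delta q ≠ 0` (a
nonzero polynomial in them). The set `X` of these normalised `q` is compact (closed, and bounded as the graph is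
connected). If it is infinite it has an accumulation point `q ∈ X`, but the derivative of the length map in the 12 coordinates
(`q 0`, `q 4` fixed) is injective at `q` by S_RIG (1) (`HasFDerivAt.eventually_ne` or directly): contradiction. -/
def S_FINR : Prop := ∀ d : Len, AlgebraicIndependent ℚ d.vec →
  {D : Fin 8 → Fin 8 → ℝ | ∃ q : Fin 8 → Fin 2 → ℝ, lens q = d ∧ D = fun i j => sq q i j}.Finite

/-- **Job GEN.** `K` = the elements of `ℝ` algebraic over `ℚ(d_j : j ≠ k)`. -/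
def S_GEN : Prop := ∀ d : Len, AlgebraicIndependent ℚ d.vec → Gen d

end Pool.Agent.TR23
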