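import Mathlib
import Pool.Agent.TR23.Stm

/-! Project TR23, pieces `S_TOP4` and `S_ODLC` (helper47). -/

set_option autoImplicit false
set_option linter.all false

open Filter Topology

namespace Pool.Agent.TR23

/-! ### Resultants -/

theorem res_symm (c k : ℝ × ℝ × ℝ) : res c k = res k c := by
  unfold res; ring

/-- the discriminant -/
def disc (c : ℝ × ℝ × ℝ) : ℝ := c.2.1 ^ 2 - 4 * c.1 * c.2.2

theorem res_nonneg {c : ℝ × ℝ × ℝ} (k : ℝ × ℝ × ℝ) (h : disc c < 0) : 0 ≤ res c k := by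
  have h0 : c.1 ≠ 0 := by
    intro h0
    unfold disc at h
    rw [h0] at h
    nlinarith [sq_nonneg c.2.1]
  have h1 : 4 * c.1 ^ 2 * res c k = (2 * c.1 * (c.1 * k.2.2 - c.2.2 * k.1) - c.2.1 * (c.1 * k.2.1 - c.2.1 * k.1)) ^ 2 -
      disc c * (c.1 * k.2.1 - c.2.1 * k.1) ^ 2 := by
    unfold res disc; ring
  have h2 : 0 < 4 * c.1 ^ 2 := by positivity
  have h3 : 0 ≤ 4 * c.1 ^ 2 * res c k := by
    rw [h1]
    nlinarith [sq_nonneg (2 * c.1 * (c.1 * k.2.2 - c.2.2 * k.1) - c.2.1 * (c.1 * k.2.1 - c.2.1 * k.1)),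
      mul_nonneg (neg_nonneg.2 h.le) (sq_nonneg (c.1 * k.2.1 - c.2.1 * k.1))]
  exact nonneg_of_mul_nonneg_right h3 h2

theorem exists_root {k : ℝ × ℝ × ℝ} (h : 0 ≤ disc k) : ∃ u w, NZ u w ∧ QF k u w = 0 := by
  by_cases h0 : k.1 = 0
  · refine ⟨1, 0, Or.inl one_ne_zero, ?_⟩
    unfold QF; rw [h0]; ring
  · refine ⟨-k.2.1 + √(disc k), 2 * k.1, Or.inr (mul_ne_zero two_ne_zero h0), ?_⟩
    have h1 := Real.sq_sqrt h
    have h2 : QF k (-k.2.1 + √(disc k)) (2 * k.1) = k.1 * (√(disc k) ^ 2 - disc k) := by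
      unfold QF disc; ring
    rw [h2, h1]; ring

theorem common_root {c k : ℝ × ℝ × ℝ} (hc : 0 ≤ disc c) (hk : 0 ≤ disc k) (h : res c k = 0) :
    ∃ u w, NZ u w ∧ QF c u w = 0 ∧ QF k u w = 0 := by
  by_cases h0 : c.1 = 0
  · by_cases h1 : c.2.1 = 0 ∧ c.2.2 = 0
    · obtain ⟨u, w, h2, h3⟩ := exists_root hk
      refine ⟨u, w, h2, ?_, h3⟩
      unfold QF
      rw [h0, h1.1, h1.2]; ring
    · have e : res c k = QF k 1 0 * QF k (-c.2.2) c.2.1 := by
        unfold res QF; rw [h0]; ring
      rw [e] at h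
      rcases mul_eq_zero.1 h with h | h
      · refine ⟨1, 0, Or.inl one_ne_zero, ?_, h⟩
        unfold QF; rw [h0]; ring
      · refine ⟨-c.2.2, c.2.1, ?_, ?_, h⟩
        · unfold NZ
          by_contra hcon
          push Not at hcon
          exact h1 ⟨hcon.2, neg_eq_zero.1 hcon.1⟩
        · unfold QF; rw [h0]; ring
  · set s := √(disc c) with hs
    have hs2 : s ^ 2 = disc c := Real.sq_sqrt hc
    have e1 : ∀ σ : ℝ, σ ^ 2 = disc c → QF c (-c.2.1 + σ) (2 * c.1) = 0 := by
      intro σ hσ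
      have h2 : QF c (-c.2.1 + σ) (2 * c.1) = c.1 * (σ ^ 2 - disc c) := by
        unfold QF disc; ring
      rw [h2, hσ]; ring
    have e2 : QF k (-c.2.1 + s) (2 * c.1) * QF k (-c.2.1 + -s) (2 * c.1) = 16 * c.1 ^ 2 * res c k := by
      have h4 : QF k (-c.2.1 + s) (2 * c.1) * QF k (-c.2.1 + -s) (2 * c.1) - 16 * c.1 ^ 2 * res c k =
          (s ^ 2 - disc c) * (k.1 ^ 2 * (s ^ 2 + disc c) - (2 * k.1 ^ 2 * c.2.1 ^ 2 - 4 * c.1 * k.1 * k.2.1 * c.2.1 +
            4 * c.1 ^ 2 * k.2.1 ^ 2 - 8 * c.1 ^ 2 * k.1 * k.2.2)) := by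
        unfold QF res disc; ring
      rw [hs2, sub_self, zero_mul, sub_eq_zero] at h4
      exact h4
    rw [h, mul_zero] at e2
    rcases mul_eq_zero.1 e2 with h2 | h2
    · exact ⟨_, _, Or.inr (mul_ne_zero two_ne_zero h0), e1 s hs2, h2⟩
    · exact ⟨_, _, Or.inr (mul_ne_zero two_ne_zero h0), e1 (-s) (by rw [neg_sq, hs2]), h2⟩

/-- **`S_TOP4`.** -/
theorem top4 : S_TOP4 := by
  intro d x2 z2 x3 z3 _ _ hNC
  have hR : Continuous fun y : (ℝ × ℝ) × (ℝ × ℝ) => d.R y.1.1 y.1.2 y.2.1 y.2.2 := by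
    unfold Len.R res Len.pp2 Len.pp3 pp
    fun_prop
  have h2 : Continuous fun y : (ℝ × ℝ) × (ℝ × ℝ) => disc (d.pp2 y.1.1 y.1.2) := by
    unfold disc Len.pp2 pp
    fun_prop
  have h3 : Continuous fun y : (ℝ × ℝ) × (ℝ × ℝ) => disc (d.pp3 y.2.1 y.2.2) := by
    unfold disc Len.pp3 pp
    fun_prop
  rcases lt_trichotomy (d.R x2 z2 x3 z3) 0 with h | h | h
  · have := (hR.tendsto ((x2, z2), (x3, z3))).eventually_lt_const h
    filter_upwards [this] with y hy
    exact ⟨fun _ => h, fun _ => hy⟩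
  · have hd : disc (d.pp2 x2 z2) < 0 ∨ disc (d.pp3 x3 z3) < 0 := by
      by_contra hcon
      push Not at hcon
      obtain ⟨u, w, huw, h4, h5⟩ := common_root hcon.1 hcon.2 h
      exact hNC u w huw h4 h5
    rcases hd with hd | hd
    · have := (h2.tendsto ((x2, z2), (x3, z3))).eventually_lt_const hd
      filter_upwards [this] with y hy
      rw [h]
      have h6 : 0 ≤ d.R y.1.1 y.1.2 y.2.1 y.2.2 := res_nonneg _ hy
      exact ⟨fun h7 => absurd h7 (not_lt.2 h6), fun h7 => absurd h7 (lt_irrefl _)⟩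
    · have := (h3.tendsto ((x2, z2), (x3, z3))).eventually_lt_const hd
      filter_upwards [this] with y hy
      rw [h]
      have h6 : 0 ≤ d.R y.1.1 y.1.2 y.2.1 y.2.2 := by
        unfold Len.R
        rw [res_symm]
        exact res_nonneg _ hy
      exact ⟨fun h7 => absurd h7 (not_lt.2 h6), fun h7 => absurd h7 (lt_irrefl _)⟩
  · have := (hR.tendsto ((x2, z2), (x3, z3))).eventually_const_lt h
    filter_upwards [this] with y hy
    exact ⟨fun h7 => absurd h7 (not_lt.2 hy.le), fun h7 => absurd h7 (not_lt.2 h.le)⟩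

/-! ### Roots depend continuously on the form -/

/-- a simple root moves continuously -/
theorem near_root {X : Type} [TopologicalSpace X] {x₀ : X} {c : X → ℝ × ℝ × ℝ} (hc : ContinuousAt c x₀)
    {p q p' q' : ℝ} (h : QF (c x₀) p q = 0) (h' : QF (c x₀) p' q' = 0) (hdet : p * q' - q * p' ≠ 0)
    (h0 : c x₀ ≠ 0) {ε : ℝ} (hε : 0 < ε) :
    ∀ᶠ x in 𝓝 x₀, ∃ t : ℝ, |t| ≤ ε ∧ QF (c x) (p + t * p') (q + t * q') = 0 := by
  -- the polar form
  set β : ℝ := 2 * (c x₀).1 * p * p' + (c x₀).2.1 * (p * q' + q * p') + 2 * (c x₀).2.2 * q * q' with hβ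
  have hval : ∀ t : ℝ, QF (c x₀) (p + t * p') (q + t * q') = t * β := by
    intro t
    have : QF (c x₀) (p + t * p') (q + t * q') = QF (c x₀) p q + t ^ 2 * QF (c x₀) p' q' + t * β := by
      rw [hβ]; unfold QF; ring
    rw [this, h, h']; ring
  have hβ0 : β ≠ 0 := by
    intro hb
    apply h0
    have e1 : ∀ a b : ℝ, QF (c x₀) (a * p + b * p') (a * q + b * q') = 0 := by
      intro a b
      have : QF (c x₀) (a * p + b * p') (a * q + b * q') =
          a ^ 2 * QF (c x₀) p q + b ^ 2 * QF (c x₀) p' q' + a * b * β := by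
        rw [hβ]; unfold QF; ring
      rw [this, h, h', hb]; ring
    have e2 : ∀ u w : ℝ, QF (c x₀) u w = 0 := by
      intro u w
      have := e1 ((u * q' - w * p') / (p * q' - q * p')) ((w * p - u * q) / (p * q' - q * p'))
      have f1 : (u * q' - w * p') / (p * q' - q * p') * p + (w * p - u * q) / (p * q' - q * p') * p' = u := by
        rw [div_mul_eq_mul_div, div_mul_eq_mul_div, ← add_div, div_eq_iff hdet]; ring
      have f2 : (u * q' - w * p') / (p * q' - q * p') * q + (w * p - u * q) / (p * q' - q * p') * q' = w := by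
        rw [div_mul_eq_mul_div, div_mul_eq_mul_div, ← add_div, div_eq_iff hdet]; ring
      rwa [f1, f2] at this
    have g1 := e2 1 0
    have g2 := e2 0 1
    have g3 := e2 1 1
    simp only [QF] at g1 g2 g3
    have k1 : (c x₀).1 = 0 := by linarith
    have k2 : (c x₀).2.2 = 0 := by linarith
    have k3 : (c x₀).2.1 = 0 := by linarith
    exact Prod.ext k1 (Prod.ext k3 k2)
  have hcont : ∀ t : ℝ, ContinuousAt (fun x => QF (c x) (p + t * p') (q + t * q')) x₀ := by
    intro t
    unfold QF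
    fun_prop
  have key : ∀ᶠ x in 𝓝 x₀, QF (c x) (p + ε * p') (q + ε * q') * QF (c x) (p + (-ε) * p') (q + (-ε) * q') < 0 := by
    have h1 : ContinuousAt (fun x => QF (c x) (p + ε * p') (q + ε * q') * QF (c x) (p + (-ε) * p') (q + (-ε) * q')) x₀ :=
      (hcont ε).mul (hcont (-ε))
    have h2 : QF (c x₀) (p + ε * p') (q + ε * q') * QF (c x₀) (p + (-ε) * p') (q + (-ε) * q') < 0 := by
      rw [hval, hval]
      have : 0 < (ε * β) ^ 2 := by positivity
      nlinarith
    exact h1.eventually_lt_const h2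
  filter_upwards [key] with x hx
  have hct : Continuous fun t : ℝ => QF (c x) (p + t * p') (q + t * q') := by
    unfold QF
    fun_prop
  have hmem : (0 : ℝ) ∈ (fun t : ℝ => QF (c x) (p + t * p') (q + t * q')) '' Set.uIcc (-ε) ε := by
    refine intermediate_value_uIcc hct.continuousOn ?_
    rw [Set.mem_uIcc]
    rcases mul_neg_iff.1 hx with ⟨h1, h2⟩ | ⟨h1, h2⟩
    · exact Or.inl ⟨h2.le, h1.le⟩
    · exact Or.inr ⟨h1.le, h2.le⟩
  obtain ⟨t, ht, ht0⟩ := hmem
  rw [Set.uIcc_of_le (by linarith)] at ht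
  exact ⟨t, abs_le.2 ht, ht0⟩

/-- **`S_ODLC`.** -/
theorem odlc : S_ODLC := by
  intro X _ x₀ c N hc h0 hN hloc
  by_cases hOd : Od (c x₀) (N x₀)
  · obtain ⟨⟨p, q, hpq, h1, h2⟩, ⟨p', q', hpq', h1', h2'⟩⟩ := hOd
    -- the two roots are independent
    have hdet : p * q' - q * p' ≠ 0 := by
      intro hd
      apply h2'
      have key : ∃ r : ℝ, r ≠ 0 ∧ p' = r * p ∧ q' = r * q := by
        rcases hpq with hp | hq
        · refine ⟨p' / p, ?_, by field_simp, ?_⟩
          · intro hr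
            have hp' : p' = 0 := by
              rcases div_eq_zero_iff.1 hr with h | h
              · exact h
              · exact absurd h hp
            have hq' : q' = 0 := by
              rw [hp', mul_zero, sub_zero] at hd
              exact (mul_eq_zero.1 hd).resolve_left hp
            rcases hpq' with h | h
            · exact h hp'
            · exact h hq'
          · field_simp
            linarith
        · refine ⟨q' / q, ?_, ?_, by field_simp⟩
          · intro hr
            have hq' : q' = 0 := by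
              rcases div_eq_zero_iff.1 hr with h | h
              · exact h
              · exact absurd h hq
            have hp' : p' = 0 := by
              rw [hq', mul_zero, zero_sub, neg_eq_zero] at hd
              exact (mul_eq_zero.1 hd).resolve_left hq
            rcases hpq' with h | h
            · exact h hp'
            · exact h hq'
          · field_simp
            linarith
      obtain ⟨r, hr, e1, e2⟩ := key
      rw [e1, e2, hN x₀ p q r hr]
      exact h2
    have hdet' : p' * q - q' * p ≠ 0 := by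
      intro h
      apply hdet
      linarith
    -- roots near a given root, in a neighbourhood
    have near : ∀ {a b a' b' : ℝ}, NZ a b → QF (c x₀) a b = 0 → QF (c x₀) a' b' = 0 → a * b' - b * a' ≠ 0 →
        ∀ᶠ x in 𝓝 x₀, ∃ u w, NZ u w ∧ QF (c x) u w = 0 ∧ (N x u w ↔ N x₀ a b) := by
      intro a b a' b' hab g1 g2 gd
      have hl := hloc a b hab g1
      rw [nhds_prod_eq] at hl
      obtain ⟨P, hP, Q', hQ', hPQ⟩ := Filter.eventually_prod_iff.1 hl
      -- the curve `t ↦ (a + t a', b + t b')`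
      have hcurve : Continuous fun t : ℝ => (a + t * a', b + t * b') := by fun_prop
      have hQt : ∀ᶠ t in 𝓝 (0 : ℝ), Q' (a + t * a', b + t * b') := by
        have := hcurve.tendsto (0 : ℝ)
        simp only [zero_mul, add_zero] at this
        exact this.eventually hQ'
      obtain ⟨ε, hε, hball⟩ := Metric.eventually_nhds_iff.1 hQt
      have hn := near_root hc g1 g2 gd h0 (half_pos hε)
      filter_upwards [hn, hP] with x hx hPx
      obtain ⟨t, ht, ht0⟩ := hx
      refine ⟨a + t * a', b + t * b', ?_, ht0, ?_⟩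
      · by_contra hcon
        unfold NZ at hcon
        push Not at hcon
        apply gd
        have i1 : a = -(t * a') := by linarith [hcon.1]
        have i2 : b = -(t * b') := by linarith [hcon.2]
        rw [i1, i2]; ring
      · have hd : dist t 0 < ε := by
          rw [Real.dist_eq, sub_zero]
          linarith
        exact hPQ hPx (hball hd)
    filter_upwards [near hpq h1 h1' hdet, near hpq' h1' h1 hdet'] with x hx hx'
    obtain ⟨u, w, i1, i2, i3⟩ := hx
    obtain ⟨u', w', j1, j2, j3⟩ := hx'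
    refine ⟨fun _ => ⟨⟨p, q, hpq, h1, h2⟩, ⟨p', q', hpq', h1', h2'⟩⟩, fun _ => ⟨⟨u, w, i1, i2, i3.2 h2⟩,
      ⟨u', w', j1, j2, fun h => h2' (j3.1 h)⟩⟩⟩
  · -- all roots have the same status
    obtain ⟨S, hS⟩ : ∃ S : Prop, ∀ p q, NZ p q → QF (c x₀) p q = 0 → (N x₀ p q ↔ S) := by
      by_cases h1 : ∃ p q, NZ p q ∧ QF (c x₀) p q = 0 ∧ N x₀ p q
      · refine ⟨True, fun p q hpq h2 => ⟨fun _ => trivial, fun _ => ?_⟩⟩
        by_contra h3
        exact hOd ⟨h1, p, q, hpq, h2, h3⟩
      · refine ⟨False, fun p q hpq h2 => ⟨fun h3 => h1 ⟨p, q, hpq, h2, h3⟩, fun h => h.elim⟩⟩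
    have hcomp : ∀ᶠ x in 𝓝 x₀, ∀ w ∈ Metric.sphere (0 : ℝ × ℝ) 1, QF (c x) w.1 w.2 = 0 → (N x w.1 w.2 ↔ S) := by
      refine IsCompact.eventually_forall_of_forall_eventually (isCompact_sphere (0 : ℝ × ℝ) 1) ?_
      intro w hw
      have hw0 : NZ w.1 w.2 := by
        by_contra hcon
        unfold NZ at hcon
        push Not at hcon
        have : w = 0 := Prod.ext hcon.1 hcon.2
        rw [this] at hw
        simp at hw
      by_cases hr : QF (c x₀) w.1 w.2 = 0
      · filter_upwards [hloc w.1 w.2 hw0 hr] with y hy _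
        rw [hy]
        exact hS w.1 w.2 hw0 hr
      · have hcont : ContinuousAt (fun y : X × (ℝ × ℝ) => QF (c y.1) y.2.1 y.2.2) (x₀, w) := by
          have hc' : ContinuousAt (fun y : X × (ℝ × ℝ) => c y.1) (x₀, w) :=
            ContinuousAt.comp (f := fun y : X × (ℝ × ℝ) => y.1) (x := (x₀, w)) hc continuousAt_fst
          unfold QF
          fun_prop
        filter_upwards [hcont.eventually_ne hr] with y hy h
        exact absurd h hy
    filter_upwards [hcomp] with x hx
    refine ⟨fun h => ?_, fun h => absurd h hOd⟩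
    exfalso
    have hall : ∀ p q, NZ p q → QF (c x) p q = 0 → (N x p q ↔ S) := by
      intro p q hpq h2
      have hne : (p, q) ≠ (0 : ℝ × ℝ) := by
        intro h3
        rcases hpq with h4 | h4
        · exact h4 (congrArg Prod.fst h3)
        · exact h4 (congrArg Prod.snd h3)
      have hn : 0 < ‖((p, q) : ℝ × ℝ)‖ := norm_pos_iff.2 hne
      set r := ‖((p, q) : ℝ × ℝ)‖⁻¹ with hr
      have hr0 : r ≠ 0 := inv_ne_zero hn.ne'
      have hmem : ((r * p, r * q) : ℝ × ℝ) ∈ Metric.sphere (0 : ℝ × ℝ) 1 := by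
        rw [mem_sphere_zero_iff_norm]
        have e1 : ((r * p, r * q) : ℝ × ℝ) = r • (p, q) := rfl
        rw [e1, norm_smul, hr, norm_inv, norm_norm, inv_mul_cancel₀ hn.ne']
      have h3 := hx (r * p, r * q) hmem (by
        have : QF (c x) (r * p) (r * q) = r ^ 2 * QF (c x) p q := by unfold QF; ring
        simp only
        rw [this, h2, mul_zero])
      simp only at h3
      rw [hN x p q r hr0] at h3
      exact h3
    obtain ⟨⟨p, q, hpq, h1, h2⟩, ⟨p', q', hpq', h1', h2'⟩⟩ := h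
    exact h2' ((hall p' q' hpq' h1').2 ((hall p q hpq h1).1 h2))

end Pool.Agent.TR23
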