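import Mathlib
import Pool.Agent.TR23.Top1

/-! Project TR23, pieces `S_TOP2` and `S_TOP0` (helper47). -/

set_option autoImplicit false
set_option linter.all false

open Filter Topology

namespace Pool.Agent.TR23

/-! ### Homogeneity -/

theorem R_smul_left (d : Len) (r x2 z2 x3 z3 : ℝ) : d.R (r * x2) (r * z2) x3 z3 = r ^ 4 * d.R x2 z2 x3 z3 := by
  unfold Len.R res Len.pp2 Len.pp3 pp; ring

theorem R_smul_right (d : Len) (r x2 z2 x3 z3 : ℝ) : d.R x2 z2 (r * x3) (r * z3) = r ^ 4 * d.R x2 z2 x3 z3 := by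
  unfold Len.R res Len.pp2 Len.pp3 pp; ring

theorem neg_iff {r a b : ℝ} (hr : r ≠ 0) (h : a = r ^ 4 * b) : a < 0 ↔ b < 0 := by
  rw [h]
  have : 0 < r ^ 4 := by positivity
  constructor
  · intro h; nlinarith
  · intro h; nlinarith

theorem QF_fb_smul (B0 A B e p q r x z : ℝ) : QF (fb B0 A B e (r * p) (r * q)) x z = r ^ 2 * QF (fb B0 A B e p q) x z := by
  unfold QF fb; ring

theorem Od_congr_tw {c c' : ℝ × ℝ × ℝ} {N N' : ℝ → ℝ → Prop} (hc : ∀ x z, QF c x z = 0 ↔ QF c' x z = 0)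
    (hN : ∀ x z, N x z ↔ N' x z) : Od c N ↔ Od c' N' := by
  unfold Od
  simp only [hc, hN]

theorem N3_smul (d : Len) (p3 q3 r x3 z3 : ℝ) (hr : r ≠ 0) : N3 d p3 q3 (r * x3) (r * z3) ↔ N3 d p3 q3 x3 z3 :=
  Od_congr_tw (fun _ _ => Iff.rfl) fun x z => neg_iff hr (R_smul_right d r x z x3 z3)

theorem N3_smul' (d : Len) (p3 q3 r x3 z3 : ℝ) (hr : r ≠ 0) : N3 d (r * p3) (r * q3) x3 z3 ↔ N3 d p3 q3 x3 z3 := by
  refine Od_congr_tw (fun x z => ?_) fun x z => Iff.rfl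
  unfold Len.fb2
  rw [QF_fb_smul]
  exact mul_eq_zero_iff_left (pow_ne_zero _ hr)

theorem N2_smul (d : Len) (p2 q2 p3 q3 r : ℝ) (hr : r ≠ 0) : N2 d p2 q2 (r * p3) (r * q3) ↔ N2 d p2 q2 p3 q3 :=
  Od_congr_tw (fun _ _ => Iff.rfl) fun x z => N3_smul' d p3 q3 r x z hr

theorem N2_smul' (d : Len) (p2 q2 p3 q3 r : ℝ) (hr : r ≠ 0) : N2 d (r * p2) (r * q2) p3 q3 ↔ N2 d p2 q2 p3 q3 := by
  refine Od_congr_tw (fun x z => ?_) fun x z => Iff.rfl
  unfold Len.fb3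
  rw [QF_fb_smul]
  exact mul_eq_zero_iff_left (pow_ne_zero _ hr)

theorem N1_smul (d : Len) (t p2 q2 r : ℝ) (hr : r ≠ 0) : N1 d t (r * p2) (r * q2) ↔ N1 d t p2 q2 :=
  Od_congr_tw (fun _ _ => Iff.rfl) fun x z => N2_smul' d p2 q2 x z r hr

theorem fb_ne_zero {B0 A B e p q : ℝ} (hA : A ≠ 0) (hB : B ≠ 0) (hAB : A ≠ B0) (h : NZ p q) : fb B0 A B e p q ≠ 0 := by
  intro h0
  have h1 : q * (B0 * (p - q) + A * q) = 0 := congrArg Prod.fst h0
  have h2 : B * p * (p - q) = 0 := congrArg (fun t => t.2.2) h0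
  rcases mul_eq_zero.1 h2 with h3 | h3
  · have hp : p = 0 := (mul_eq_zero.1 h3).resolve_left hB
    have hq : q ≠ 0 := by
      rcases h with h | h
      · exact absurd hp h
      · exact h
    rw [hp] at h1
    have h4 : q ^ 2 * (A - B0) = 0 := by linarith
    rcases mul_eq_zero.1 h4 with h5 | h5
    · exact hq (pow_eq_zero_iff two_ne_zero |>.1 h5)
    · exact hAB (sub_eq_zero.1 h5)
  · have hpq : p = q := sub_eq_zero.1 h3
    rw [hpq, sub_self, mul_zero, zero_add] at h1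
    rcases mul_eq_zero.1 h1 with h4 | h4
    · rcases h with h | h
      · exact h (hpq.trans h4)
      · exact h h4
    · rcases mul_eq_zero.1 h4 with h5 | h5
      · exact hA h5
      · rcases h with h | h
        · exact h (hpq.trans h5)
        · exact h h5

/-- **`S_TOP2`.** -/
theorem top2 : S_TOP2 := by
  intro d hd hA2 hA3 p2 q2 p3 q3 h2 h3 hG
  have pA2 : d.A2 ≠ 0 := (hd 2).ne'
  have pA3 : d.A3 ≠ 0 := (hd 3).ne'
  have pB2 : d.B2 ≠ 0 := (hd 5).ne'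
  have pB3 : d.B3 ≠ 0 := (hd 6).ne'
  have h := odlc ((ℝ × ℝ) × (ℝ × ℝ)) ((p2, q2), (p3, q3)) (fun y => d.fb3 y.1.1 y.1.2)
    (fun y x z => N3 d y.2.1 y.2.2 x z) (by
      unfold Len.fb3 fb
      fun_prop) (fb_ne_zero pA2 pB3 hA2 h2) (fun y p q r hr => N3_smul d _ _ r p q hr) ?_
  · exact h
  intro x3 z3 hx3 hroot
  have h' := odlc (((ℝ × ℝ) × (ℝ × ℝ)) × (ℝ × ℝ)) (((p2, q2), (p3, q3)), (x3, z3)) (fun y => d.fb2 y.1.2.1 y.1.2.2)
    (fun y x z => d.R x z y.2.1 y.2.2 < 0) (by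
      unfold Len.fb2 fb
      fun_prop) (fb_ne_zero pA3 pB2 hA3 h3) (fun y p q r hr => neg_iff hr (R_smul_left d r p q _ _)) ?_
  · exact h'
  intro x2 z2 hx2 hroot2
  have h4 := top4 d x2 z2 x3 z3 hx2 hx3 (hG x3 z3 x2 z2 hx3 hx2 hroot hroot2)
  have hcont : ContinuousAt (fun y : (((ℝ × ℝ) × (ℝ × ℝ)) × (ℝ × ℝ)) × (ℝ × ℝ) => (y.2, y.1.2))
      ((((p2, q2), (p3, q3)), (x3, z3)), (x2, z2)) := by fun_prop
  exact hcont.eventually h4

/-- **`S_TOP0`.** -/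
theorem top0 : S_TOP0 := by
  intro d hd hA2 hA3 t ht hG
  have hq : ∀ A e : ℝ, qa d.B0 d.B1 A e t ≠ 0 := by
    intro A e h0
    have h1 : d.B1 - d.B0 * t = 0 := congrArg Prod.fst h0
    exact ht (sub_eq_zero.1 h1).symm
  have h := odlc ℝ t (fun s => d.qa2 s) (fun s p2 q2 => N1 d s p2 q2) (by
      unfold Len.qa2 qa
      fun_prop) (hq _ _) (fun s p q r hr => N1_smul d s p q r hr) ?_
  · exact h
  intro p2 q2 h2 hroot
  have h' := odlc (ℝ × (ℝ × ℝ)) (t, (p2, q2)) (fun y => d.qa3 y.1) (fun y p3 q3 => N2 d y.2.1 y.2.2 p3 q3) (by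
      unfold Len.qa3 qa
      fun_prop) (hq _ _) (fun y p q r hr => N2_smul d _ _ p q r hr) ?_
  · exact h'
  intro p3 q3 h3 hroot3
  have h4 := top2 d hd hA2 hA3 p2 q2 p3 q3 h2 h3 (hG p2 q2 p3 q3 h2 h3 hroot hroot3)
  have hcont : ContinuousAt (fun y : (ℝ × (ℝ × ℝ)) × (ℝ × ℝ) => (y.1.2, y.2)) ((t, (p2, q2)), (p3, q3)) := by fun_prop
  exact hcont.eventually h4

end Pool.Agent.TR23
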