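import Pool.Agent.TR23.Ex
import Pool.Agent.TR23.L0
import Pool.Agent.TR23.L1
import Pool.Agent.TR23.Top2
import Pool.Agent.TR23.Case1
import Pool.Agent.TR23.CASE2
import Pool.Agent.TR23.Sym
import Pool.Agent.TR23.LA
import Pool.Agent.TR23.LB
import Pool.Agent.TR23.LR

/-!
# Project TR23: existence of a solution in the real Minkowski plane
-/

set_option autoImplicit false

namespace Pool.Agent.TR23

/-- For all positive generic lengths there is a realisation in the real Minkowski plane. -/
theorem exist : S_EX :=
  ex top0 case1 sym1 sym2 (l1 la lb lr top2 case1 C2.t_CASE2) (l0 la lb lr top4)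

end Pool.Agent.TR23
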