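import Pool.Agent.TR23.Stm

/-!
# TR23, job FINR: finitely many real realisations up to congruence

Midpoint trick: if `x`, `q` have the same lengths then `x - q` is an infinitesimal motion of `(x + q) / 2`; so near a
realisation with nonzero rigidity determinant all the mutual distances are constant on the realisations.
-/

set_option autoImplicit false
set_option linter.all false

open Filter Topology

namespace Pool.Agent.TR23

namespace FinR

/-! ### Transfer of algebraic independence -/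

theorem algInd_of_mem {ι : Type} [Fintype ι] (c v : ι → ℝ) (hv : AlgebraicIndependent ℚ v)
    (h : ∀ j, v j ∈ Algebra.adjoin ℚ (Set.range c)) : AlgebraicIndependent ℚ c := by
  classical
  let A := Algebra.adjoin ℚ (Set.range c)
  let c' : ι → A := fun j => ⟨c j, Algebra.subset_adjoin ⟨j, rfl⟩⟩
  let v' : ι → A := fun j => ⟨v j, h j⟩
  have hv' : AlgebraicIndependent ℚ v' := by
    apply AlgebraicIndependent.of_comp A.val
    exact hv
  have htop : Algebra.adjoin ℚ (Set.range c') = ⊤ := by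
    have h1 : Set.range c' = Subtype.val ⁻¹' (Set.range c) := by
      ext x
      constructor
      · rintro ⟨j, rfl⟩
        exact ⟨j, rfl⟩
      · rintro ⟨j, hj⟩
        exact ⟨j, Subtype.ext hj⟩
    rw [h1]
    exact Algebra.adjoin_adjoin_coe_preimage
  haveI : Algebra.IsAlgebraic (Algebra.adjoin ℚ (Set.range c')) A := by
    constructor
    intro x
    have hx : x ∈ Algebra.adjoin ℚ (Set.range c') := by rw [htop]; trivial
    exact isAlgebraic_algebraMap (⟨x, hx⟩ : Algebra.adjoin ℚ (Set.range c'))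
  have hle : Cardinal.mk ι ≤ Algebra.trdeg ℚ A := by
    have := hv'.cardinalMk_le_trdeg
    exact this
  have hb := Algebra.IsAlgebraic.isTranscendenceBasis_of_le_trdeg_of_finite ℚ c' hle
  have := hb.1
  exact this.map' (f := A.val) Subtype.val_injective

/-! ### Normalised configurations -/

/-- the normalised configuration with coordinates `c` -/
def nrm {R : Type} [CommRing R] (c : Fin 13 → R) : Fin 8 → Fin 2 → R :=
  ![![0, 0], ![c 1, c 2], ![c 3, c 4], ![c 5, c 6], ![c 0, 0], ![c 7, c 8], ![c 9, c 10], ![c 11, c 12]]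

/-- `cr` over a ring -/
def crR {R : Type} [CommRing R] (p : Fin 8 → Fin 2 → R) (i j k : Fin 8) : R :=
  (p i 0 - p j 0) * (p i 1 - p k 1) - (p i 1 - p j 1) * (p i 0 - p k 0)

/-- `Delta` over a ring -/
def DeltaR {R : Type} [CommRing R] (p : Fin 8 → Fin 2 → R) : R :=
  crR p 1 6 4 * crR p 6 3 0 * crR p 3 5 4 * crR p 5 2 0 * crR p 2 7 4 * crR p 7 1 0 -
    crR p 6 1 0 * crR p 3 6 4 * crR p 5 3 0 * crR p 2 5 4 * crR p 7 2 0 * crR p 1 7 4

theorem DeltaR_eq (p : Fin 8 → Fin 2 → ℝ) : DeltaR p = Delta p := rfl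

theorem map_DeltaR {R S : Type} [CommRing R] [CommRing S] (f : R →+* S) (p : Fin 8 → Fin 2 → R) :
    f (DeltaR p) = DeltaR (fun i k => f (p i k)) := by
  simp only [DeltaR, crR, map_sub, map_mul]

theorem map_nrm {R S : Type} [CommRing R] [CommRing S] (f : R →+* S) (c : Fin 13 → R) :
    (fun i k => f (nrm c i k)) = nrm (fun j => f (c j)) := by
  funext i k
  fin_cases i <;> fin_cases k <;> simp [nrm]

theorem nrm_mem (c : Fin 13 → ℝ) (i : Fin 8) (k : Fin 2) : nrm c i k ∈ Algebra.adjoin ℚ (Set.range c) := by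
  have h0 : (0 : ℝ) ∈ Algebra.adjoin ℚ (Set.range c) := Subalgebra.zero_mem _
  have h1 : ∀ j, c j ∈ Algebra.adjoin ℚ (Set.range c) := fun j => Algebra.subset_adjoin ⟨j, rfl⟩
  fin_cases i <;> fin_cases k <;> first | exact h0 | exact h1 _

theorem sq_mem (c : Fin 13 → ℝ) (i j : Fin 8) : sq (nrm c) i j ∈ Algebra.adjoin ℚ (Set.range c) := by
  unfold sq
  exact Subalgebra.sum_mem _ fun k _ => Subalgebra.pow_mem _ (Subalgebra.sub_mem _ (nrm_mem c i k) (nrm_mem c j k)) 2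

theorem lens_mem (c : Fin 13 → ℝ) (j : Fin 13) : (lens (nrm c)).vec j ∈ Algebra.adjoin ℚ (Set.range c) := by
  fin_cases j <;> exact sq_mem c _ _

theorem algInd_c (d : Len) (hd : AlgebraicIndependent ℚ d.vec) (c : Fin 13 → ℝ) (hc : lens (nrm c) = d) :
    AlgebraicIndependent ℚ c := by
  apply algInd_of_mem c d.vec hd
  intro j
  rw [← hc]
  exact lens_mem c j

theorem Delta_ne (c : Fin 13 → ℝ) (hc : AlgebraicIndependent ℚ c) : Delta (nrm c) ≠ 0 := by
  let P : MvPolynomial (Fin 13) ℚ := DeltaR (nrm MvPolynomial.X)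
  have hP : P ≠ 0 := by
    intro h0
    have h1 : MvPolynomial.eval (![1, 5, 2, 1, 2, 5, 3, 4, 1, 4, 1, 1, 3] : Fin 13 → ℚ) P = 0 := by
      rw [h0, map_zero]
    have h2 := map_DeltaR (MvPolynomial.eval (![1, 5, 2, 1, 2, 5, 3, 4, 1, 4, 1, 1, 3] : Fin 13 → ℚ))
      (nrm MvPolynomial.X)
    rw [map_nrm] at h2
    simp only [MvPolynomial.eval_X] at h2
    have h3 : DeltaR (nrm (![1, 5, 2, 1, 2, 5, 3, 4, 1, 4, 1, 1, 3] : Fin 13 → ℚ)) = 7560 := by
      simp only [DeltaR, crR, nrm, Matrix.cons_val]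
      norm_num
    have h4 : (fun j => (![1, 5, 2, 1, 2, 5, 3, 4, 1, 4, 1, 1, 3] : Fin 13 → ℚ) j) =
      ![1, 5, 2, 1, 2, 5, 3, 4, 1, 4, 1, 1, 3] := rfl
    rw [h4, h3] at h2
    rw [h1] at h2
    norm_num at h2
  intro h0
  apply hP
  have hinj : Function.Injective (MvPolynomial.aeval c : MvPolynomial (Fin 13) ℚ →ₐ[ℚ] ℝ) := hc
  apply hinj
  rw [map_zero]
  have h2 := map_DeltaR ((MvPolynomial.aeval c : MvPolynomial (Fin 13) ℚ →ₐ[ℚ] ℝ) : MvPolynomial (Fin 13) ℚ →+* ℝ)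
    (nrm MvPolynomial.X)
  rw [map_nrm] at h2
  have h5 : (fun j => ((MvPolynomial.aeval c : MvPolynomial (Fin 13) ℚ →ₐ[ℚ] ℝ) : MvPolynomial (Fin 13) ℚ →+* ℝ)
    (MvPolynomial.X j)) = c := by
    funext j
    simp
  rw [h5, DeltaR_eq, h0] at h2
  exact h2

/-! ### Normalisation of a configuration -/

theorem exists_nrm (q : Fin 8 → Fin 2 → ℝ) (hq : 0 < sq q 0 4) :
    ∃ c : Fin 13 → ℝ, c 0 = Real.sqrt (sq q 0 4) ∧ ∀ i j, sq (nrm c) i j = sq q i j := by
  set l := Real.sqrt (sq q 0 4) with hl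
  have hl0 : 0 < l := Real.sqrt_pos.mpr hq
  have hl2 : l ^ 2 = sq q 0 4 := Real.sq_sqrt hq.le
  let v0 := q 4 0 - q 0 0
  let v1 := q 4 1 - q 0 1
  have hv : l ^ 2 = v0 ^ 2 + v1 ^ 2 := by
    rw [hl2]
    simp only [sq, Fin.sum_univ_two, v0, v1]
    ring
  let X : Fin 8 → ℝ := fun i => ((q i 0 - q 0 0) * v0 + (q i 1 - q 0 1) * v1) / l
  let Y : Fin 8 → ℝ := fun i => ((q i 1 - q 0 1) * v0 - (q i 0 - q 0 0) * v1) / l
  let c : Fin 13 → ℝ := ![l, X 1, Y 1, X 2, Y 2, X 3, Y 3, X 5, Y 5, X 6, Y 6, X 7, Y 7]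
  have hc : ∀ i, nrm c i 0 = X i ∧ nrm c i 1 = Y i := by
    intro i
    fin_cases i
    · constructor
      · show (0 : ℝ) = ((q 0 0 - q 0 0) * v0 + (q 0 1 - q 0 1) * v1) / l
        simp
      · show (0 : ℝ) = ((q 0 1 - q 0 1) * v0 - (q 0 0 - q 0 0) * v1) / l
        simp
    · exact ⟨rfl, rfl⟩
    · exact ⟨rfl, rfl⟩
    · exact ⟨rfl, rfl⟩
    · constructor
      · show l = (v0 * v0 + v1 * v1) / l
        rw [eq_div_iff hl0.ne']
        nlinarith [hv]
      · show (0 : ℝ) = (v1 * v0 - v0 * v1) / l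
        rw [mul_comm v1 v0, sub_self, zero_div]
    · exact ⟨rfl, rfl⟩
    · exact ⟨rfl, rfl⟩
    · exact ⟨rfl, rfl⟩
  refine ⟨c, rfl, fun i j => ?_⟩
  simp only [sq, Fin.sum_univ_two]
  rw [(hc i).1, (hc i).2, (hc j).1, (hc j).2]
  show (((q i 0 - q 0 0) * v0 + (q i 1 - q 0 1) * v1) / l - ((q j 0 - q 0 0) * v0 + (q j 1 - q 0 1) * v1) / l) ^ 2 +
    (((q i 1 - q 0 1) * v0 - (q i 0 - q 0 0) * v1) / l - ((q j 1 - q 0 1) * v0 - (q j 0 - q 0 0) * v1) / l) ^ 2 = _
  rw [← sub_div, ← sub_div, div_pow, div_pow, ← add_div, div_eq_iff (pow_ne_zero 2 hl0.ne'), hv]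
  ring

/-! ### The set of the normalised realisations -/

/-- the normalised realisations -/
def Xs (d : Len) (l : ℝ) : Set (Fin 13 → ℝ) := {c | c 0 = l ∧ ∀ j, (lens (nrm c)).vec j = d.vec j}

theorem vec_inj (d d' : Len) (h : ∀ j, d.vec j = d'.vec j) : d = d' := by
  have h0 := h 0
  have h1 := h 1
  have h2 := h 2
  have h3 := h 3
  have h4 := h 4
  have h5 := h 5
  have h6 := h 6
  have h7 := h 7
  have h8 := h 8
  have h9 := h 9
  have h10 := h 10
  have h11 := h 11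
  have h12 := h 12
  cases d
  cases d'
  simp only [Len.vec, Matrix.cons_val] at *
  subst_vars
  rfl

theorem continuous_nrm (i : Fin 8) (k : Fin 2) : Continuous fun c : Fin 13 → ℝ => nrm c i k := by
  fin_cases i <;> fin_cases k <;>
    first
    | exact continuous_const
    | exact continuous_apply _

theorem continuous_sq (i j : Fin 8) : Continuous fun c : Fin 13 → ℝ => sq (nrm c) i j := by
  unfold sq
  exact continuous_finset_sum _ fun k _ => ((continuous_nrm i k).sub (continuous_nrm j k)).pow 2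

theorem continuous_vec (j : Fin 13) : Continuous fun c : Fin 13 → ℝ => (lens (nrm c)).vec j := by
  fin_cases j <;> exact continuous_sq _ _

theorem continuous_Delta : Continuous fun c : Fin 13 → ℝ => Delta (nrm c) := by
  have h : ∀ i j k, Continuous fun c : Fin 13 → ℝ => cr (nrm c) i j k := by
    intro i j k
    unfold cr
    exact ((((continuous_nrm i 0).sub (continuous_nrm j 0)).mul ((continuous_nrm i 1).sub (continuous_nrm k 1)))).sub
      (((continuous_nrm i 1).sub (continuous_nrm j 1)).mul ((continuous_nrm i 0).sub (continuous_nrm k 0)))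
  unfold Delta
  exact (((((((h _ _ _).mul (h _ _ _)).mul (h _ _ _)).mul (h _ _ _)).mul (h _ _ _)).mul (h _ _ _))).sub
    ((((((h _ _ _).mul (h _ _ _)).mul (h _ _ _)).mul (h _ _ _)).mul (h _ _ _)).mul (h _ _ _))

theorem isClosed_Xs (d : Len) (l : ℝ) : IsClosed (Xs d l) := by
  have h : Xs d l = {c | c 0 = l} ∩ ⋂ j, {c | (lens (nrm c)).vec j = d.vec j} := by
    ext c
    simp [Xs]
  rw [h]
  exact (isClosed_eq (continuous_apply 0) continuous_const).inter
    (isClosed_iInter fun j => isClosed_eq (continuous_vec j) continuous_const)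

theorem abs_le_of_sq {x A : ℝ} (h : x ^ 2 ≤ A) : |x| ≤ 1 + A := by
  have h1 : |x| ^ 2 = x ^ 2 := sq_abs x
  nlinarith [abs_nonneg x, sq_nonneg (|x| - 1)]

theorem isCompact_Xs (d : Len) (l : ℝ) (hl : 0 ≤ l) : IsCompact (Xs d l) := by
  apply Metric.isCompact_of_isClosed_isBounded (isClosed_Xs d l)
  rw [Metric.isBounded_iff_subset_closedBall 0]
  refine ⟨1 + (|d.vec 1| + |d.vec 2| + |d.vec 3| + |d.vec 4| + |d.vec 5| + |d.vec 6|) + l, fun c hc => ?_⟩
  obtain ⟨h0, h⟩ := hc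
  set M := |d.vec 1| + |d.vec 2| + |d.vec 3| + |d.vec 4| + |d.vec 5| + |d.vec 6| with hM
  have hM1 : ∀ j : Fin 13, (j = 1 ∨ j = 2 ∨ j = 3 ∨ j = 4 ∨ j = 5 ∨ j = 6) → d.vec j ≤ M := by
    intro j hj
    have := le_abs_self (d.vec j)
    have a1 := abs_nonneg (d.vec 1)
    have a2 := abs_nonneg (d.vec 2)
    have a3 := abs_nonneg (d.vec 3)
    have a4 := abs_nonneg (d.vec 4)
    have a5 := abs_nonneg (d.vec 5)
    have a6 := abs_nonneg (d.vec 6)
    rcases hj with rfl | rfl | rfl | rfl | rfl | rfl <;> linarith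
  have hM0 : 0 ≤ M := by positivity
  have e : ∀ i j, sq (nrm c) i j = (nrm c i 0 - nrm c j 0) ^ 2 + (nrm c i 1 - nrm c j 1) ^ 2 := by
    intro i j
    simp only [sq, Fin.sum_univ_two]
  have e1 : (c 1 - c 0) ^ 2 + (c 2 - 0) ^ 2 ≤ M := by
    rw [show (c 1 - c 0) ^ 2 + (c 2 - 0) ^ 2 = (lens (nrm c)).vec 1 from (e 1 4).symm, h 1]; exact hM1 1 (by simp)
  have e2 : (c 3 - c 0) ^ 2 + (c 4 - 0) ^ 2 ≤ M := by
    rw [show (c 3 - c 0) ^ 2 + (c 4 - 0) ^ 2 = (lens (nrm c)).vec 2 from (e 2 4).symm, h 2]; exact hM1 2 (by simp)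
  have e3 : (c 5 - c 0) ^ 2 + (c 6 - 0) ^ 2 ≤ M := by
    rw [show (c 5 - c 0) ^ 2 + (c 6 - 0) ^ 2 = (lens (nrm c)).vec 3 from (e 3 4).symm, h 3]; exact hM1 3 (by simp)
  have e4 : (0 - c 7) ^ 2 + (0 - c 8) ^ 2 ≤ M := by
    rw [show (0 - c 7) ^ 2 + (0 - c 8) ^ 2 = (lens (nrm c)).vec 4 from (e 0 5).symm, h 4]; exact hM1 4 (by simp)
  have e5 : (0 - c 9) ^ 2 + (0 - c 10) ^ 2 ≤ M := by
    rw [show (0 - c 9) ^ 2 + (0 - c 10) ^ 2 = (lens (nrm c)).vec 5 from (e 0 6).symm, h 5]; exact hM1 5 (by simp)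
  have e6 : (0 - c 11) ^ 2 + (0 - c 12) ^ 2 ≤ M := by
    rw [show (0 - c 11) ^ 2 + (0 - c 12) ^ 2 = (lens (nrm c)).vec 6 from (e 0 7).symm, h 6]; exact hM1 6 (by simp)
  have k1 : ∀ x : ℝ, x ^ 2 ≤ M → |x| ≤ 1 + M + l := fun x hx => by
    have := abs_le_of_sq hx
    linarith
  have k2 : ∀ x : ℝ, (x - c 0) ^ 2 ≤ M → |x| ≤ 1 + M + l := fun x hx => by
    have h1 := abs_le_of_sq hx
    have h2 : |x| ≤ |x - c 0| + |c 0| := by
      have := abs_add_le (x - c 0) (c 0)
      simpa using this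
    rw [h0, abs_of_nonneg hl] at h2
    rw [h0] at h1
    linarith
  have s1 : ∀ a b : ℝ, a ^ 2 + b ^ 2 ≤ M → a ^ 2 ≤ M := fun a b hab => by nlinarith [sq_nonneg b]
  have s2 : ∀ a b : ℝ, a ^ 2 + (b - 0) ^ 2 ≤ M → b ^ 2 ≤ M := fun a b hab => by nlinarith [sq_nonneg a]
  have s3 : ∀ a b : ℝ, (0 - a) ^ 2 + (0 - b) ^ 2 ≤ M → a ^ 2 ≤ M := fun a b hab => by nlinarith [sq_nonneg b]
  have s4 : ∀ a b : ℝ, (0 - a) ^ 2 + (0 - b) ^ 2 ≤ M → b ^ 2 ≤ M := fun a b hab => by nlinarith [sq_nonneg a]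
  rw [mem_closedBall_zero_iff, pi_norm_le_iff_of_nonneg (by positivity)]
  intro j
  rw [Real.norm_eq_abs]
  fin_cases j
  · show |c 0| ≤ _
    rw [h0, abs_of_nonneg hl]
    linarith
  · exact k2 _ (s1 _ _ e1)
  · exact k1 _ (s2 _ _ e1)
  · exact k2 _ (s1 _ _ e2)
  · exact k1 _ (s2 _ _ e2)
  · exact k2 _ (s1 _ _ e3)
  · exact k1 _ (s2 _ _ e3)
  · exact k1 _ (s3 _ _ e4)
  · exact k1 _ (s4 _ _ e4)
  · exact k1 _ (s3 _ _ e5)
  · exact k1 _ (s4 _ _ e5)
  · exact k1 _ (s3 _ _ e6)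
  · exact k1 _ (s4 _ _ e6)

/-! ### Local constancy -/

theorem nrm_mid (c c' : Fin 13 → ℝ) (i : Fin 8) (k : Fin 2) :
    nrm (fun j => (c j + c' j) / 2) i k = (nrm c i k + nrm c' i k) / 2 := by
  fin_cases i <;> fin_cases k <;> simp [nrm]

theorem key (h : S_RIG) (d : Len) (l : ℝ) (hl : 0 < l) (c c' : Fin 13 → ℝ) (hc : c ∈ Xs d l) (hc' : c' ∈ Xs d l)
    (hD : Delta (nrm fun j => (c j + c' j) / 2) ≠ 0) (i j : Fin 8) : sq (nrm c') i j = sq (nrm c) i j := by
  have hsum : ∀ i j, ∑ k, (nrm (fun j => (c j + c' j) / 2) i k - nrm (fun j => (c j + c' j) / 2) j k) *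
      ((nrm c' i k - nrm c i k) - (nrm c' j k - nrm c j k)) = (sq (nrm c') i j - sq (nrm c) i j) / 2 := by
    intro i j
    simp only [sq, Fin.sum_univ_two, nrm_mid]
    ring
  have hedge : ∀ m : Fin 13, (lens (nrm c')).vec m = (lens (nrm c)).vec m := fun m => by
    rw [hc.2 m, hc'.2 m]
  have h4 : sq (nrm fun j => (c j + c' j) / 2) 0 4 ≠ 0 := by
    have : sq (nrm fun j => (c j + c' j) / 2) 0 4 = l ^ 2 := by
      simp only [sq, Fin.sum_univ_two, nrm_mid]
      simp only [nrm, Matrix.cons_val]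
      rw [hc.1, hc'.1]
      ring
    rw [this]
    positivity
  have := h.1 (nrm fun j => (c j + c' j) / 2) (fun i k => nrm c' i k - nrm c i k) hD h4 (by
    intro x hx
    rw [hsum x.1 x.2]
    simp only [edg, List.mem_cons, List.not_mem_nil, or_false] at hx
    rcases hx with rfl | rfl | rfl | rfl | rfl | rfl | rfl | rfl | rfl | rfl | rfl | rfl | rfl
    · exact by rw [show sq (nrm c') 0 4 = sq (nrm c) 0 4 from hedge 0]; ring
    · exact by rw [show sq (nrm c') 1 4 = sq (nrm c) 1 4 from hedge 1]; ring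
    · exact by rw [show sq (nrm c') 2 4 = sq (nrm c) 2 4 from hedge 2]; ring
    · exact by rw [show sq (nrm c') 3 4 = sq (nrm c) 3 4 from hedge 3]; ring
    · exact by rw [show sq (nrm c') 0 5 = sq (nrm c) 0 5 from hedge 4]; ring
    · exact by rw [show sq (nrm c') 0 6 = sq (nrm c) 0 6 from hedge 5]; ring
    · exact by rw [show sq (nrm c') 0 7 = sq (nrm c) 0 7 from hedge 6]; ring
    · exact by rw [show sq (nrm c') 1 6 = sq (nrm c) 1 6 from hedge 7]; ring
    · exact by rw [show sq (nrm c') 1 7 = sq (nrm c) 1 7 from hedge 8]; ring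
    · exact by rw [show sq (nrm c') 2 5 = sq (nrm c) 2 5 from hedge 9]; ring
    · exact by rw [show sq (nrm c') 2 7 = sq (nrm c) 2 7 from hedge 10]; ring
    · exact by rw [show sq (nrm c') 3 5 = sq (nrm c) 3 5 from hedge 11]; ring
    · exact by rw [show sq (nrm c') 3 6 = sq (nrm c) 3 6 from hedge 12]; ring) i j
  rw [hsum i j] at this
  linarith

end FinR

open FinR

/-- **Job FINR.** -/
theorem finr (h : S_RIG) : S_FINR := by
  intro d hd
  by_cases hne : ∃ q : Fin 8 → Fin 2 → ℝ, lens q = d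
  swap
  · apply Set.Finite.subset Set.finite_empty
    rintro D ⟨q, hq, _⟩
    exact (hne ⟨q, hq⟩).elim
  obtain ⟨q0, hq0⟩ := hne
  have hB0 : d.B0 ≠ 0 := by
    have h1 := hd.ne_zero 0
    exact h1
  have hsq : ∀ q : Fin 8 → Fin 2 → ℝ, lens q = d → sq q 0 4 = d.B0 := by
    intro q hq
    rw [← hq]
    rfl
  have hpos : 0 < d.B0 := by
    refine lt_of_le_of_ne ?_ hB0.symm
    rw [← hsq q0 hq0]
    unfold sq
    exact Finset.sum_nonneg fun k _ => sq_nonneg _
  set l := Real.sqrt d.B0 with hl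
  have hl0 : 0 < l := Real.sqrt_pos.mpr hpos
  have hcomp := isCompact_Xs d l hl0.le
  let F : (Fin 13 → ℝ) → (Fin 8 → Fin 8 → ℝ) := fun c i j => sq (nrm c) i j
  have hsub : {D : Fin 8 → Fin 8 → ℝ | ∃ q : Fin 8 → Fin 2 → ℝ, lens q = d ∧ D = fun i j => sq q i j} ⊆
      F '' (Xs d l) := by
    rintro D ⟨q, hq, rfl⟩
    obtain ⟨c, hc0, hc⟩ := exists_nrm q (by rw [hsq q hq]; exact hpos)
    refine ⟨c, ⟨?_, ?_⟩, ?_⟩
    · rw [hc0, hsq q hq]
    · intro j
      have : lens (nrm c) = lens q := by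
        simp only [lens, hc]
      rw [this, hq]
    · funext i j
      exact hc i j
  apply Set.Finite.subset _ hsub
  obtain ⟨t, ht1, ht2⟩ := hcomp.elim_nhds_subcover
    (fun c => {c' | Delta (nrm fun j => (c j + c' j) / 2) ≠ 0}) (by
      intro c hc
      have hcd : lens (nrm c) = d := vec_inj _ _ hc.2
      have hDc := Delta_ne c (algInd_c d hd c hcd)
      have hcont : Continuous fun c' : Fin 13 → ℝ => Delta (nrm fun j => (c j + c' j) / 2) := by
        have h1 : Continuous fun c' : Fin 13 → ℝ => (fun j => (c j + c' j) / 2 : Fin 13 → ℝ) := by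
          fun_prop
        exact continuous_Delta.comp h1
      have : (fun c' : Fin 13 → ℝ => Delta (nrm fun j => (c j + c' j) / 2)) c ≠ 0 := by
        have e : (fun j => (c j + c j) / 2) = c := by
          funext j
          ring
        show Delta (nrm fun j => (c j + c j) / 2) ≠ 0
        rw [e]
        exact hDc
      exact hcont.continuousAt.eventually_ne this)
  apply Set.Finite.subset (t.finite_toSet.image F)
  rintro D ⟨c', hc', rfl⟩
  have := ht2 hc'
  simp only [Set.mem_iUnion, Set.mem_setOf_eq] at this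
  obtain ⟨c, hct, hD⟩ := this
  refine ⟨c, hct, ?_⟩
  funext i j
  exact (key h d l hl0 c c' (ht1 c hct) hc' hD i j).symm

end Pool.Agent.TR23
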