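import Pool.Agent.TR23.Stm

/-! # TR23, job GEN: algebraically independent lengths are generic -/

set_option autoImplicit false
set_option linter.all false

open IntermediateField Polynomial
open scoped IntermediateField.algebraAdjoinAdjoin

namespace Pool.Agent.TR23

/-- The relative algebraic closure is closed under roots of nonzero polynomials of degree at most two. -/
theorem qc_algebraicClosure (F : IntermediateField ℚ ℝ) : QC (algebraicClosure F ℝ).toSubfield := by
  intro a b c x ha hb hc hne hx
  have ha' : a ∈ algebraicClosure F ℝ := ha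
  have hb' : b ∈ algebraicClosure F ℝ := hb
  have hc' : c ∈ algebraicClosure F ℝ := hc
  have hal : x ∈ algebraicClosure (algebraicClosure F ℝ) ℝ := by
    rw [mem_algebraicClosure_iff]
    refine ⟨C ⟨a, ha'⟩ * X ^ 2 + C ⟨b, hb'⟩ * X + C ⟨c, hc'⟩, ?_, ?_⟩
    · intro h
      rcases hne with h1 | h1 | h1
      · have := congrArg (fun p => coeff p 2) h
        simp [coeff_X, coeff_C] at this
        exact h1 (congrArg Subtype.val this)
      · have := congrArg (fun p => coeff p 1) h
        simp [coeff_X, coeff_C] at this
        exact h1 (congrArg Subtype.val this)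
      · have := congrArg (fun p => coeff p 0) h
        simp at this
        exact h1 (congrArg Subtype.val this)
    · simp only [map_add, map_mul, map_pow, aeval_X, aeval_C]
      exact hx
  rw [algebraicClosure.algebraicClosure_eq_bot, IntermediateField.mem_bot] at hal
  obtain ⟨y, hy⟩ := hal
  rw [← hy]
  exact y.2

/-- **Job GEN.** -/
theorem gen : S_GEN := by
  intro d hd k
  refine ⟨(algebraicClosure (IntermediateField.adjoin ℚ (d.vec '' {k}ᶜ)) ℝ).toSubfield,
    qc_algebraicClosure _, ?_, ?_⟩
  · intro j hj
    have hmem : d.vec j ∈ IntermediateField.adjoin ℚ (d.vec '' {k}ᶜ) :=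
      IntermediateField.subset_adjoin ℚ _ ⟨j, by simpa using hj, rfl⟩
    have : d.vec j ∈ algebraicClosure (IntermediateField.adjoin ℚ (d.vec '' {k}ᶜ)) ℝ := by
      rw [mem_algebraicClosure_iff]
      exact isAlgebraic_algebraMap (⟨d.vec j, hmem⟩ : IntermediateField.adjoin ℚ (d.vec '' {k}ᶜ))
    exact this
  · intro hk
    have hk' : d.vec k ∈ algebraicClosure (IntermediateField.adjoin ℚ (d.vec '' {k}ᶜ)) ℝ := hk
    rw [mem_algebraicClosure_iff] at hk'
    have ht : Transcendental (Algebra.adjoin ℚ (d.vec '' {k}ᶜ)) (d.vec k) :=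
      hd.transcendental_adjoin (by simp)
    apply ht
    exact (IsFractionRing.isAlgebraic_iff (Algebra.adjoin ℚ (d.vec '' {k}ᶜ))
      (IntermediateField.adjoin ℚ (d.vec '' {k}ᶜ)) ℝ).mpr hk'

end Pool.Agent.TR23
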