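import Pool.Agent.TR23.Stm

set_option autoImplicit false
set_option linter.all false

open MvPolynomial

namespace Pool.Agent.TR23

namespace Ind

/-- the chain rule -/
theorem chain {n : ℕ} {σ : Type} (L : Fin n → MvPolynomial σ ℚ) (p : σ → ℝ) (j : σ)
    (P : MvPolynomial (Fin n) ℚ) :
    ∑ k, aeval (fun k => aeval p (L k)) (pderiv k P) * aeval p (pderiv j (L k)) =
      aeval p (pderiv j (bind₁ L P)) := by
  induction P using MvPolynomial.induction_on with
  | C a => simp
  | add P Q hP hQ =>
    simp only [map_add, add_mul, Finset.sum_add_distrib, hP, hQ]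
  | mul_X P i hP =>
    have e1 : ∀ k, aeval (fun k => aeval p (L k)) (pderiv k (P * X i)) * aeval p (pderiv j (L k)) =
        aeval p (L i) * (aeval (fun k => aeval p (L k)) (pderiv k P) * aeval p (pderiv j (L k))) +
        (if i = k then aeval (fun k => aeval p (L k)) P * aeval p (pderiv j (L k)) else 0) := by
      intro k
      rw [pderiv_mul]
      by_cases h : i = k
      · subst h
        rw [pderiv_X_self, if_pos rfl]
        simp only [map_add, map_mul, map_one, aeval_X]
        ring
      · rw [pderiv_X_of_ne h, if_neg h]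
        simp only [map_add, map_mul, map_zero, aeval_X]
        ring
    rw [Finset.sum_congr rfl fun k _ => e1 k, Finset.sum_add_distrib, ← Finset.mul_sum, hP,
      Finset.sum_ite_eq]
    simp only [Finset.mem_univ, if_true, map_mul, bind₁_X_right, pderiv_mul, map_add]
    have e2 : aeval p (bind₁ L P) = aeval (fun k => aeval p (L k)) P := by
      rw [aeval_bind₁]
    rw [e2]
    ring

theorem deg_pderiv {n : ℕ} (P : MvPolynomial (Fin n) ℚ) (k : Fin n) (N : ℕ)
    (h : P.totalDegree ≤ N + 1) : (pderiv k P).totalDegree ≤ N := by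
  rw [MvPolynomial.totalDegree]
  refine Finset.sup_le fun m hm => ?_
  rw [mem_support_iff, coeff_pderiv] at hm
  have h1 : coeff (m + Finsupp.single k 1) P ≠ 0 := fun h0 => hm (by rw [h0, zero_mul])
  have h2 := le_totalDegree (mem_support_iff.2 h1)
  have h3 : ((m + Finsupp.single k 1).sum fun _ e => e) = (m.sum fun _ e => e) + 1 := by
    rw [Finsupp.sum_add_index' (fun _ => rfl) (fun _ _ _ => rfl), Finsupp.sum_single_index rfl]
  rw [h3] at h2
  omega

/-- the Jacobian criterion -/
theorem jac {n : ℕ} {σ : Type} (L : Fin n → MvPolynomial σ ℚ) (p : σ → ℝ)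
    (hp : AlgebraicIndependent ℚ p)
    (hr : ∀ c : Fin n → ℝ, (∀ j, ∑ k, c k * aeval p (pderiv j (L k)) = 0) → c = 0) :
    AlgebraicIndependent ℚ (fun k => aeval p (L k)) := by
  rw [algebraicIndependent_iff]
  have key : ∀ (N : ℕ) (P : MvPolynomial (Fin n) ℚ), P.totalDegree ≤ N →
      aeval (fun k => aeval p (L k)) P = 0 → P = 0 := by
    intro N
    induction N with
    | zero =>
      intro P hP h0
      obtain ⟨c, rfl⟩ : ∃ c, P = C c := by
        refine ⟨coeff 0 P, ?_⟩
        exact (totalDegree_eq_zero_iff_eq_C).1 (Nat.le_zero.1 hP)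
      rw [aeval_C] at h0
      have : c = 0 := by simpa using h0
      rw [this, C_0]
    | succ N ih =>
      intro P hP h0
      have h1 : bind₁ L P = 0 := by
        refine (algebraicIndependent_iff.1 hp) _ ?_
        rw [aeval_bind₁]
        exact h0
      have h2 : (fun k => aeval (fun k => aeval p (L k)) (pderiv k P)) = (0 : Fin n → ℝ) := by
        refine hr _ fun j => ?_
        rw [chain, h1, map_zero, map_zero]
      have h3 : ∀ k, pderiv k P = 0 := fun k => ih _ (deg_pderiv P k N hP) (congrFun h2 k)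
      have h4 : P = C (coeff 0 P) := by
        ext m
        rw [coeff_C]
        by_cases hm : 0 = m
        · rw [if_pos hm, ← hm]
        · rw [if_neg hm]
          obtain ⟨k, hk⟩ : ∃ k, m k ≠ 0 := by
            by_contra hne
            push Not at hne
            exact hm (Finsupp.ext fun k => (hne k).symm)
          have h5 := coeff_pderiv (i := k) P (m - Finsupp.single k 1)
          have h6 : m - Finsupp.single k 1 + Finsupp.single k 1 = m := by
            ext x
            simp only [Finsupp.coe_add, Finsupp.coe_tsub, Pi.add_apply, Pi.sub_apply]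
            by_cases hx : k = x
            · subst hx; simp; omega
            · simp [Finsupp.single_apply, hx]
          rw [h6, h3 k, coeff_zero] at h5
          rcases mul_eq_zero.1 h5.symm with h7 | h7
          · exact h7
          · exfalso
            have : (0 : ℚ) < (((m - Finsupp.single k 1 : Fin n →₀ ℕ) k : ℕ) : ℚ) + 1 := by positivity
            rw [h7] at this
            exact lt_irrefl _ this
      rw [h4, aeval_C] at h0
      have : coeff 0 P = 0 := by simpa using h0
      rw [h4, this, C_0]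
  exact fun P hP => key _ P le_rfl hP

/-- the edges -/
def E : Fin 13 → Fin 8 × Fin 8 :=
  ![(0, 4), (1, 4), (2, 4), (3, 4), (0, 5), (0, 6), (0, 7), (1, 6), (1, 7), (2, 5), (2, 7), (3, 5), (3, 6)]

/-- the squared distance as a polynomial -/
noncomputable def Lp (i j : Fin 8) : MvPolynomial (Fin 8 × Fin 2) ℚ :=
  ∑ c : Fin 2, (X (i, c) - X (j, c)) ^ 2

theorem vec_eq (p : Fin 8 → Fin 2 → ℝ) : (lens p).vec =
    fun k => aeval (fun x : Fin 8 × Fin 2 => p x.1 x.2) (Lp (E k).1 (E k).2) := by
  funext k
  have h : ∀ i j, aeval (fun x : Fin 8 × Fin 2 => p x.1 x.2) (Lp i j) = sq p i j := by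
    intro i j
    simp only [Lp, sq, map_sum, map_pow, map_sub, aeval_X]
  rw [h]
  fin_cases k <;> rfl

theorem nz (p : Fin 8 → Fin 2 → ℝ) (hp : GenP p) (Q : MvPolynomial (Fin 8 × Fin 2) ℚ)
    (q : Fin 8 × Fin 2 → ℚ) (hq : eval q Q ≠ 0) :
    aeval (fun x : Fin 8 × Fin 2 => p x.1 x.2) Q ≠ 0 := by
  intro h
  have := (algebraicIndependent_iff.1 hp) Q h
  rw [this] at hq
  simp at hq

/-- the rigidity map -/
noncomputable def J (p : Fin 8 → Fin 2 → ℝ) : (Fin 8 → Fin 2 → ℝ) →ₗ[ℝ] (Fin 13 → ℝ) where
  toFun u := fun k => ∑ c, (p (E k).1 c - p (E k).2 c) * (u (E k).1 c - u (E k).2 c)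
  map_add' u v := by
    funext k
    simp only [Pi.add_apply, ← Finset.sum_add_distrib]
    exact Finset.sum_congr rfl fun c _ => by ring
  map_smul' r u := by
    funext k
    simp only [Pi.smul_apply, smul_eq_mul, RingHom.id_apply, Finset.mul_sum]
    exact Finset.sum_congr rfl fun c _ => by ring

/-- the normalisation -/
noncomputable def nrm (p : Fin 8 → Fin 2 → ℝ) : (Fin 8 → Fin 2 → ℝ) →ₗ[ℝ] (Fin 3 → ℝ) where
  toFun u := ![u 0 0, u 0 1, (p 4 0 - p 0 0) * (u 4 1 - u 0 1) - (p 4 1 - p 0 1) * (u 4 0 - u 0 0)]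
  map_add' u v := by
    funext k
    fin_cases k <;> simp <;> ring
  map_smul' r u := by
    funext k
    fin_cases k <;> simp <;> ring

theorem surj (h : S_RIG) (p : Fin 8 → Fin 2 → ℝ) (hp : GenP p) : Function.Surjective (J p) := by
  have hD := h.2 p hp
  set q : Fin 8 × Fin 2 → ℚ := fun x => if x.1 = 0 then 0 else if x.1 = 4 then
    (if x.2 = 0 then 1 else 0) else (if x.2 = 0 then 0 else 1) with hq
  have h04 : sq p 0 4 ≠ 0 := by
    have := nz p hp (Lp 0 4) q (by
      simp [Lp, hq])
    have h : aeval (fun x : Fin 8 × Fin 2 => p x.1 x.2) (Lp 0 4) = sq p 0 4 := by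
      simp only [Lp, sq, map_sum, map_pow, map_sub, aeval_X]
    rwa [h] at this
  have hcr : ∀ i : Fin 8, i ≠ 0 → i ≠ 4 → cr p i 0 4 ≠ 0 := by
    intro i hi hi'
    have := nz p hp ((X (i, 0) - X (0, 0)) * (X (i, 1) - X (4, 1)) -
      (X (i, 1) - X (0, 1)) * (X (i, 0) - X (4, 0))) q (by
      simp [hq, hi, hi'])
    simpa [cr] using this
  -- the kernel
  have hker : ∀ u ∈ LinearMap.ker (J p), nrm p u = 0 → u = 0 := by
    intro u hu hn
    have hu' : ∀ k, ∑ c, (p (E k).1 c - p (E k).2 c) * (u (E k).1 c - u (E k).2 c) = 0 := fun k =>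
      congrFun (LinearMap.mem_ker.1 hu) k
    have hR := h.1 p u hD h04 (by
      intro x hx
      simp only [edg, List.mem_cons, List.not_mem_nil, or_false] at hx
      rcases hx with rfl | rfl | rfl | rfl | rfl | rfl | rfl | rfl | rfl | rfl | rfl | rfl | rfl
      · exact hu' 0
      · exact hu' 1
      · exact hu' 2
      · exact hu' 3
      · exact hu' 4
      · exact hu' 5
      · exact hu' 6
      · exact hu' 7
      · exact hu' 8
      · exact hu' 9
      · exact hu' 10
      · exact hu' 11
      · exact hu' 12)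
    have a0 : u 0 0 = 0 := congrFun hn 0
    have a1 : u 0 1 = 0 := congrFun hn 1
    have a2 : (p 4 0 - p 0 0) * (u 4 1 - u 0 1) - (p 4 1 - p 0 1) * (u 4 0 - u 0 0) = 0 :=
      congrFun hn 2
    have a3 := hR 4 0
    rw [Fin.sum_univ_two] at a3
    rw [a0, a1] at a2 a3
    have hs : (p 4 0 - p 0 0) ^ 2 + (p 4 1 - p 0 1) ^ 2 ≠ 0 := by
      intro h0
      apply h04
      rw [sq, Fin.sum_univ_two]
      linarith
    have b0 : u 4 0 = 0 := by
      have : ((p 4 0 - p 0 0) ^ 2 + (p 4 1 - p 0 1) ^ 2) * u 4 0 = 0 := by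
        linear_combination (p 4 0 - p 0 0) * a3 - (p 4 1 - p 0 1) * a2
      exact (mul_eq_zero.1 this).resolve_left hs
    have b1 : u 4 1 = 0 := by
      have : ((p 4 0 - p 0 0) ^ 2 + (p 4 1 - p 0 1) ^ 2) * u 4 1 = 0 := by
        linear_combination (p 4 1 - p 0 1) * a3 + (p 4 0 - p 0 0) * a2
      exact (mul_eq_zero.1 this).resolve_left hs
    have c : ∀ i : Fin 8, i ≠ 0 → i ≠ 4 → u i 0 = 0 ∧ u i 1 = 0 := by
      intro i hi hi'
      have c1 := hR i 0
      have c2 := hR i 4
      rw [Fin.sum_univ_two, a0, a1] at c1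
      rw [Fin.sum_univ_two, b0, b1] at c2
      have c3 := hcr i hi hi'
      constructor
      · have : cr p i 0 4 * u i 0 = 0 := by
          rw [cr]
          linear_combination (p i 1 - p 4 1) * c1 - (p i 1 - p 0 1) * c2
        exact (mul_eq_zero.1 this).resolve_left c3
      · have : cr p i 0 4 * u i 1 = 0 := by
          rw [cr]
          linear_combination (p i 0 - p 0 0) * c2 - (p i 0 - p 4 0) * c1
        exact (mul_eq_zero.1 this).resolve_left c3
    funext i j
    by_cases hi : i = 0
    · subst hi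
      fin_cases j
      · exact a0
      · exact a1
    · by_cases hi' : i = 4
      · subst hi'
        fin_cases j
        · exact b0
        · exact b1
      · fin_cases j
        · exact (c i hi hi').1
        · exact (c i hi hi').2
  have hk : Module.finrank ℝ (LinearMap.ker (J p)) ≤ 3 := by
    have := LinearMap.finrank_le_finrank_of_injective
      (f := (nrm p).comp (LinearMap.ker (J p)).subtype) (by
        rw [← LinearMap.ker_eq_bot, LinearMap.ker_eq_bot']
        intro u hu
        exact Subtype.ext (hker u.1 u.2 hu))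
    simpa using this
  have hrn := LinearMap.finrank_range_add_finrank_ker (J p)
  have hdim : Module.finrank ℝ (Fin 8 → Fin 2 → ℝ) = 16 := by
    rw [Module.finrank_pi_fintype]
    simp
  rw [hdim] at hrn
  rw [← LinearMap.range_eq_top]
  apply Submodule.eq_top_of_finrank_eq
  have h1 := Submodule.finrank_le (LinearMap.range (J p))
  have h2 : Module.finrank ℝ (Fin 13 → ℝ) = 13 := by simp
  rw [h2] at h1 ⊢
  omega

end Ind

open Ind in
/-- Job IND -/
theorem ind (h : S_RIG) : S_IND := by
  intro p hp
  rw [vec_eq]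
  refine jac _ _ hp ?_
  intro c hc
  obtain ⟨u, hu⟩ := surj h p hp c
  have hd : ∀ (a : Fin 8 × Fin 2) (i j : Fin 8),
      aeval (fun x : Fin 8 × Fin 2 => p x.1 x.2) (pderiv a (Lp i j)) =
        ∑ c : Fin 2, 2 * (p i c - p j c) *
          ((if (i, c) = a then 1 else 0) - (if (j, c) = a then 1 else 0)) := by
    intro a i j
    simp only [Lp, map_sum]
    refine Finset.sum_congr rfl fun c _ => ?_
    have e : ∀ b : Fin 8 × Fin 2, aeval (fun x : Fin 8 × Fin 2 => p x.1 x.2)
        (pderiv a (X b : MvPolynomial (Fin 8 × Fin 2) ℚ)) = if b = a then (1 : ℝ) else 0 := by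
      intro b
      by_cases hb : b = a
      · subst hb
        rw [pderiv_X_self, if_pos rfl, map_one]
      · rw [pderiv_X_of_ne hb, if_neg hb, map_zero]
    rw [pow_two, pderiv_mul, map_sub]
    simp only [map_add, map_mul, map_sub, aeval_X, e]
    ring
  -- sum against u
  have h1 : ∀ k, ∑ a : Fin 8 × Fin 2, u a.1 a.2 *
      aeval (fun x : Fin 8 × Fin 2 => p x.1 x.2) (pderiv a (Lp (E k).1 (E k).2)) = 2 * c k := by
    intro k
    have h2 := congrFun hu k
    change ∑ c, (p (E k).1 c - p (E k).2 c) * (u (E k).1 c - u (E k).2 c) = c k at h2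
    rw [← h2]
    simp only [hd, Finset.mul_sum]
    rw [Finset.sum_comm]
    refine Finset.sum_congr rfl fun d _ => ?_
    have e3 : ∀ x : Fin 8 × Fin 2, u x.1 x.2 * (2 * (p (E k).1 d - p (E k).2 d) *
        ((if ((E k).1, d) = x then 1 else 0) - (if ((E k).2, d) = x then 1 else 0))) =
        (if ((E k).1, d) = x then 2 * (p (E k).1 d - p (E k).2 d) * u x.1 x.2 else 0) -
        (if ((E k).2, d) = x then 2 * (p (E k).1 d - p (E k).2 d) * u x.1 x.2 else 0) := by
      intro x
      split_ifs <;> ring
    rw [Finset.sum_congr rfl fun x _ => e3 x, Finset.sum_sub_distrib, Finset.sum_ite_eq,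
      Finset.sum_ite_eq]
    simp only [Finset.mem_univ, if_true]
    ring
  have h3 : ∑ k, c k * (2 * c k) = 0 := by
    simp only [← h1, Finset.mul_sum]
    rw [Finset.sum_comm]
    refine Finset.sum_eq_zero fun a _ => ?_
    have h4 := hc a
    have : ∑ k, c k * (u a.1 a.2 *
        aeval (fun x : Fin 8 × Fin 2 => p x.1 x.2) (pderiv a (Lp (E k).1 (E k).2))) =
        u a.1 a.2 * ∑ k, c k *
          aeval (fun x : Fin 8 × Fin 2 => p x.1 x.2) (pderiv a (Lp (E k).1 (E k).2)) := by
      rw [Finset.mul_sum]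
      exact Finset.sum_congr rfl fun k _ => by ring
    rw [this, h4, mul_zero]
  funext k
  have h5 : ∀ k ∈ Finset.univ, c k * (2 * c k) = 0 := by
    rw [Finset.sum_eq_zero_iff_of_nonneg (fun k _ => by nlinarith [mul_self_nonneg (c k)])] at h3
    exact h3
  have h6 := h5 k (Finset.mem_univ _)
  have h7 : c k * c k = 0 := by linarith
  exact mul_self_eq_zero.1 h7

end Pool.Agent.TR23
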