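import Pool.Agent.TR23.Stm

/-!
# Project TR23, job RIG: infinitesimal rigidity of `K_{4,4}` minus three edges
-/

set_option autoImplicit false

namespace Pool.Agent.TR23

/-- the cyclic system of six equations -/
lemma hexagon (a1 a2 a3 b1 b2 b3 c16 c61 c36 c63 c35 c53 c25 c52 c27 c72 c17 c71 : ℝ)
    (E1 : a1 * c16 + b2 * c61 = 0) (E2 : a3 * c36 + b2 * c63 = 0) (E3 : a3 * c35 + b1 * c53 = 0)
    (E4 : a2 * c25 + b1 * c52 = 0) (E5 : a2 * c27 + b3 * c72 = 0) (E6 : a1 * c17 + b3 * c71 = 0)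
    (hD : c16 * c63 * c35 * c52 * c27 * c71 - c61 * c36 * c53 * c25 * c72 * c17 ≠ 0) :
    a1 = 0 ∧ a2 = 0 ∧ a3 = 0 ∧ b1 = 0 ∧ b2 = 0 ∧ b3 = 0 := by
  set D := c16 * c63 * c35 * c52 * c27 * c71 - c61 * c36 * c53 * c25 * c72 * c17 with hDd
  have key : ∀ x : ℝ, x * D = 0 → x = 0 := fun x hx => (mul_eq_zero.mp hx).resolve_right hD
  refine ⟨key _ ?_, key _ ?_, key _ ?_, key _ ?_, key _ ?_, key _ ?_⟩
  · rw [hDd]
    linear_combination c63 * c35 * c52 * c27 * c71 * E1 - c61 * c35 * c52 * c27 * c71 * E2 +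
      c61 * c36 * c52 * c27 * c71 * E3 - c61 * c36 * c53 * c27 * c71 * E4 +
      c61 * c36 * c53 * c25 * c71 * E5 - c61 * c36 * c53 * c25 * c72 * E6
  · rw [hDd]
    linear_combination c16 * c63 * c35 * c52 * c71 * E5 - c16 * c63 * c35 * c52 * c72 * E6 +
      c17 * c63 * c35 * c52 * c72 * E1 - c17 * c61 * c35 * c52 * c72 * E2 +
      c17 * c61 * c36 * c52 * c72 * E3 - c17 * c61 * c36 * c53 * c72 * E4
  · rw [hDd]
    linear_combination c16 * c63 * c52 * c27 * c71 * E3 - c16 * c63 * c53 * c27 * c71 * E4 +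
      c16 * c63 * c53 * c25 * c71 * E5 - c16 * c63 * c53 * c25 * c72 * E6 +
      c17 * c63 * c53 * c25 * c72 * E1 - c17 * c61 * c53 * c25 * c72 * E2
  · rw [hDd]
    linear_combination c16 * c63 * c35 * c27 * c71 * E4 - c16 * c63 * c35 * c25 * c71 * E5 +
      c16 * c63 * c35 * c25 * c72 * E6 - c17 * c63 * c35 * c25 * c72 * E1 +
      c17 * c61 * c35 * c25 * c72 * E2 - c17 * c61 * c36 * c25 * c72 * E3
  · rw [hDd]
    linear_combination c16 * c35 * c52 * c27 * c71 * E2 - c16 * c36 * c52 * c27 * c71 * E3 +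
      c16 * c36 * c53 * c27 * c71 * E4 - c16 * c36 * c53 * c25 * c71 * E5 +
      c16 * c36 * c53 * c25 * c72 * E6 - c17 * c36 * c53 * c25 * c72 * E1
  · rw [hDd]
    linear_combination c16 * c63 * c35 * c52 * c27 * E6 - c17 * c63 * c35 * c52 * c27 * E1 +
      c17 * c61 * c35 * c52 * c27 * E2 - c17 * c61 * c36 * c52 * c27 * E3 +
      c17 * c61 * c36 * c53 * c27 * E4 - c17 * c61 * c36 * c53 * c25 * E5

/-- a vector orthogonal to a nonzero vector is a multiple of the rotated vector -/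
lemma orth (x0 x1 w0 w1 : ℝ) (hx : ¬ (x0 = 0 ∧ x1 = 0)) (h : x0 * w0 + x1 * w1 = 0) :
    ∃ α : ℝ, w0 = α * (-x1) ∧ w1 = α * x0 := by
  have hn : x0 ^ 2 + x1 ^ 2 ≠ 0 := by
    intro h0
    exact hx ⟨by nlinarith [sq_nonneg x0, sq_nonneg x1], by nlinarith [sq_nonneg x0, sq_nonneg x1]⟩
  refine ⟨(x0 * w1 - x1 * w0) / (x0 ^ 2 + x1 ^ 2), ?_, ?_⟩
  · field_simp
    linear_combination x0 * h
  · field_simp
    linear_combination x1 * h

/-- part (1): infinitesimal rigidity -/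
theorem rig1 (p u : Fin 8 → Fin 2 → ℝ) (hD : Delta p ≠ 0) (h04 : sq p 0 4 ≠ 0)
    (h : ∀ x ∈ edg, ∑ k, (p x.1 k - p x.2 k) * (u x.1 k - u x.2 k) = 0) :
    ∀ i j, ∑ k, (p i k - p j k) * (u i k - u j k) = 0 := by
  simp only [Fin.sum_univ_two] at h ⊢
  -- the rotation
  have e04 := h (0, 4) (by simp [edg])
  simp only at e04
  obtain ⟨ω, hω0, hω1⟩ := orth (p 0 0 - p 4 0) (p 0 1 - p 4 1) (u 0 0 - u 4 0) (u 0 1 - u 4 1)
    (by
      rintro ⟨h1, h2⟩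
      apply h04
      simp [sq, Fin.sum_univ_two, h1, h2]) (by linear_combination e04)
  -- the motion in the slice
  obtain ⟨w, hw⟩ : ∃ w : Fin 8 → Fin 2 → ℝ, ∀ i, w i 0 = u i 0 - u 0 0 + ω * (p i 1 - p 0 1) ∧
      w i 1 = u i 1 - u 0 1 - ω * (p i 0 - p 0 0) :=
    ⟨fun i => ![u i 0 - u 0 0 + ω * (p i 1 - p 0 1), u i 1 - u 0 1 - ω * (p i 0 - p 0 0)],
      fun i => ⟨by simp, by simp⟩⟩
  have hwe : ∀ i j : Fin 8, (i, j) ∈ edg →
      (p i 0 - p j 0) * (w i 0 - w j 0) + (p i 1 - p j 1) * (w i 1 - w j 1) = 0 := by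
    intro i j hij
    have e := h (i, j) hij
    simp only at e
    rw [(hw i).1, (hw i).2, (hw j).1, (hw j).2]
    linear_combination e
  have w00 : w 0 0 = 0 := by rw [(hw 0).1]; ring
  have w01 : w 0 1 = 0 := by rw [(hw 0).2]; ring
  have w40 : w 4 0 = 0 := by rw [(hw 4).1]; linear_combination -hω0
  have w41 : w 4 1 = 0 := by rw [(hw 4).2]; linear_combination -hω1
  -- the vertices `a_i`
  have hA : ∀ i : Fin 8, (i, 4) ∈ edg → ¬ (p i 0 - p 4 0 = 0 ∧ p i 1 - p 4 1 = 0) →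
      ∃ α : ℝ, w i 0 = α * (-(p i 1 - p 4 1)) ∧ w i 1 = α * (p i 0 - p 4 0) := by
    intro i hi hne
    have e := hwe i 4 hi
    rw [w40, w41] at e
    exact orth _ _ _ _ hne (by linear_combination e)
  have hB : ∀ j : Fin 8, (0, j) ∈ edg → ¬ (p j 0 - p 0 0 = 0 ∧ p j 1 - p 0 1 = 0) →
      ∃ β : ℝ, w j 0 = β * (-(p j 1 - p 0 1)) ∧ w j 1 = β * (p j 0 - p 0 0) := by
    intro j hj hne
    have e := hwe 0 j hj
    rw [w00, w01] at e
    exact orth _ _ _ _ hne (by linear_combination e)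
  have cz : ∀ i j k : Fin 8, (p i 0 - p k 0 = 0 ∧ p i 1 - p k 1 = 0) → cr p i j k = 0 := by
    rintro i j k ⟨h1, h2⟩
    simp [cr, h1, h2]
  have hAB : ∀ (i j : Fin 8) (α β : ℝ), (i, j) ∈ edg → w i 0 = α * (-(p i 1 - p 4 1)) →
      w i 1 = α * (p i 0 - p 4 0) → w j 0 = β * (-(p j 1 - p 0 1)) → w j 1 = β * (p j 0 - p 0 0) →
      α * cr p i j 4 + β * cr p j i 0 = 0 := by
    intro i j α β hij h1 h2 h3 h4
    have e := hwe i j hij
    rw [h1, h2, h3, h4] at e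
    simp only [cr]
    linear_combination -e
  obtain ⟨α1, hα10, hα11⟩ := hA 1 (by simp [edg]) (fun h' => hD (by simp [Delta, cz 1 _ 4 h']))
  obtain ⟨α2, hα20, hα21⟩ := hA 2 (by simp [edg]) (fun h' => hD (by simp [Delta, cz 2 _ 4 h']))
  obtain ⟨α3, hα30, hα31⟩ := hA 3 (by simp [edg]) (fun h' => hD (by simp [Delta, cz 3 _ 4 h']))
  obtain ⟨β1, hβ10, hβ11⟩ := hB 5 (by simp [edg]) (fun h' => hD (by simp [Delta, cz 5 _ 0 h']))
  obtain ⟨β2, hβ20, hβ21⟩ := hB 6 (by simp [edg]) (fun h' => hD (by simp [Delta, cz 6 _ 0 h']))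
  obtain ⟨β3, hβ30, hβ31⟩ := hB 7 (by simp [edg]) (fun h' => hD (by simp [Delta, cz 7 _ 0 h']))
  obtain ⟨r1, r2, r3, r4, r5, r6⟩ := hexagon α1 α2 α3 β1 β2 β3 (cr p 1 6 4) (cr p 6 1 0) (cr p 3 6 4)
    (cr p 6 3 0) (cr p 3 5 4) (cr p 5 3 0) (cr p 2 5 4) (cr p 5 2 0) (cr p 2 7 4) (cr p 7 2 0)
    (cr p 1 7 4) (cr p 7 1 0)
    (hAB 1 6 _ _ (by simp [edg]) hα10 hα11 hβ20 hβ21)
    (hAB 3 6 _ _ (by simp [edg]) hα30 hα31 hβ20 hβ21)
    (hAB 3 5 _ _ (by simp [edg]) hα30 hα31 hβ10 hβ11)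
    (hAB 2 5 _ _ (by simp [edg]) hα20 hα21 hβ10 hβ11)
    (hAB 2 7 _ _ (by simp [edg]) hα20 hα21 hβ30 hβ31)
    (hAB 1 7 _ _ (by simp [edg]) hα10 hα11 hβ30 hβ31)
    (by
      intro h0
      apply hD
      unfold Delta
      linear_combination h0)
  subst r1 r2 r3 r4 r5 r6
  have hall : ∀ i : Fin 8, w i 0 = 0 ∧ w i 1 = 0 := by
    intro i
    fin_cases i
    · exact ⟨w00, w01⟩
    · exact ⟨by simpa using hα10, by simpa using hα11⟩
    · exact ⟨by simpa using hα20, by simpa using hα21⟩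
    · exact ⟨by simpa using hα30, by simpa using hα31⟩
    · exact ⟨w40, w41⟩
    · exact ⟨by simpa using hβ10, by simpa using hβ11⟩
    · exact ⟨by simpa using hβ20, by simpa using hβ21⟩
    · exact ⟨by simpa using hβ30, by simpa using hβ31⟩
  intro i j
  have a1 := (hw i).1
  have a2 := (hw i).2
  have a3 := (hw j).1
  have a4 := (hw j).2
  rw [(hall i).1] at a1
  rw [(hall i).2] at a2
  rw [(hall j).1] at a3
  rw [(hall j).2] at a4
  linear_combination -(p i 0 - p j 0) * a1 + (p i 0 - p j 0) * a3 - (p i 1 - p j 1) * a2 +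
    (p i 1 - p j 1) * a4

/-- the polynomial of `cr` -/
noncomputable def crP (i j k : Fin 8) : MvPolynomial (Fin 8 × Fin 2) ℚ :=
  (MvPolynomial.X (i, 0) - MvPolynomial.X (j, 0)) * (MvPolynomial.X (i, 1) - MvPolynomial.X (k, 1)) -
    (MvPolynomial.X (i, 1) - MvPolynomial.X (j, 1)) * (MvPolynomial.X (i, 0) - MvPolynomial.X (k, 0))

/-- the polynomial of `Delta` -/
noncomputable def DeltaP : MvPolynomial (Fin 8 × Fin 2) ℚ :=
  crP 1 6 4 * crP 6 3 0 * crP 3 5 4 * crP 5 2 0 * crP 2 7 4 * crP 7 1 0 -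
    crP 6 1 0 * crP 3 6 4 * crP 5 3 0 * crP 2 5 4 * crP 7 2 0 * crP 1 7 4

lemma aeval_crP (p : Fin 8 → Fin 2 → ℝ) (i j k : Fin 8) :
    MvPolynomial.aeval (fun x : Fin 8 × Fin 2 => p x.1 x.2) (crP i j k) = cr p i j k := by
  simp [crP, cr]

lemma aeval_DeltaP (p : Fin 8 → Fin 2 → ℝ) :
    MvPolynomial.aeval (fun x : Fin 8 × Fin 2 => p x.1 x.2) DeltaP = Delta p := by
  simp only [DeltaP, Delta, map_sub, map_mul, aeval_crP]

/-- a rational point with `Delta ≠ 0` -/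
def pt : Fin 8 → Fin 2 → ℝ :=
  ![![2, 4], ![1, 2], ![2, 3], ![2, 3], ![3, 0], ![0, 2], ![3, 2], ![3, 1]]

lemma Delta_pt : Delta pt ≠ 0 := by
  have h00 : pt 0 0 = 2 := rfl
  have h01 : pt 0 1 = 4 := rfl
  have h10 : pt 1 0 = 1 := rfl
  have h11 : pt 1 1 = 2 := rfl
  have h20 : pt 2 0 = 2 := rfl
  have h21 : pt 2 1 = 3 := rfl
  have h30 : pt 3 0 = 2 := rfl
  have h31 : pt 3 1 = 3 := rfl
  have h40 : pt 4 0 = 3 := rfl
  have h41 : pt 4 1 = 0 := rfl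
  have h50 : pt 5 0 = 0 := rfl
  have h51 : pt 5 1 = 2 := rfl
  have h60 : pt 6 0 = 3 := rfl
  have h61 : pt 6 1 = 2 := rfl
  have h70 : pt 7 0 = 3 := rfl
  have h71 : pt 7 1 = 1 := rfl
  simp only [Delta, cr, h00, h01, h10, h11, h20, h21, h30, h31, h40, h41, h50, h51, h60, h61, h70, h71]
  norm_num

lemma DeltaP_ne : DeltaP ≠ 0 := by
  intro h
  apply Delta_pt
  rw [← aeval_DeltaP, h, map_zero]

/-- **Job RIG.** -/
theorem rig : S_RIG := by
  refine ⟨rig1, fun p hp h => DeltaP_ne ?_⟩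
  rw [← aeval_DeltaP] at h
  exact (injective_iff_map_eq_zero _).mp hp _ h

end Pool.Agent.TR23
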