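import Pool.Agent.TR23.Stm

/-!
# Project TR23: scale invariance, the parity of two distinct roots
-/

set_option autoImplicit false
set_option linter.all false

open Filter Topology

namespace Pool.Agent.TR23

lemma QF_scale (c : ℝ × ℝ × ℝ) (r x z : ℝ) : QF c (r * x) (r * z) = r ^ 2 * QF c x z := by
  unfold QF; ring

lemma NZ_scale {r x z : ℝ} (hr : r ≠ 0) : NZ (r * x) (r * z) ↔ NZ x z := by
  unfold NZ
  simp [hr]

lemma QF_smul (r : ℝ) (c : ℝ × ℝ × ℝ) (x z : ℝ) : QF (r * c.1, r * c.2.1, r * c.2.2) x z = r * QF c x z := by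
  unfold QF; ring

lemma fb_scale (B0 A B e r p q : ℝ) : fb B0 A B e (r * p) (r * q) =
    (r ^ 2 * (fb B0 A B e p q).1, r ^ 2 * (fb B0 A B e p q).2.1, r ^ 2 * (fb B0 A B e p q).2.2) := by
  unfold fb
  refine Prod.ext (by simp only; ring) (Prod.ext (by simp only; ring) (by simp only; ring))

lemma pp_scale (B0 g1 B g r x z : ℝ) : pp B0 g1 B g (r * x) (r * z) =
    (r ^ 2 * (pp B0 g1 B g x z).1, r ^ 2 * (pp B0 g1 B g x z).2.1, r ^ 2 * (pp B0 g1 B g x z).2.2) := by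
  unfold pp
  refine Prod.ext (by simp only; ring) (Prod.ext (by simp only; ring) (by simp only; ring))

lemma R_scale2 (d : Len) (r x2 z2 x3 z3 : ℝ) : d.R (r * x2) (r * z2) x3 z3 = r ^ 4 * d.R x2 z2 x3 z3 := by
  unfold Len.R Len.pp2
  rw [pp_scale]
  unfold res
  simp only
  ring

lemma R_scale3 (d : Len) (r x2 z2 x3 z3 : ℝ) : d.R x2 z2 (r * x3) (r * z3) = r ^ 4 * d.R x2 z2 x3 z3 := by
  unfold Len.R Len.pp3
  rw [pp_scale]
  unfold res
  simp only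
  ring

lemma R_neg2 (d : Len) {r : ℝ} (hr : r ≠ 0) (x2 z2 x3 z3 : ℝ) :
    d.R (r * x2) (r * z2) x3 z3 < 0 ↔ d.R x2 z2 x3 z3 < 0 := by
  rw [R_scale2]
  have : 0 < r ^ 4 := by positivity
  exact ⟨fun h => by nlinarith [h, this], fun h => mul_neg_of_pos_of_neg this h⟩

lemma R_neg3 (d : Len) {r : ℝ} (hr : r ≠ 0) (x2 z2 x3 z3 : ℝ) :
    d.R x2 z2 (r * x3) (r * z3) < 0 ↔ d.R x2 z2 x3 z3 < 0 := by
  rw [R_scale3]
  have : 0 < r ^ 4 := by positivity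
  exact ⟨fun h => by nlinarith [h, this], fun h => mul_neg_of_pos_of_neg this h⟩

lemma Od_smul {r : ℝ} (hr : r ≠ 0) (c : ℝ × ℝ × ℝ) (N : ℝ → ℝ → Prop) :
    Od (r * c.1, r * c.2.1, r * c.2.2) N ↔ Od c N := by
  unfold Od
  simp only [QF_smul, mul_eq_zero, hr, false_or]

lemma Od_iff {c : ℝ × ℝ × ℝ} {N N' : ℝ → ℝ → Prop} (h : ∀ x z, N x z ↔ N' x z) : Od c N ↔ Od c N' := by
  have : N = N' := by
    funext x z
    exact propext (h x z)
  rw [this]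

lemma N3_scale1 (d : Len) {r : ℝ} (hr : r ≠ 0) (p3 q3 x3 z3 : ℝ) :
    N3 d (r * p3) (r * q3) x3 z3 ↔ N3 d p3 q3 x3 z3 := by
  unfold N3 Len.fb2
  rw [fb_scale]
  exact Od_smul (pow_ne_zero 2 hr) _ _

lemma N3_scale2 (d : Len) {r : ℝ} (hr : r ≠ 0) (p3 q3 x3 z3 : ℝ) :
    N3 d p3 q3 (r * x3) (r * z3) ↔ N3 d p3 q3 x3 z3 := by
  unfold N3
  exact Od_iff fun x z => R_neg3 d hr x z x3 z3

lemma N2_scale1 (d : Len) {r : ℝ} (hr : r ≠ 0) (p2 q2 p3 q3 : ℝ) :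
    N2 d (r * p2) (r * q2) p3 q3 ↔ N2 d p2 q2 p3 q3 := by
  unfold N2 Len.fb3
  rw [fb_scale]
  exact Od_smul (pow_ne_zero 2 hr) _ _

lemma N2_scale2 (d : Len) {r : ℝ} (hr : r ≠ 0) (p2 q2 p3 q3 : ℝ) :
    N2 d p2 q2 (r * p3) (r * q3) ↔ N2 d p2 q2 p3 q3 := by
  unfold N2
  exact Od_iff fun x z => N3_scale1 d hr p3 q3 x z

lemma N1_scale (d : Len) {r : ℝ} (hr : r ≠ 0) (t p2 q2 : ℝ) :
    N1 d t (r * p2) (r * q2) ↔ N1 d t p2 q2 := by
  unfold N1
  exact Od_iff fun x z => N2_scale1 d hr p2 q2 x z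

/-- the parity for a form with two distinct finite roots -/
lemma Od_xor {c : ℝ × ℝ × ℝ} {r r' : ℝ} (hc : c.1 ≠ 0) (hr : r ≠ r')
    (hf : ∀ x z, QF c x z = c.1 * (x - r * z) * (x - r' * z)) {N : ℝ → ℝ → Prop}
    (hN : ∀ s x z, s ≠ 0 → (N (s * x) (s * z) ↔ N x z)) : Od c N ↔ Xor' (N r 1) (N r' 1) := by
  have key : ∀ x z, NZ x z → QF c x z = 0 → (z ≠ 0 ∧ (x = z * r ∨ x = z * r')) := by
    intro x z hz h0
    rw [hf] at h0
    rcases mul_eq_zero.1 h0 with h | h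
    · rcases mul_eq_zero.1 h with h | h
      · exact absurd h hc
      · have hz0 : z ≠ 0 := by
          rintro rfl
          rcases hz with hz | hz
          · apply hz; linarith
          · exact hz rfl
        exact ⟨hz0, Or.inl (by linarith)⟩
    · have hz0 : z ≠ 0 := by
        rintro rfl
        rcases hz with hz | hz
        · apply hz; linarith
        · exact hz rfl
      exact ⟨hz0, Or.inr (by linarith)⟩
  have st : ∀ x z, NZ x z → QF c x z = 0 → ((N x z ↔ N r 1) ∨ (N x z ↔ N r' 1)) := by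
    intro x z hz h0
    obtain ⟨hz0, h | h⟩ := key x z hz h0
    · left
      have := hN z r 1 hz0
      rw [mul_one, ← h] at this
      exact this
    · right
      have := hN z r' 1 hz0
      rw [mul_one, ← h] at this
      exact this
  have e1 : QF c r 1 = 0 := by rw [hf]; ring
  have e2 : QF c r' 1 = 0 := by rw [hf]; ring
  have n1 : ∀ x : ℝ, NZ x 1 := fun x => Or.inr one_ne_zero
  constructor
  · rintro ⟨⟨x, z, h1, h2, h3⟩, ⟨y, w, h4, h5, h6⟩⟩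
    rcases st x z h1 h2 with h | h <;> rcases st y w h4 h5 with h' | h'
    · exact absurd (h'.2 (h.1 h3)) h6
    · exact Or.inl ⟨h.1 h3, fun k => h6 (h'.2 k)⟩
    · exact Or.inr ⟨h.1 h3, fun k => h6 (h'.2 k)⟩
    · exact absurd (h'.2 (h.1 h3)) h6
  · rintro (⟨h1, h2⟩ | ⟨h1, h2⟩)
    · exact ⟨⟨r, 1, n1 r, e1, h1⟩, ⟨r', 1, n1 r', e2, h2⟩⟩
    · exact ⟨⟨r', 1, n1 r', e2, h1⟩, ⟨r, 1, n1 r, e1, h2⟩⟩

/-! ### Signs near `0` -/

lemma ord_even {f : ℝ → ℝ} {k : ℕ} {L : ℝ} (h : Ord f k L) (hL : L ≠ 0) (hk : Even k) :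
    ∀ᶠ ε in 𝓝[>] (0 : ℝ), (f (-ε) < 0 ↔ f ε < 0) := by
  have key : ∀ᶠ τ in 𝓝[≠] (0 : ℝ), (f τ < 0 ↔ L < 0) := by
    rcases lt_or_gt_of_ne hL with h0 | h0
    · filter_upwards [h.eventually_lt_const h0, self_mem_nhdsWithin] with τ h1 h2
      have h3 : 0 < τ ^ k := hk.pow_pos h2
      rw [div_lt_iff₀ h3, zero_mul] at h1
      exact ⟨fun _ => h0, fun _ => h1⟩
    · filter_upwards [h.eventually_const_lt h0, self_mem_nhdsWithin] with τ h1 h2
      have h3 : 0 < τ ^ k := hk.pow_pos h2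
      rw [lt_div_iff₀ h3, zero_mul] at h1
      exact ⟨fun h => absurd h (not_lt.2 h1.le), fun h => absurd h (not_lt.2 h0.le)⟩
  have t1 : Tendsto (fun ε : ℝ => ε) (𝓝[>] (0 : ℝ)) (𝓝[≠] 0) :=
    tendsto_id.mono_right (nhdsWithin_mono _ fun x hx => ne_of_gt hx)
  have t2 : Tendsto (fun ε : ℝ => -ε) (𝓝[>] (0 : ℝ)) (𝓝[≠] 0) := by
    refine tendsto_nhdsWithin_iff.2 ⟨?_, ?_⟩
    · have : Tendsto (fun ε : ℝ => -ε) (𝓝 (0 : ℝ)) (𝓝 (-0)) := continuous_neg.tendsto 0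
      rw [neg_zero] at this
      exact this.mono_left nhdsWithin_le_nhds
    · filter_upwards [self_mem_nhdsWithin] with ε hε
      have : (0 : ℝ) < ε := hε
      simp only [Set.mem_compl_iff, Set.mem_singleton_iff, neg_eq_zero]
      exact this.ne'
  filter_upwards [t1.eventually key, t2.eventually key] with ε h1 h2
  rw [h1, h2]

lemma ord_odd {f : ℝ → ℝ} {k : ℕ} {L : ℝ} (h : Ord f k L) (hL : L ≠ 0) (hk : Odd k) :
    ∀ᶠ ε in 𝓝[>] (0 : ℝ), (f (-ε) < 0 ↔ ¬ f ε < 0) := by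
  have t1 : Tendsto (fun ε : ℝ => ε) (𝓝[>] (0 : ℝ)) (𝓝[≠] 0) :=
    tendsto_id.mono_right (nhdsWithin_mono _ fun x hx => ne_of_gt hx)
  have t2 : Tendsto (fun ε : ℝ => -ε) (𝓝[>] (0 : ℝ)) (𝓝[≠] 0) := by
    refine tendsto_nhdsWithin_iff.2 ⟨?_, ?_⟩
    · have : Tendsto (fun ε : ℝ => -ε) (𝓝 (0 : ℝ)) (𝓝 (-0)) := continuous_neg.tendsto 0
      rw [neg_zero] at this
      exact this.mono_left nhdsWithin_le_nhds
    · filter_upwards [self_mem_nhdsWithin] with ε hε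
      have : (0 : ℝ) < ε := hε
      simp only [Set.mem_compl_iff, Set.mem_singleton_iff, neg_eq_zero]
      exact this.ne'
  rcases lt_or_gt_of_ne hL with h0 | h0
  · filter_upwards [t1.eventually (h.eventually_lt_const h0), t2.eventually (h.eventually_lt_const h0),
      self_mem_nhdsWithin] with ε h1 h2 h3
    have h3 : (0 : ℝ) < ε := h3
    have h4 : 0 < ε ^ k := pow_pos h3 k
    rw [div_lt_iff₀ h4, zero_mul] at h1
    rw [hk.neg_pow, div_neg, neg_lt_zero, lt_div_iff₀ h4, zero_mul] at h2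
    exact ⟨fun h => absurd h (not_lt.2 h2.le), fun h => absurd h1 h⟩
  · filter_upwards [t1.eventually (h.eventually_const_lt h0), t2.eventually (h.eventually_const_lt h0),
      self_mem_nhdsWithin] with ε h1 h2 h3
    have h3 : (0 : ℝ) < ε := h3
    have h4 : 0 < ε ^ k := pow_pos h3 k
    rw [lt_div_iff₀ h4, zero_mul] at h1
    rw [hk.neg_pow, div_neg, lt_neg, neg_zero, div_lt_iff₀ h4, zero_mul] at h2
    exact ⟨fun _ => not_lt.2 h1.le, fun _ => h2⟩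

end Pool.Agent.TR23
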