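import Pool.Agent.TR23.Base

/-!
# Project TR23: the existence theorem from the jobs TOP0, CASE1, SYM, L0, L1
-/

set_option autoImplicit false
set_option linter.all false

open Filter Topology

namespace Pool.Agent.TR23

lemma Gen.ne {d : Len} (h : Gen d) {i j : Fin 13} (hij : i ≠ j) : d.vec i ≠ d.vec j := by
  obtain ⟨K, _, h1, h2⟩ := h i
  intro e
  exact h2 (e ▸ h1 j hij.symm)

lemma const_Icc {N : ℝ → Prop} {a b : ℝ} (hab : a ≤ b)
    (h : ∀ t ∈ Set.Icc a b, ∀ᶠ t' in 𝓝 t, (N t' ↔ N t)) : N a ↔ N b := by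
  have hc : PreconnectedSpace (Set.Icc a b) := Subtype.preconnectedSpace isPreconnected_Icc
  have hl : IsLocallyConstant (fun t : Set.Icc a b => N t) := by
    rw [IsLocallyConstant.iff_eventually_eq]
    intro x
    have h1 := (continuous_subtype_val.tendsto x).eventually (h x x.2)
    filter_upwards [h1] with y hy
    exact propext hy
  have := hl.apply_eq_of_preconnectedSpace ⟨a, le_rfl, hab⟩ ⟨b, hab, le_rfl⟩
  exact Iff.of_eq this

lemma qa_diag (B0 B1 A e t p : ℝ) : QF (qa B0 B1 A e t) p p = -(p ^ 2 * (A * t * (1 - t))) := by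
  unfold QF qa
  ring

theorem ex (top0 : S_TOP0) (case1 : S_CASE1) (sym1 : S_SYM1) (sym2 : S_SYM2) (l1 : S_L1) (l0 : S_L0) :
    S_EX := by
  intro d hP hG
  by_contra hS
  have hB0 : 0 < d.B0 := hP 0
  have hA1 : 0 < d.A1 := hP 1
  have hA2 : 0 < d.A2 := hP 2
  have hA3 : 0 < d.A3 := hP 3
  have hB1 : 0 < d.B1 := hP 4
  have hne20 : d.A2 ≠ d.B0 := hG.ne (i := 2) (j := 0) (by decide)
  have hne30 : d.A3 ≠ d.B0 := hG.ne (i := 3) (j := 0) (by decide)
  have hne10 : d.B1 ≠ d.B0 := hG.ne (i := 4) (j := 0) (by decide)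
  -- local constancy
  have hLC : ∀ t : ℝ, t ≠ 0 → t ≠ 1 → d.B0 * t ≠ d.B1 → ∀ᶠ t' in 𝓝 t, (N0 d t' ↔ N0 d t) := by
    intro t h0 h1 h2
    refine top0 d hP hne20 hne30 t h2 fun p2 q2 p3 q3 hn2 hn3 hr2 hr3 => ?_
    have key : ∀ A e p q : ℝ, 0 < A → NZ p q → QF (qa d.B0 d.B1 A e t) p q = 0 → p ≠ q := by
      intro A e p q hA hn hr hpq
      subst hpq
      rw [qa_diag] at hr
      have hp : p ≠ 0 := by
        rcases hn with h | h <;> exact h
      have h3 : 1 - t ≠ 0 := sub_ne_zero.2 (Ne.symm h1)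
      have : p ^ 2 * (A * t * (1 - t)) ≠ 0 := by
        have := hA.ne'
        positivity
      apply this
      linarith
    exact case1 d hP hG hS t p2 q2 p3 q3 h0 h2 hn2 hn3 hr2 hr3 (key _ _ _ _ hA2 hn2 hr2) (key _ _ _ _ hA3 hn3 hr3)
  obtain ⟨s, hs⟩ : ∃ s, s = Real.sqrt (d.B1 / d.B0) := ⟨_, rfl⟩
  have hs0 : 0 < s := by rw [hs]; exact Real.sqrt_pos.2 (div_pos hB1 hB0)
  have hs2 : s ^ 2 = d.B1 / d.B0 := by rw [hs]; exact Real.sq_sqrt (div_pos hB1 hB0).le
  have hs3 : d.B0 * s ^ 2 = d.B1 := by rw [hs2]; field_simp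
  have hn1 : ¬ N0 d s := sym2 d hP hG s hs3
  have hn2 : ¬ N0 d (-s) := sym2 d hP hG (-s) (by rw [neg_sq]; exact hs3)
  have hs1 : s ≠ 1 := by
    intro h
    rw [h] at hs3
    apply hne10
    linarith
  have hbt : ∀ t : ℝ, d.B0 * t = d.B1 → t = s ^ 2 := by
    intro t ht
    rw [hs2, ← ht]
    field_simp
  -- near zero
  have hz : ∀ᶠ ε in 𝓝[>] (0 : ℝ), ¬ N0 d ε := by
    have h1 : ∀ᶠ ε in 𝓝[>] (0 : ℝ), ε < s := by
      filter_upwards [Ioo_mem_nhdsGT hs0] with ε h using h.2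
    filter_upwards [l0 d hP hG, h1, self_mem_nhdsWithin] with ε h2 h3 h4
    have h4 : (0 : ℝ) < ε := h4
    rw [← h2]
    have h5 : N0 d (-s) ↔ N0 d (-ε) := by
      refine const_Icc (N := N0 d) (by linarith) fun t ht => hLC t ?_ ?_ ?_
      · linarith [ht.2]
      · linarith [ht.2]
      · intro h
        have := hbt t h
        nlinarith [ht.2]
    rw [← h5]
    exact hn2
  rcases lt_or_gt_of_ne hs1 with hlt | hgt
  · -- s < 1
    have hss : s ^ 2 < s := by nlinarith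
    have h1 : ∀ᶠ ε in 𝓝[>] (0 : ℝ), ε < 1 - s := by
      filter_upwards [Ioo_mem_nhdsGT (show (0 : ℝ) < 1 - s by linarith)] with ε h using h.2
    have h2 : ∀ᶠ ε in 𝓝[>] (0 : ℝ), ε < s ^ 2 / 2 := by
      filter_upwards [Ioo_mem_nhdsGT (show (0 : ℝ) < s ^ 2 / 2 by positivity)] with ε h using h.2
    have hpos : ∀ᶠ ε in 𝓝[>] (0 : ℝ), (0 : ℝ) < ε := self_mem_nhdsWithin
    obtain ⟨ε, hε0, e1, e2, e3, e4⟩ := (hpos.and (h1.and (h2.and ((l1 d hP hG hS).and hz)))).exists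
    have hε0 : (0 : ℝ) < ε := hε0
    have c1 : N0 d s ↔ N0 d (1 - ε) := by
      refine const_Icc (N := N0 d) (by linarith) fun t ht => hLC t ?_ ?_ ?_
      · linarith [ht.1]
      · linarith [ht.2]
      · intro h
        have := hbt t h
        linarith [ht.1]
    have c2 : ¬ N0 d (1 - ε) := fun h => hn1 (c1.2 h)
    have c3 : N0 d (1 + ε) := by
      by_contra h
      exact c2 (e3.2 h)
    have hT : 1 + ε ≤ d.B1 / (d.B0 * ε) := by
      have : d.B1 / (d.B0 * ε) = s ^ 2 / ε := by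
        rw [hs2]; field_simp
      rw [this, le_div_iff₀ hε0]
      nlinarith
    have c4 : N0 d (1 + ε) ↔ N0 d (d.B1 / (d.B0 * ε)) := by
      refine const_Icc (N := N0 d) hT fun t ht => hLC t ?_ ?_ ?_
      · linarith [ht.1]
      · linarith [ht.1]
      · intro h
        have := hbt t h
        nlinarith [ht.1]
    rw [c4, sym1 d hP ε hε0.ne'] at c3
    exact e4 c3
  · -- 1 < s
    have hss : s < s ^ 2 := by nlinarith
    have h1 : ∀ᶠ ε in 𝓝[>] (0 : ℝ), ε < s - 1 := by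
      filter_upwards [Ioo_mem_nhdsGT (show (0 : ℝ) < s - 1 by linarith)] with ε h using h.2
    have h2 : ∀ᶠ ε in 𝓝[>] (0 : ℝ), ε < 1 / 2 := by
      filter_upwards [Ioo_mem_nhdsGT (show (0 : ℝ) < 1 / 2 by norm_num)] with ε h using h.2
    have hpos : ∀ᶠ ε in 𝓝[>] (0 : ℝ), (0 : ℝ) < ε := self_mem_nhdsWithin
    obtain ⟨ε, hε0, e1, e2, e3, e4⟩ := (hpos.and (h1.and (h2.and ((l1 d hP hG hS).and hz)))).exists
    have hε0 : (0 : ℝ) < ε := hε0
    have c1 : N0 d ε ↔ N0 d (1 - ε) := by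
      refine const_Icc (N := N0 d) (by linarith) fun t ht => hLC t ?_ ?_ ?_
      · linarith [ht.1]
      · linarith [ht.2]
      · intro h
        have := hbt t h
        nlinarith [ht.2]
    have c2 : ¬ N0 d (1 - ε) := fun h => e4 (c1.2 h)
    have c3 : N0 d (1 + ε) := by
      by_contra h
      exact c2 (e3.2 h)
    have c4 : N0 d (1 + ε) ↔ N0 d s := by
      refine const_Icc (N := N0 d) (by linarith) fun t ht => hLC t ?_ ?_ ?_
      · linarith [ht.1]
      · linarith [ht.1]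
      · intro h
        have := hbt t h
        linarith [ht.2]
    exact hn1 (c4.1 c3)

end Pool.Agent.TR23
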