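import Pool.Agent.TR23.Loc
import Pool.Agent.TR23.Case1

/-!
# Project TR23, Job L0: the parity does not change at `t = 0`
-/

set_option autoImplicit false
set_option linter.all false

open Filter Topology

namespace Pool.Agent.TR23

open C1 (swap_gen swap_pos gne g7 g11 g12)

namespace L0

/-- the field without `e13` -/
theorem g8 {d : Len} (h : Gen d) : ∃ K : Subfield ℝ, QC K ∧ d.e13 ∉ K ∧ d.B0 ∈ K ∧ d.A1 ∈ K ∧ d.A2 ∈ K ∧ d.A3 ∈ K ∧
    d.B1 ∈ K ∧ d.B2 ∈ K ∧ d.B3 ∈ K ∧ d.e12 ∈ K ∧ d.e21 ∈ K ∧ d.e23 ∈ K ∧ d.e31 ∈ K ∧ d.e32 ∈ K := by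
  obtain ⟨K, hK, hm, hn⟩ := h 8
  exact ⟨K, hK, hn, hm 0 (by decide), hm 1 (by decide), hm 2 (by decide), hm 3 (by decide), hm 4 (by decide),
    hm 5 (by decide), hm 6 (by decide), hm 7 (by decide), hm 9 (by decide), hm 10 (by decide), hm 11 (by decide),
    hm 12 (by decide)⟩

/-- the field without `e21` -/
theorem g9 {d : Len} (h : Gen d) : ∃ K : Subfield ℝ, QC K ∧ d.e21 ∉ K ∧ d.B0 ∈ K ∧ d.A1 ∈ K ∧ d.A2 ∈ K ∧ d.A3 ∈ K ∧
    d.B1 ∈ K ∧ d.B2 ∈ K ∧ d.B3 ∈ K ∧ d.e12 ∈ K ∧ d.e13 ∈ K ∧ d.e23 ∈ K ∧ d.e31 ∈ K ∧ d.e32 ∈ K := by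
  obtain ⟨K, hK, hm, hn⟩ := h 9
  exact ⟨K, hK, hn, hm 0 (by decide), hm 1 (by decide), hm 2 (by decide), hm 3 (by decide), hm 4 (by decide),
    hm 5 (by decide), hm 6 (by decide), hm 7 (by decide), hm 8 (by decide), hm 10 (by decide), hm 11 (by decide),
    hm 12 (by decide)⟩

/-- the field without `e23` -/
theorem g10 {d : Len} (h : Gen d) : ∃ K : Subfield ℝ, QC K ∧ d.e23 ∉ K ∧ d.B0 ∈ K ∧ d.A1 ∈ K ∧ d.A2 ∈ K ∧ d.A3 ∈ K ∧
    d.B1 ∈ K ∧ d.B2 ∈ K ∧ d.B3 ∈ K ∧ d.e12 ∈ K ∧ d.e13 ∈ K ∧ d.e21 ∈ K ∧ d.e31 ∈ K ∧ d.e32 ∈ K := by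
  obtain ⟨K, hK, hm, hn⟩ := h 10
  exact ⟨K, hK, hn, hm 0 (by decide), hm 1 (by decide), hm 2 (by decide), hm 3 (by decide), hm 4 (by decide),
    hm 5 (by decide), hm 6 (by decide), hm 7 (by decide), hm 8 (by decide), hm 9 (by decide), hm 11 (by decide),
    hm 12 (by decide)⟩

/-- `f2`, the limit of the branch `F` of `b2` -/
noncomputable def f2 (d : Len) : ℝ := (d.B2 - d.e32) / (d.B0 - d.A3)
/-- `f3`, the limit of the branch `F` of `b3` -/
noncomputable def f3 (d : Len) : ℝ := (d.B3 - d.e23) / (d.B0 - d.A2)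

lemma f2_ne0 {d : Len} (h : Gen d) : f2 d ≠ 0 :=
  div_ne_zero (sub_ne_zero.2 (gne h (j := 5) (k := 12) (by decide)))
    (sub_ne_zero.2 (gne h (j := 0) (k := 3) (by decide)))

lemma f2_ne1 {d : Len} (h : Gen d) : f2 d ≠ 1 := by
  intro e
  have hb : d.B0 - d.A3 ≠ 0 := sub_ne_zero.2 (gne h (j := 0) (k := 3) (by decide))
  unfold f2 at e
  rw [div_eq_one_iff_eq hb] at e
  obtain ⟨K, hK, hn, b0, a1, a2, a3, b1, b2, b3, m12, m13, m21, m23, m31⟩ := g12 h
  apply hn
  have : d.e32 = d.B2 - (d.B0 - d.A3) := by linarith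
  rw [this]
  (repeat' (first | assumption | exact one_mem _ | exact zero_mem _ | apply ofNat_mem | apply add_mem | apply sub_mem | apply mul_mem | apply div_mem | apply neg_mem | apply pow_mem | apply inv_mem))

/-- `b2 = F`, `b3 = J` -/
lemma ncFJ {d : Len} (hP : d.Pos) (h : Gen d) : NC d (f2 d) 1 0 1 := by
  refine NC_J d (hP 6).ne' (hP 1).ne' (f2_ne0 h) (f2_ne1 h) ?_
  intro e
  obtain ⟨K, hK, hn, b0, a1, a2, a3, b1, b2, b3, m13, m21, m23, m31, m32⟩ := g7 h
  apply hn
  have : d.e12 = d.B2 - (d.B0 - d.A1) * ((d.B2 - d.e32) / (d.B0 - d.A3)) := by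
    unfold f2 at e
    linarith
  rw [this]
  (repeat' (first | assumption | exact one_mem _ | exact zero_mem _ | apply ofNat_mem | apply add_mem | apply sub_mem | apply mul_mem | apply div_mem | apply neg_mem | apply pow_mem | apply inv_mem))

/-- `b2 = F`, `b3 = N` -/
lemma ncFN {d : Len} (hP : d.Pos) (h : Gen d) : NC d (f2 d) 1 1 1 := by
  have hb3 : d.B0 ≠ d.B3 := gne h (j := 0) (k := 6) (by decide)
  have ha1 : d.A1 ≠ d.e13 := gne h (j := 1) (k := 8) (by decide)
  refine NC_N d hb3 (hP 1).ne' (f2_ne0 h) (f2_ne1 h) ?_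
  intro e
  obtain ⟨K, hK, hn, b0, a1, a2, a3, b1, b2, b3, m13, m21, m23, m31, m32⟩ := g7 h
  apply hn
  have hf : f2 d ∈ K := by
    unfold f2
    (repeat' (first | assumption | exact one_mem _ | exact zero_mem _ | apply ofNat_mem | apply add_mem | apply sub_mem | apply mul_mem | apply div_mem | apply neg_mem | apply pow_mem | apply inv_mem))
  have hf0 := f2_ne0 h
  obtain ⟨f, hf'⟩ : ∃ f, f = f2 d := ⟨_, rfl⟩
  rw [← hf'] at e hf hf0
  obtain ⟨u, hu⟩ : ∃ u, u = (d.B0 - d.A1) - (d.B3 - d.e13) := ⟨_, rfl⟩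
  obtain ⟨w, hw⟩ : ∃ w, w = d.B0 - d.B3 := ⟨_, rfl⟩
  have hw0 : w ≠ 0 := by rw [hw]; exact sub_ne_zero.2 hb3
  have huw : u - w ≠ 0 := by
    rw [hu, hw]
    intro h0
    apply ha1
    linarith
  have huK : u ∈ K := by rw [hu]; (repeat' (first | assumption | exact one_mem _ | exact zero_mem _ | apply ofNat_mem | apply add_mem | apply sub_mem | apply mul_mem | apply div_mem | apply neg_mem | apply pow_mem | apply inv_mem))
  have hwK : w ∈ K := by rw [hw]; (repeat' (first | assumption | exact one_mem _ | exact zero_mem _ | apply ofNat_mem | apply add_mem | apply sub_mem | apply mul_mem | apply div_mem | apply neg_mem | apply pow_mem | apply inv_mem))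
  rw [← hu, ← hw] at e
  have hc : f * w * (u - w) ≠ 0 := mul_ne_zero (mul_ne_zero hf0 hw0) huw
  have : d.e12 = d.B2 - (-(((d.B0 * f - d.B2) * u ^ 2 + (-(d.B0 - d.A1) * f + d.B2 - d.B0 * f ^ 2) * u * w +
      (d.B0 - d.A1) * f ^ 2 * w ^ 2)) / (f * w * (u - w))) := by
    field_simp
    unfold QF Len.pp2 pp at e
    simp only at e
    linear_combination -e
  rw [this]
  (repeat' (first | assumption | exact one_mem _ | exact zero_mem _ | apply ofNat_mem | apply add_mem | apply sub_mem | apply mul_mem | apply div_mem | apply neg_mem | apply pow_mem | apply inv_mem))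

/-- `b2 = F`, `b3 = F` -/
lemma ncFF {d : Len} (hP : d.Pos) (h : Gen d) : NC d (f2 d) 1 (f3 d) 1 := by
  intro u w hn e2 e3
  have hA1 : d.A1 ≠ 0 := (hP 1).ne'
  have hf0 := f2_ne0 h
  have hf1 := f2_ne1 h
  have hg0 : f3 d ≠ 0 := div_ne_zero (sub_ne_zero.2 (gne h (j := 6) (k := 10) (by decide)))
    (sub_ne_zero.2 (gne h (j := 0) (k := 2) (by decide)))
  -- the coefficient of `u ^ 2` of the first form
  have hc2 : d.B0 * f2 d - d.B2 ≠ 0 := by
    intro h0
    obtain ⟨K, hK, hn', b0, a1, a2, a3, b1, b2, b3, m12, m13, m21, m23, m31⟩ := g12 h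
    apply hn'
    have hb0 : d.B0 ≠ 0 := (hP 0).ne'
    have hb : d.B0 - d.A3 ≠ 0 := sub_ne_zero.2 (gne h (j := 0) (k := 3) (by decide))
    have : d.e32 = d.B2 - d.B2 / d.B0 * (d.B0 - d.A3) := by
      unfold f2 at h0
      field_simp at h0 ⊢
      linear_combination -h0
    rw [this]
    (repeat' (first | assumption | exact one_mem _ | exact zero_mem _ | apply ofNat_mem | apply add_mem | apply sub_mem | apply mul_mem | apply div_mem | apply neg_mem | apply pow_mem | apply inv_mem))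
  obtain ⟨K, hK, hnK, b0, a1, a2, a3, b1, b2, b3, m12, m21, m23, m31, m32⟩ := g8 h
  have hfK : f2 d ∈ K := by
    unfold f2
    (repeat' (first | assumption | exact one_mem _ | exact zero_mem _ | apply ofNat_mem | apply add_mem | apply sub_mem | apply mul_mem | apply div_mem | apply neg_mem | apply pow_mem | apply inv_mem))
  have hgK : f3 d ∈ K := by
    unfold f3
    (repeat' (first | assumption | exact one_mem _ | exact zero_mem _ | apply ofNat_mem | apply add_mem | apply sub_mem | apply mul_mem | apply div_mem | apply neg_mem | apply pow_mem | apply inv_mem))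
  generalize f2 d = f at *
  generalize f3 d = g at *
  by_cases hw : w = 0
  · subst hw
    have hu : u ≠ 0 := by
      rcases hn with hn | hn
      · exact hn
      · exact absurd rfl hn
    unfold QF Len.pp2 pp at e2
    simp only at e2
    have : (d.B0 * f - d.B2) * u ^ 2 = 0 := by linear_combination e2
    rcases mul_eq_zero.1 this with h0 | h0
    · exact hc2 h0
    · exact hu (pow_eq_zero_iff two_ne_zero |>.1 h0)
  · obtain ⟨r, hr⟩ : ∃ r, r = u / w := ⟨_, rfl⟩
    have hu : u = r * w := by rw [hr]; field_simp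
    have e2' : (d.B0 * f - d.B2) * r ^ 2 + ((d.B2 - d.e12) * f - (d.B0 - d.A1) * f + d.B2 - d.B0 * f ^ 2) * r +
        ((d.B0 - d.A1) * f ^ 2 - (d.B2 - d.e12) * f) = 0 := by
      unfold QF Len.pp2 pp at e2
      simp only at e2
      have hw2 : w ^ 2 ≠ 0 := pow_ne_zero 2 hw
      apply mul_right_cancel₀ hw2
      rw [hu] at e2
      linear_combination e2
    have e3' : (d.B0 * g - d.B3) * r ^ 2 + ((d.B3 - d.e13) * g - (d.B0 - d.A1) * g + d.B3 - d.B0 * g ^ 2) * r +
        ((d.B0 - d.A1) * g ^ 2 - (d.B3 - d.e13) * g) = 0 := by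
      unfold QF Len.pp3 pp at e3
      simp only at e3
      have hw2 : w ^ 2 ≠ 0 := pow_ne_zero 2 hw
      apply mul_right_cancel₀ hw2
      rw [hu] at e3
      linear_combination e3
    have hrK : r ∈ K := by
      refine hK _ _ _ r ?_ ?_ ?_ (Or.inl hc2) e2'
      · (repeat' (first | assumption | exact one_mem _ | exact zero_mem _ | apply ofNat_mem | apply add_mem | apply sub_mem | apply mul_mem | apply div_mem | apply neg_mem | apply pow_mem | apply inv_mem))
      · (repeat' (first | assumption | exact one_mem _ | exact zero_mem _ | apply ofNat_mem | apply add_mem | apply sub_mem | apply mul_mem | apply div_mem | apply neg_mem | apply pow_mem | apply inv_mem))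
      · (repeat' (first | assumption | exact one_mem _ | exact zero_mem _ | apply ofNat_mem | apply add_mem | apply sub_mem | apply mul_mem | apply div_mem | apply neg_mem | apply pow_mem | apply inv_mem))
    have hr1 : r - 1 ≠ 0 := by
      intro h0
      have hr1 : r = 1 := by linarith
      rw [hr1] at e2'
      have : d.A1 * f * (1 - f) = 0 := by linear_combination e2'
      rcases mul_eq_zero.1 this with h1 | h1
      · rcases mul_eq_zero.1 h1 with h1 | h1
        · exact hA1 h1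
        · exact hf0 h1
      · apply hf1
        linarith
    apply hnK
    have hc : g * (r - 1) ≠ 0 := mul_ne_zero hg0 hr1
    have : d.e13 = d.B3 - (-((d.B0 * g - d.B3) * r ^ 2 + (-(d.B0 - d.A1) * g + d.B3 - d.B0 * g ^ 2) * r +
        (d.B0 - d.A1) * g ^ 2) / (g * (r - 1))) := by
      field_simp
      linear_combination -e3'
    rw [this]
    (repeat' (first | assumption | exact one_mem _ | exact zero_mem _ | apply ofNat_mem | apply add_mem | apply sub_mem | apply mul_mem | apply div_mem | apply neg_mem | apply pow_mem | apply inv_mem))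

lemma f2_swap (d : Len) : f2 d.swap = f3 d := rfl

/-- `b2 = J`, `b3 = F` -/
lemma ncJF {d : Len} (hP : d.Pos) (h : Gen d) : NC d 0 1 (f3 d) 1 := by
  have := ncFJ (swap_pos hP) (swap_gen h)
  rw [f2_swap] at this
  exact (NC_swap d 0 1 (f3 d) 1).1 this

end L0

end Pool.Agent.TR23
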