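import Pool.Agent.TR23.LR

/-!
# Project TR23: bookkeeping for the local analysis at the special points
-/

set_option autoImplicit false
set_option linter.all false

open Filter Topology

namespace Pool.Agent.TR23

/-- the same truth value on both sides of `0` -/
def Same (P : ℝ → Prop) : Prop := ∀ᶠ ε in 𝓝[>] (0 : ℝ), (P (-ε) ↔ P ε)
/-- different truth values on the two sides of `0` -/
def Flip (P : ℝ → Prop) : Prop := ∀ᶠ ε in 𝓝[>] (0 : ℝ), (P (-ε) ↔ ¬ P ε)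

lemma tpos : Tendsto (fun ε : ℝ => ε) (𝓝[>] (0 : ℝ)) (𝓝[≠] 0) :=
  tendsto_id.mono_right (nhdsWithin_mono _ fun x hx => ne_of_gt hx)

lemma tneg : Tendsto (fun ε : ℝ => -ε) (𝓝[>] (0 : ℝ)) (𝓝[≠] 0) := by
  refine tendsto_nhdsWithin_iff.2 ⟨?_, ?_⟩
  · have : Tendsto (fun ε : ℝ => -ε) (𝓝 (0 : ℝ)) (𝓝 (-0)) := continuous_neg.tendsto 0
    rw [neg_zero] at this
    exact this.mono_left nhdsWithin_le_nhds
  · filter_upwards [self_mem_nhdsWithin] with ε hε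
    have : (0 : ℝ) < ε := hε
    simp only [Set.mem_compl_iff, Set.mem_singleton_iff, neg_eq_zero]
    exact this.ne'

lemma Same.congr {P Q : ℝ → Prop} (h : Same P) (e : ∀ᶠ τ in 𝓝[≠] (0 : ℝ), (Q τ ↔ P τ)) : Same Q := by
  filter_upwards [h, tpos.eventually e, tneg.eventually e] with ε h1 h2 h3
  rw [h2, h3, h1]

lemma Flip.congr {P Q : ℝ → Prop} (h : Flip P) (e : ∀ᶠ τ in 𝓝[≠] (0 : ℝ), (Q τ ↔ P τ)) : Flip Q := by
  filter_upwards [h, tpos.eventually e, tneg.eventually e] with ε h1 h2 h3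
  rw [h2, h3, h1]

lemma same_of_const {P : ℝ → Prop} {c : Prop} (e : ∀ᶠ τ in 𝓝[≠] (0 : ℝ), (P τ ↔ c)) : Same P := by
  filter_upwards [tpos.eventually e, tneg.eventually e] with ε h2 h3
  rw [h2, h3]

lemma Same.xor {P Q : ℝ → Prop} (h : Same P) (k : Same Q) : Same fun τ => Xor' (P τ) (Q τ) := by
  filter_upwards [h, k] with ε h1 h2
  rw [h1, h2]

lemma Same.xorF {P Q : ℝ → Prop} (h : Same P) (k : Flip Q) : Flip fun τ => Xor' (P τ) (Q τ) := by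
  filter_upwards [h, k] with ε h1 h2
  rw [h1, h2]
  unfold Xor' Xor
  tauto

lemma Flip.xorS {P Q : ℝ → Prop} (h : Flip P) (k : Same Q) : Flip fun τ => Xor' (P τ) (Q τ) := by
  filter_upwards [h, k] with ε h1 h2
  rw [h1, h2]
  unfold Xor' Xor
  tauto

lemma Flip.xor {P Q : ℝ → Prop} (h : Flip P) (k : Flip Q) : Same fun τ => Xor' (P τ) (Q τ) := by
  filter_upwards [h, k] with ε h1 h2
  rw [h1, h2]
  unfold Xor' Xor
  tauto

/-- the negativity of the resultant for `b2 = (x2 : 1)`, `b3 = (x3 : 1)` -/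
def Ng (d : Len) (x2 x3 : ℝ → ℝ) (τ : ℝ) : Prop := d.R (x2 τ) 1 (x3 τ) 1 < 0

lemma N2_xor (d : Len) {u2 u3 x3 x3' x2 x2' : ℝ → ℝ} (h3 : Roots (fun τ => d.fb3 (u2 τ) 1) x3 x3')
    (h2 : Roots (fun τ => d.fb2 (u3 τ) 1) x2 x2') :
    ∀ᶠ τ in 𝓝[≠] (0 : ℝ), (N2 d (u2 τ) 1 (u3 τ) 1 ↔
      Xor' (Xor' (Ng d x2 x3 τ) (Ng d x2' x3 τ)) (Xor' (Ng d x2 x3' τ) (Ng d x2' x3' τ))) := by
  filter_upwards [h3, h2] with τ h3 h2
  have e : ∀ x z, N3 d (u3 τ) 1 x z ↔ Xor' (d.R (x2 τ) 1 x z < 0) (d.R (x2' τ) 1 x z < 0) := by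
    intro x z
    unfold N3
    exact Od_xor h2.1 h2.2.1 h2.2.2 fun s x' z' hs => R_neg2 d hs x' z' x z
  unfold N2
  rw [Od_xor h3.1 h3.2.1 h3.2.2 fun s x z hs => N3_scale2 d hs _ _ x z, e, e]
  rfl

lemma N0_xor (d : Len) {t₀ : ℝ} {u2 u2' u3 u3' : ℝ → ℝ} (h2 : Roots (fun τ => d.qa2 (t₀ + τ)) u2 u2')
    (h3 : Roots (fun τ => d.qa3 (t₀ + τ)) u3 u3') :
    ∀ᶠ τ in 𝓝[≠] (0 : ℝ), (N0 d (t₀ + τ) ↔
      Xor' (Xor' (N2 d (u2 τ) 1 (u3 τ) 1) (N2 d (u2 τ) 1 (u3' τ) 1))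
        (Xor' (N2 d (u2' τ) 1 (u3 τ) 1) (N2 d (u2' τ) 1 (u3' τ) 1))) := by
  filter_upwards [h3, h2] with τ h3 h2
  have e : ∀ x z, N1 d (t₀ + τ) x z ↔ Xor' (N2 d x z (u3 τ) 1) (N2 d x z (u3' τ) 1) := by
    intro x z
    unfold N1
    exact Od_xor h3.1 h3.2.1 h3.2.2 fun s x' z' hs => N2_scale2 d hs x z x' z'
  unfold N0
  rw [Od_xor h2.1 h2.2.1 h2.2.2 fun s x z hs => N1_scale d hs _ x z, e, e]

lemma Roots.symm {c : ℝ → ℝ × ℝ × ℝ} {r r' : ℝ → ℝ} (h : Roots c r r') : Roots c r' r := by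
  filter_upwards [h] with τ h
  refine ⟨h.1, h.2.1.symm, fun x z => ?_⟩
  rw [h.2.2]
  ring

/-- the resultant is symmetric -/
lemma R_swap (d : Len) (x2 z2 x3 z3 : ℝ) : d.swap.R x3 z3 x2 z2 = d.R x2 z2 x3 z3 := by
  unfold Len.R Len.pp2 Len.pp3 Len.swap res
  simp only
  ring

lemma Ng_swap (d : Len) (x2 x3 : ℝ → ℝ) (τ : ℝ) : Ng d.swap x3 x2 τ ↔ Ng d x2 x3 τ := by
  unfold Ng
  rw [R_swap]

lemma NC_swap (d : Len) (x2 z2 x3 z3 : ℝ) : NC d.swap x3 z3 x2 z2 ↔ NC d x2 z2 x3 z3 := by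
  unfold NC
  have e1 : d.swap.pp2 x3 z3 = d.pp3 x3 z3 := rfl
  have e2 : d.swap.pp3 x2 z2 = d.pp2 x2 z2 := rfl
  rw [e1, e2]
  constructor
  · intro h u w hn h1 h2
    exact h u w hn h2 h1
  · intro h u w hn h1 h2
    exact h u w hn h2 h1

/-- a branch pair with limits without a common root -/
lemma same_of_NC (top4 : S_TOP4) (d : Len) {x2 x3 : ℝ → ℝ} {a b : ℝ}
    (h2 : Tendsto x2 (𝓝[≠] (0 : ℝ)) (𝓝 a)) (h3 : Tendsto x3 (𝓝[≠] (0 : ℝ)) (𝓝 b)) (hn : NC d a 1 b 1) :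
    Same (Ng d x2 x3) := by
  have h := top4 d a 1 b 1 (Or.inr one_ne_zero) (Or.inr one_ne_zero) hn
  have t : Tendsto (fun τ : ℝ => (((x2 τ, (1 : ℝ)), (x3 τ, (1 : ℝ))) : (ℝ × ℝ) × (ℝ × ℝ))) (𝓝[≠] (0 : ℝ))
      (𝓝 ((a, 1), (b, 1))) :=
    (h2.prodMk_nhds tendsto_const_nhds).prodMk_nhds (h3.prodMk_nhds tendsto_const_nhds)
  exact same_of_const (t.eventually h)

lemma ord_tendsto {f : ℝ → ℝ} {L : ℝ} (h : Ord f 1 L) : Tendsto f (𝓝[≠] (0 : ℝ)) (𝓝 0) := by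
  have h1 := (LRx.ord1 h).mul LRx.t0
  rw [mul_zero] at h1
  refine h1.congr' ?_
  filter_upwards [self_mem_nhdsWithin] with τ hτ
  have hτ : τ ≠ 0 := hτ
  field_simp

lemma ord_tendsto1 {f : ℝ → ℝ} {L : ℝ} (h : Ord (fun τ => f τ - 1) 1 L) : Tendsto f (𝓝[≠] (0 : ℝ)) (𝓝 1) := by
  have h1 := (ord_tendsto h).add_const 1
  rw [zero_add] at h1
  refine h1.congr fun τ => ?_
  ring

/-! ### No common roots -/

lemma pp_one (B0 A1 B g x z w : ℝ) : QF (pp B0 (B0 - A1) B g x z) w w = w ^ 2 * (A1 * x * (z - x)) := by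
  unfold QF pp
  ring

/-- `b3 = (0 : 1)` -/
lemma NC_J (d : Len) (hB3 : d.B3 ≠ 0) (hA1 : d.A1 ≠ 0) {x2 z2 : ℝ} (h0 : x2 ≠ 0) (h1 : x2 ≠ z2)
    (h2 : (d.B0 - d.A1) * x2 ≠ (d.B2 - d.e12) * z2) : NC d x2 z2 0 1 := by
  intro u w hn e2 e3
  have h3 : QF (d.pp3 0 1) u w = -d.B3 * u * (u - w) := by
    unfold QF Len.pp3 pp
    ring
  rw [h3] at e3
  rcases mul_eq_zero.1 e3 with h | h
  · rcases mul_eq_zero.1 h with h | h
    · exact hB3 (neg_eq_zero.1 h)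
    · subst h
      have hw : w ≠ 0 := by
        rcases hn with hn | hn
        · exact absurd rfl hn
        · exact hn
      have e : QF (d.pp2 x2 z2) 0 w = w ^ 2 * (x2 * ((d.B0 - d.A1) * x2 - (d.B2 - d.e12) * z2)) := by
        unfold QF Len.pp2 pp
        ring
      rw [e] at e2
      rcases mul_eq_zero.1 e2 with h | h
      · exact hw (pow_eq_zero_iff (two_ne_zero) |>.1 h)
      · rcases mul_eq_zero.1 h with h | h
        · exact h0 h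
        · exact h2 (sub_eq_zero.1 h)
  · have hu : u = w := sub_eq_zero.1 h
    subst hu
    have hw : u ≠ 0 := by
      rcases hn with hn | hn <;> exact hn
    have e : QF (d.pp2 x2 z2) u u = u ^ 2 * (d.A1 * x2 * (z2 - x2)) := pp_one _ _ _ _ _ _ _
    rw [e] at e2
    have : u ^ 2 * (d.A1 * x2 * (z2 - x2)) ≠ 0 :=
      mul_ne_zero (pow_ne_zero 2 hw) (mul_ne_zero (mul_ne_zero hA1 h0) (sub_ne_zero.2 h1.symm))
    exact this e2

/-- `b3 = (1 : 1)` -/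
lemma NC_N (d : Len) (hB : d.B0 ≠ d.B3) (hA1 : d.A1 ≠ 0) {x2 z2 : ℝ} (h0 : x2 ≠ 0) (h1 : x2 ≠ z2)
    (h2 : QF (d.pp2 x2 z2) ((d.B0 - d.A1) - (d.B3 - d.e13)) (d.B0 - d.B3) ≠ 0) : NC d x2 z2 1 1 := by
  intro u w hn e2 e3
  have h3 : QF (d.pp3 1 1) u w = (u - w) * ((d.B0 - d.B3) * u - ((d.B0 - d.A1) - (d.B3 - d.e13)) * w) := by
    unfold QF Len.pp3 pp
    ring
  rw [h3] at e3
  rcases mul_eq_zero.1 e3 with h | h
  · have hu : u = w := sub_eq_zero.1 h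
    subst hu
    have hw : u ≠ 0 := by
      rcases hn with hn | hn <;> exact hn
    have e : QF (d.pp2 x2 z2) u u = u ^ 2 * (d.A1 * x2 * (z2 - x2)) := pp_one _ _ _ _ _ _ _
    rw [e] at e2
    have : u ^ 2 * (d.A1 * x2 * (z2 - x2)) ≠ 0 :=
      mul_ne_zero (pow_ne_zero 2 hw) (mul_ne_zero (mul_ne_zero hA1 h0) (sub_ne_zero.2 h1.symm))
    exact this e2
  · have hb : d.B0 - d.B3 ≠ 0 := sub_ne_zero.2 hB
    have hw : w ≠ 0 := by
      rintro rfl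
      rw [mul_zero, sub_zero] at h
      rcases mul_eq_zero.1 h with h | h
      · exact hb h
      · rcases hn with hn | hn
        · exact hn h
        · exact hn rfl
    apply h2
    -- (g, b) = (b / w) (u, w)
    have e : QF (d.pp2 x2 z2) ((d.B0 - d.A1) - (d.B3 - d.e13)) (d.B0 - d.B3) =
        ((d.B0 - d.B3) / w) ^ 2 * QF (d.pp2 x2 z2) u w := by
      rw [← QF_scale]
      congr 1
      · field_simp
        linarith
      · field_simp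
    rw [e, e2, mul_zero]

end Pool.Agent.TR23
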