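import Pool.Agent.TR23.Stm

/-!
# Project TR23, jobs LA and LB: the two roots of a binary quadratic form with a small root
-/

set_option autoImplicit false
set_option linter.all false

open Filter Topology

namespace Pool.Agent.TR23

lemma tendsto_id_ne : Tendsto (fun τ : ℝ => τ) (𝓝[≠] (0 : ℝ)) (𝓝 0) :=
  tendsto_id.mono_left nhdsWithin_le_nhds

/-- `f = τ * (f / τ)` tends to `0` -/
lemma tendsto_zero_of_div {f : ℝ → ℝ} {L : ℝ} (h : Tendsto (fun τ => f τ / τ) (𝓝[≠] (0 : ℝ)) (𝓝 L)) :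
    Tendsto f (𝓝[≠] (0 : ℝ)) (𝓝 0) := by
  have h1 := tendsto_id_ne.mul h
  rw [zero_mul] at h1
  refine h1.congr' ?_
  filter_upwards [self_mem_nhdsWithin] with τ hτ
  have hτ : τ ≠ 0 := hτ
  field_simp

/-- The roots of `a x² + b x z + c z²` when `a → a₀ ≠ 0`, `b → b₀ ≠ 0`, `c / τ → c₁`: a small root `r` with
`r / τ → - c₁ / b₀`, and another one `r' → - b₀ / a₀`. -/
lemma roots_small {a b c : ℝ → ℝ} {a0 b0 c1 : ℝ} (ha0 : a0 ≠ 0) (hb0 : b0 ≠ 0)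
    (ha : Tendsto a (𝓝[≠] (0 : ℝ)) (𝓝 a0)) (hb : Tendsto b (𝓝[≠] (0 : ℝ)) (𝓝 b0))
    (hc : Tendsto (fun τ => c τ / τ) (𝓝[≠] (0 : ℝ)) (𝓝 c1)) :
    ∃ r r' : ℝ → ℝ, (∀ᶠ τ in 𝓝[≠] (0 : ℝ), a τ ≠ 0 ∧ r τ ≠ r' τ ∧ (r τ + r' τ = -(b τ / a τ)) ∧
      ∀ x z, a τ * x ^ 2 + b τ * x * z + c τ * z ^ 2 = a τ * (x - r τ * z) * (x - r' τ * z)) ∧
      Tendsto (fun τ => r τ / τ) (𝓝[≠] (0 : ℝ)) (𝓝 (-c1 / b0)) ∧
      Tendsto r' (𝓝[≠] (0 : ℝ)) (𝓝 (-b0 / a0)) := by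
  have hc0 : Tendsto c (𝓝[≠] (0 : ℝ)) (𝓝 0) := tendsto_zero_of_div hc
  set s : ℝ := b0 / |b0| with hs
  have hb0' : |b0| ≠ 0 := abs_ne_zero.2 hb0
  have hs1 : s * |b0| = b0 := by rw [hs]; field_simp
  have hs2 : s ^ 2 = 1 := by
    rw [hs, div_pow, sq_abs, div_self (pow_ne_zero 2 hb0)]
  set D : ℝ → ℝ := fun τ => b τ ^ 2 - 4 * a τ * c τ with hD
  have hDl : Tendsto D (𝓝[≠] (0 : ℝ)) (𝓝 (b0 ^ 2)) := by
    have h := (hb.pow 2).sub ((tendsto_const_nhds (x := (4 : ℝ))).mul ha |>.mul hc0)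
    rw [mul_zero, sub_zero] at h
    exact h
  have hDpos : ∀ᶠ τ in 𝓝[≠] (0 : ℝ), 0 < D τ := hDl.eventually_const_lt (by positivity)
  set q : ℝ → ℝ := fun τ => -(b τ + s * √(D τ)) / 2 with hq
  have hql : Tendsto q (𝓝[≠] (0 : ℝ)) (𝓝 (-b0)) := by
    have h1 : Tendsto (fun τ => √(D τ)) (𝓝[≠] (0 : ℝ)) (𝓝 |b0|) := by
      have := (Real.continuous_sqrt.tendsto (b0 ^ 2)).comp hDl
      rw [Real.sqrt_sq_eq_abs] at this
      exact this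
    have h2 := ((hb.add (h1.const_mul s)).neg).div_const 2
    rw [hs1] at h2
    convert h2 using 2
    ring
  have hq0 : ∀ᶠ τ in 𝓝[≠] (0 : ℝ), q τ ≠ 0 := hql.eventually_ne (neg_ne_zero.2 hb0)
  have ha0' : ∀ᶠ τ in 𝓝[≠] (0 : ℝ), a τ ≠ 0 := ha.eventually_ne ha0
  have hqeq : ∀ᶠ τ in 𝓝[≠] (0 : ℝ), q τ ^ 2 + b τ * q τ + a τ * c τ = 0 := by
    filter_upwards [hDpos] with τ h
    have h1 : √(D τ) ^ 2 = D τ := Real.sq_sqrt h.le
    have : q τ ^ 2 + b τ * q τ + a τ * c τ =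
        (s ^ 2 * √(D τ) ^ 2 - b τ ^ 2) / 4 + a τ * c τ := by
      simp only [hq]; ring
    rw [this, h1, hs2]
    simp only [hD]
    ring
  have hr1 : Tendsto (fun τ => c τ / q τ / τ) (𝓝[≠] (0 : ℝ)) (𝓝 (-c1 / b0)) := by
    have h := hc.div hql (neg_ne_zero.2 hb0)
    have e : c1 / -b0 = -c1 / b0 := by rw [div_neg, neg_div]
    rw [e] at h
    refine h.congr' ?_
    filter_upwards with τ
    exact div_right_comm _ _ _
  have hr2 : Tendsto (fun τ => q τ / a τ) (𝓝[≠] (0 : ℝ)) (𝓝 (-b0 / a0)) := hql.div ha ha0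
  have hne : ∀ᶠ τ in 𝓝[≠] (0 : ℝ), c τ / q τ ≠ q τ / a τ := by
    have h1 : Tendsto (fun τ => c τ / q τ - q τ / a τ) (𝓝[≠] (0 : ℝ)) (𝓝 (0 - -b0 / a0)) :=
      (tendsto_zero_of_div hr1).sub hr2
    have h2 : (0 : ℝ) - -b0 / a0 ≠ 0 := by
      rw [zero_sub, neg_div, neg_neg]
      exact div_ne_zero hb0 ha0
    filter_upwards [h1.eventually_ne h2] with τ h
    exact sub_ne_zero.1 h
  refine ⟨fun τ => c τ / q τ, fun τ => q τ / a τ, ?_, hr1, hr2⟩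
  filter_upwards [hq0, ha0', hqeq, hne] with τ h1 h2 h3 h4
  refine ⟨h2, h4, ?_, fun x z => ?_⟩
  · field_simp
    linear_combination h3
  · have e : a τ * (x - c τ / q τ * z) * (x - q τ / a τ * z) =
        a τ * x ^ 2 - (a τ * c τ + q τ ^ 2) / q τ * x * z + c τ * z ^ 2 := by
      field_simp
      ring
    have e2 : (a τ * c τ + q τ ^ 2) / q τ = -b τ := by
      rw [div_eq_iff h1]
      linear_combination h3
    rw [e, e2]
    ring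

end Pool.Agent.TR23
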